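import Pool.Agent.H599Z.QT.Chain

set_option autoImplicit false

namespace Pool.Agent.H599Z.QT

open SimpleGraph
open scoped Classical

variable {V W : Type} {G : SimpleGraph V} {G' : SimpleGraph W}

/-- reachable inside a set -/
def RS (G : SimpleGraph V) (S : Set V) (x y : V) : Prop :=
  ∃ p : G.Walk x y, ∀ w ∈ p.support, w ∈ S

lemma RS.refl {S : Set V} {x : V} (h : x ∈ S) : RS G S x x :=
  ⟨Walk.nil, by simpa using h⟩

lemma RS.symm {S : Set V} {x y : V} (h : RS G S x y) : RS G S y x := by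
  obtain ⟨p, hp⟩ := h
  exact ⟨p.reverse, by simpa using hp⟩

lemma RS.trans {S : Set V} {x y z : V} (h : RS G S x y) (h' : RS G S y z) : RS G S x z := by
  obtain ⟨p, hp⟩ := h
  obtain ⟨q, hq⟩ := h'
  refine ⟨p.append q, fun w hw => ?_⟩
  rcases (Walk.mem_support_append_iff _ _).1 hw with h | h
  · exact hp w h
  · exact hq w h

lemma RS.mono {S T : Set V} {x y : V} (h : RS G S x y) (hST : S ⊆ T) : RS G T x y := by
  obtain ⟨p, hp⟩ := h
  exact ⟨p, fun w hw => hST (hp w hw)⟩

lemma RS.left {S : Set V} {x y : V} (h : RS G S x y) : x ∈ S := by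
  obtain ⟨p, hp⟩ := h
  exact hp x p.start_mem_support

lemma RS.right {S : Set V} {x y : V} (h : RS G S x y) : y ∈ S := h.symm.left

lemma RS.adj {S : Set V} {x y : V} (h : G.Adj x y) (hx : x ∈ S) (hy : y ∈ S) : RS G S x y :=
  ⟨Walk.cons h Walk.nil, by simp [hx, hy]⟩

lemma RS.ind {S : Set V} {x y : V} (h : RS G S x y) (P : V → Prop) (hx : P x)
    (step : ∀ a b, a ∈ S → b ∈ S → G.Adj a b → P a → P b) : P y := by
  obtain ⟨p, hp⟩ := h
  induction p with
  | nil => exact hx
  | cons h q ih =>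
    exact ih (step _ _ (hp _ (by simp)) (hp _ (by simp)) h hx) (fun w hw => hp w (by simp [hw]))

lemma RS.path {S : Set V} {x y : V} (h : RS G S x y) :
    ∃ p : G.Walk x y, p.IsPath ∧ ∀ w ∈ p.support, w ∈ S := by
  obtain ⟨p, hp⟩ := h
  exact ⟨p.bypass, p.bypass_isPath, fun w hw => hp w (p.support_bypass_subset_support hw)⟩

lemma RS.seqZ {S : Set V} (c : ℤ → V) {i j : ℤ} (hij : i ≤ j)
    (ha : ∀ t, i ≤ t → t < j → G.Adj (c t) (c (t + 1))) (hs : ∀ t, i ≤ t → t ≤ j → c t ∈ S) :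
    RS G S (c i) (c j) := by
  induction j, hij using Int.leInduction with
  | base => exact RS.refl (hs i le_rfl le_rfl)
  | succ j hj ih =>
    exact (ih (fun t h1 h2 => ha t h1 (by omega)) (fun t h1 h2 => hs t h1 (by omega))).trans
      (RS.adj (ha j hj (by omega)) (hs j hj (by omega)) (hs _ (by omega) le_rfl))

lemma RS.getVert {S : Set V} {x y : V} (p : G.Walk x y) {i j : ℕ} (hij : i ≤ j)
    (hj : j ≤ p.length) (hs : ∀ t, i ≤ t → t ≤ j → p.getVert t ∈ S) :
    RS G S (p.getVert i) (p.getVert j) := by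
  induction j, hij using Nat.le_induction with
  | base => exact RS.refl (hs i le_rfl le_rfl)
  | succ j h ih =>
    exact (ih (by omega) (fun t h1 h2 => hs t h1 (by omega))).trans
      (RS.adj (p.adj_getVert_succ (by omega)) (hs j h (by omega)) (hs _ (by omega) le_rfl))

lemma RS.map (g : G →g G') {S : Set V} {T : Set W} {x y : V} (h : RS G S x y)
    (hST : ∀ v, v ∈ S → g v ∈ T) : RS G' T (g x) (g y) := by
  obtain ⟨p, hp⟩ := h
  refine ⟨p.map g, fun w hw => ?_⟩
  rw [Walk.support_map, List.mem_map] at hw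
  obtain ⟨v, hv, rfl⟩ := hw
  exact hST v (hp v hv)

/-- the first step of a path -/
lemma RS.first {S : Set V} {x y : V} (h : RS G S x y) (hxy : x ≠ y) :
    ∃ a, G.Adj x a ∧ RS G (S \ {x}) a y := by
  obtain ⟨p, hp, hs⟩ := h.path
  cases p with
  | nil => exact absurd rfl hxy
  | cons h q =>
    rw [Walk.cons_isPath_iff] at hp
    refine ⟨_, h, q, fun w hw => ⟨hs w (by simp [hw]), ?_⟩⟩
    rintro rfl
    exact hp.2 hw

lemma tripod {S : Set V} {a b c : V} (h1 : RS G S a b) (h2 : RS G S c a) :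
    ∃ z ∈ S, ∃ A B C : Set V, A ⊆ S ∧ B ⊆ S ∧ C ⊆ S ∧ z ∉ A ∧ z ∉ B ∧ z ∉ C ∧
      Disjoint A B ∧ Disjoint A C ∧ Disjoint B C ∧
      RS G (insert z A) z a ∧ RS G (insert z B) z b ∧ RS G (insert z C) z c := by
  obtain ⟨p, hp, hps⟩ := h1.path
  obtain ⟨q, hqs⟩ := h2
  have hex : ∃ j, q.getVert j ∈ p.support := ⟨q.length, by simp⟩
  have hj := Nat.find_spec hex
  have hjl : Nat.find hex ≤ q.length := Nat.find_min' hex (by simp)
  obtain ⟨k, hk, hkl⟩ := Walk.mem_support_iff_exists_getVert.1 hj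
  have inj := hp.getVert_injOn
  refine ⟨p.getVert k, hps _ (by simp), {w | ∃ i, i < k ∧ w = p.getVert i},
    {w | ∃ i, k < i ∧ i ≤ p.length ∧ w = p.getVert i},
    {w | ∃ i, i < Nat.find hex ∧ w = q.getVert i}, ?_, ?_, ?_, ?_, ?_, ?_, ?_, ?_, ?_, ?_, ?_, ?_⟩
  · rintro _ ⟨i, -, rfl⟩; exact hps _ (by simp)
  · rintro _ ⟨i, -, -, rfl⟩; exact hps _ (by simp)
  · rintro _ ⟨i, -, rfl⟩; exact hqs _ (by simp)
  · rintro ⟨i, h1, h2⟩
    have := inj (x₁ := k) hkl (x₂ := i) (show i ≤ p.length by omega) h2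
    omega
  · rintro ⟨i, h1, h3, h2⟩
    have := inj (x₁ := k) hkl (x₂ := i) h3 h2
    omega
  · rintro ⟨i, h1, h2⟩
    exact Nat.find_min hex h1 (h2 ▸ p.getVert_mem_support k)
  · rw [Set.disjoint_left]
    rintro _ ⟨i, h1, rfl⟩ ⟨j, h2, h3, h4⟩
    have := inj (x₁ := i) (show i ≤ p.length by omega) (x₂ := j) h3 h4
    omega
  · rw [Set.disjoint_left]
    rintro _ ⟨i, h1, rfl⟩ ⟨j, h2, h4⟩
    exact Nat.find_min hex h2 (h4 ▸ p.getVert_mem_support i)
  · rw [Set.disjoint_left]
    rintro _ ⟨i, h1, -, rfl⟩ ⟨j, h2, h4⟩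
    exact Nat.find_min hex h2 (h4 ▸ p.getVert_mem_support i)
  · have := RS.getVert (S := insert (p.getVert k) {w | ∃ i, i < k ∧ w = p.getVert i}) p
      (Nat.zero_le k) hkl (fun t _ h => by
        rcases h.eq_or_lt with rfl | h
        · exact Or.inl rfl
        · exact Or.inr ⟨t, h, rfl⟩)
    simpa using this.symm
  · have := RS.getVert
      (S := insert (p.getVert k) {w | ∃ i, k < i ∧ i ≤ p.length ∧ w = p.getVert i}) p
      hkl le_rfl (fun t h h' => by
        rcases h.eq_or_lt with rfl | h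
        · exact Or.inl rfl
        · exact Or.inr ⟨t, h, h', rfl⟩)
    simpa using this
  · have := RS.getVert
      (S := insert (p.getVert k) {w | ∃ i, i < Nat.find hex ∧ w = q.getVert i}) q
      (Nat.zero_le _) hjl (fun t _ h => by
        rcases h.eq_or_lt with rfl | h
        · exact Or.inl hk.symm
        · exact Or.inr ⟨t, h, rfl⟩)
    rw [← hk] at this
    simpa using this.symm

/-! chain maps -/

noncomputable def cm (f : V → W) : Ch V →ₗ[ZMod 2] Ch W :=
  Finsupp.lmapDomain (ZMod 2) (ZMod 2) (Sym2.map f)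

lemma cm_sg (f : V → W) (e : Sym2 V) : cm f (sg e) = sg (Sym2.map f e) := by
  simp [cm, sg, Finsupp.mapDomain_single]

lemma cm_wv (g : G →g G') {u v : V} (p : G.Walk u v) : cm g (wv p) = wv (p.map g) := by
  induction p with
  | nil => simp
  | cons h p ih => simp [ih, cm_sg]

lemma cm_apply {f : V → W} (hf : Function.Injective f) (z : Ch V) (e : Sym2 V) :
    cm f z (Sym2.map f e) = z e :=
  Finsupp.mapDomain_apply (Sym2.map.injective hf) z e

lemma map_symm (g : G ≃g G') (e : Sym2 W) : Sym2.map g (Sym2.map g.symm e) = e := by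
  induction e using Sym2.ind with
  | _ a b => simp

lemma symm_map (g : G ≃g G') (e : Sym2 V) : Sym2.map g.symm (Sym2.map g e) = e := by
  induction e using Sym2.ind with
  | _ a b => simp

lemma cm_iso (g : G ≃g G') (z : Ch V) (e : Sym2 W) : cm g z e = z (Sym2.map g.symm e) := by
  conv_lhs => rw [← map_symm g e]
  exact cm_apply g.injective z _

lemma cm_symm (g : G ≃g G') (z : Ch V) : cm g.symm (cm g z) = z := by
  ext e
  rw [cm_iso, cm_iso]
  exact congrArg z (symm_map g e)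

lemma cm_trans {U : Type} {G'' : SimpleGraph U} (g : G ≃g G') (h : G' ≃g G'') (z : Ch V) :
    cm (g.trans h) z = cm h (cm g z) := by
  ext e
  rw [cm_iso, cm_iso, cm_iso]
  congr 1
  induction e using Sym2.ind with
  | _ a b => rfl

lemma mem_map_iso (g : G ≃g G') (v : V) (e : Sym2 V) : g v ∈ Sym2.map g e ↔ v ∈ e := by
  induction e using Sym2.ind with
  | _ a b => simp

lemma edge_map_iso (g : G ≃g G') (e : Sym2 V) : Sym2.map g e ∈ G'.edgeSet ↔ e ∈ G.edgeSet := by
  induction e using Sym2.ind with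
  | _ a b => simp [g.map_adj_iff]

lemma bd_cm (g : G ≃g G') (v : V) (z : Ch V) : bd (g v) (cm g z) = bd v z := by
  induction z using Finsupp.induction_linear with
  | zero => simp
  | add a b ha hb => simp [ha, hb]
  | single e a =>
    have : Finsupp.single e a = a • sg e := by simp [sg]
    rw [this, map_smul, map_smul, map_smul, cm_sg, bd_sg', bd_sg']
    simp only [mem_map_iso]

lemma IsEven.cm (g : G ≃g G') {z : Ch V} (h : IsEven G z) : IsEven G' (cm g z) := by
  refine ⟨fun e he => ?_, fun v => ?_⟩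
  · rw [cm_iso] at he
    exact (edge_map_iso g.symm e).1 (h.1 _ he)
  · rw [← g.apply_symm_apply v, bd_cm, h.2]

lemma card_cm (g : G ≃g G') (z : Ch V) : (cm g z).support.card = z.support.card := by
  have : (cm g z).support = z.support.image (Sym2.map g) :=
    Finsupp.mapDomain_support_of_injective (Sym2.map.injective g.injective) z
  rw [this, Finset.card_image_of_injective _ (Sym2.map.injective g.injective)]

lemma short_cm (g : G ≃g G') {L : ℕ} {z : Ch V} (h : z ∈ Short G L) : cm g z ∈ Short G' L := by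
  have : Short G L ≤ (Short G' L).comap (cm g) := by
    apply Submodule.span_le.2
    rintro y ⟨v, p, hp, rfl⟩
    have := cm_wv g.toHom p
    show cm g (wv p) ∈ Short G' L
    erw [this]
    exact wv_short _ (by simpa using hp)
  exact this h

lemma Irr.cm (g : G ≃g G') {n : ℕ} {z : Ch V} (h : Irr G n z) : Irr G' n (cm g z) :=
  ⟨h.even.cm g, by rw [card_cm, h.card], fun h1 => h.new (by
    have := short_cm g.symm h1
    rwa [cm_symm] at this)⟩

lemma Gen.iso (g : G ≃g G') {L : ℕ} (h : Gen G L) : Gen G' L := by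
  intro z hz
  have := short_cm g (h _ (hz.cm g.symm))
  have h2 := cm_symm g.symm z
  exact h2 ▸ this

lemma Gen.mono {L L' : ℕ} (h : Gen G L) (hL : L ≤ L') : Gen G L' :=
  fun z hz => Short.mono hL (h z hz)

/-! parametrised cycles -/

section
variable {n : ℕ} {z : Ch V} {c : ℤ → V}

lemma Param.per (h : Param G n z c) (i k : ℤ) : c (i + n * k) = c i :=
  (h.inj _ _).2 ⟨k, by ring⟩

lemma Param.per1 (h : Param G n z c) (i : ℤ) : c (i + n) = c i :=
  (h.inj _ _).2 ⟨1, by ring⟩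

lemma Param.ne (h : Param G n z c) {i j : ℤ} (h1 : i < j) (h2 : j < i + n) : c i ≠ c j := by
  intro h3
  have := Int.le_of_dvd (by omega) ((h.inj j i).1 h3.symm)
  omega

lemma Param.eq (h : Param G n z c) {i j : ℤ} (h1 : i < j + n) (h2 : j < i + n) (h3 : c i = c j) :
    i = j := by
  rcases lt_trichotomy i j with h4 | h4 | h4
  · exact absurd h3 (h.ne h4 h2)
  · exact h4
  · exact absurd h3.symm (h.ne h4 h1)

lemma Param.norm (h : Param G n z c) (a j : ℤ) : ∃ k : ℤ, a ≤ j + n * k ∧ j + n * k < a + n := by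
  have h3 := h.three
  have hn : (0 : ℤ) < n := by omega
  refine ⟨-((j - a) / n), ?_, ?_⟩
  · have := Int.emod_nonneg (j - a) hn.ne'
    have := Int.emod_add_mul_ediv (j - a) n
    linarith
  · have := Int.emod_lt_of_pos (j - a) hn
    have := Int.emod_add_mul_ediv (j - a) n
    linarith

lemma Param.edge_inj (h : Param G n z c) {i j : ℤ}
    (he : s(c i, c (i + 1)) = s(c j, c (j + 1))) : (n : ℤ) ∣ i - j := by
  rcases Sym2.eq_iff.1 he with ⟨h1, -⟩ | ⟨h1, h2⟩
  · exact (h.inj _ _).1 h1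
  · exfalso
    have h3 := (h.inj _ _).1 h1
    have h4 := (h.inj _ _).1 h2
    have h5 : (n : ℤ) ∣ 2 := by
      have := dvd_sub h4 h3
      simpa [show i + 1 - j - (i - (j + 1)) = 2 by ring] using this
    have := Int.le_of_dvd (by norm_num) h5
    have := h.three
    omega

lemma Param.at (h : Param G n z c) {i : ℤ} {e : Sym2 V} (he : z e ≠ 0) (hi : c i ∈ e) :
    e = s(c i, c (i + 1)) ∨ e = s(c (i - 1), c i) := by
  obtain ⟨j, rfl⟩ := (h.mem e).1 he
  rcases Sym2.mem_iff.1 hi with h1 | h1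
  · left
    have : c (j + 1) = c (i + 1) := (h.inj _ _).2 (by simpa using (h.inj _ _).1 h1.symm)
    rw [h1, this]
  · right
    have : c j = c (i - 1) := (h.inj _ _).2 (by
      have := (h.inj _ _).1 h1.symm
      rwa [show j - (i - 1) = j + 1 - i by ring])
    rw [h1, this]

lemma Param.vert (h : Param G n z c) {e : Sym2 V} (he : z e ≠ 0) {w : V} (hw : w ∈ e) :
    ∃ i, w = c i := by
  obtain ⟨j, rfl⟩ := (h.mem e).1 he
  rcases Sym2.mem_iff.1 hw with h1 | h1 <;> exact ⟨_, h1⟩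

lemma Param.deg (h : Param G n z c) {e f g : Sym2 V} {w : V} (he : z e ≠ 0) (hf : z f ≠ 0)
    (hg : z g ≠ 0) (we : w ∈ e) (wf : w ∈ f) (wg : w ∈ g) (hef : e ≠ f) : g = e ∨ g = f := by
  obtain ⟨i, rfl⟩ := h.vert he we
  rcases h.at he we with h1 | h1 <;> rcases h.at hf wf with h2 | h2 <;>
    rcases h.at hg wg with h3 | h3 <;> simp_all

noncomputable def seg (c : ℤ → V) (i : ℤ) (k : ℕ) : Ch V :=
  ∑ t ∈ Finset.range k, sg s(c (i + t), c (i + t + 1))

lemma seg_zero (c : ℤ → V) (i : ℤ) : seg c i 0 = 0 := by simp [seg]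

lemma seg_succ (c : ℤ → V) (i : ℤ) (k : ℕ) :
    seg c i (k + 1) = seg c i k + sg s(c (i + k), c (i + k + 1)) := by
  simp [seg, Finset.sum_range_succ]

lemma seg_add (c : ℤ → V) (i : ℤ) (k l : ℕ) :
    seg c i (k + l) = seg c i k + seg c (i + k) l := by
  induction l with
  | zero => simp [seg_zero]
  | succ l ih =>
    rw [← add_assoc, seg_succ, seg_succ, ih, add_assoc (seg c i k)]
    congr 3 <;> push_cast <;> ring_nf

lemma seg_ne {c : ℤ → V} {i : ℤ} {k : ℕ} {e : Sym2 V} (h : seg c i k e ≠ 0) :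
    ∃ t : ℤ, i ≤ t ∧ t < i + k ∧ e = s(c t, c (t + 1)) := by
  rw [seg, Finsupp.finsetSum_apply] at h
  obtain ⟨t, ht, h1⟩ := Finset.exists_ne_zero_of_sum_ne_zero h
  rw [sg_apply] at h1
  rw [Finset.mem_range] at ht
  refine ⟨i + t, by omega, by omega, ?_⟩
  by_contra h2
  rw [if_neg (fun h3 => h2 h3.symm)] at h1
  exact h1 rfl

lemma Param.seg_one (h : Param G n z c) {i t : ℤ} {k : ℕ} (hk : k ≤ n) (h1 : i ≤ t)
    (h2 : t < i + k) : seg c i k s(c t, c (t + 1)) = 1 := by
  rw [seg, Finsupp.finsetSum_apply, Finset.sum_eq_single (t - i).toNat]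
  · rw [sg_apply, if_pos]
    rw [show i + ((t - i).toNat : ℤ) = t by omega]
  · intro b hb hne
    rw [Finset.mem_range] at hb
    rw [sg_apply, if_neg]
    intro h3
    have h4 := (h.inj _ _).2 (h.edge_inj h3)
    have := h.eq (by omega) (by omega) h4
    omega
  · intro h3
    exact absurd (Finset.mem_range.2 (by omega)) h3

lemma Param.seg_full (h : Param G n z c) (i : ℤ) : seg c i n = z := by
  apply ch_ext
  intro e
  constructor
  · intro h1
    obtain ⟨t, -, -, rfl⟩ := seg_ne h1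
    exact (h.mem _).2 ⟨t, rfl⟩
  · intro h1
    obtain ⟨t, rfl⟩ := (h.mem _).1 h1
    obtain ⟨k, h2, h3⟩ := h.norm i t
    have := h.seg_one le_rfl h2 h3
    rw [h.per, show t + n * k + 1 = t + 1 + n * k by ring, h.per] at this
    rw [this]; exact one_ne_zero

lemma seg_walk {c : ℤ → V} (ha : ∀ i, G.Adj (c i) (c (i + 1))) (i : ℤ) (k : ℕ) :
    ∀ w, w = c (i + k) → ∃ p : G.Walk (c i) w, p.length = k ∧ wv p = seg c i k := by
  induction k with
  | zero =>
    intro w hw
    have : w = c i := by simpa using hw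
    subst this
    exact ⟨Walk.nil, rfl, by simp [seg_zero]⟩
  | succ k ih =>
    intro w hw
    obtain ⟨p, h1, h2⟩ := ih _ rfl
    have hadj : G.Adj (c (i + k)) w := by
      rw [hw]; push_cast; rw [← add_assoc]; exact ha _
    refine ⟨p.append (Walk.cons hadj Walk.nil), by simp [h1], ?_⟩
    rw [wv_append, h2, seg_succ, wv_cons, wv_nil, add_zero, hw]
    push_cast; rw [← add_assoc]

lemma seg_onE {c : ℤ → V} (ha : ∀ i, G.Adj (c i) (c (i + 1))) (i : ℤ) (k : ℕ) :
    OnE G (seg c i k) := by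
  obtain ⟨p, -, h⟩ := seg_walk ha i k _ rfl
  rw [← h]; exact onE_wv p

lemma seg_bd {c : ℤ → V} (ha : ∀ i, G.Adj (c i) (c (i + 1))) (i : ℤ) (k : ℕ) (x : V) :
    bd x (seg c i k) = (if x = c i then 1 else 0) + (if x = c (i + k) then 1 else 0) := by
  obtain ⟨p, -, h⟩ := seg_walk ha i k _ rfl
  rw [← h, bd_wv]

end

/-- finitely many irreducible cycles of bounded length through a vertex -/
lemma finite_irr (hl : ∀ v, (G.neighborSet v).Finite) (w : V) (N : ℕ) :
    {z : Ch V | ∃ n ≤ N, Irr G n z ∧ ∃ e, z e ≠ 0 ∧ w ∈ e}.Finite := by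
  have : G.LocallyFinite := fun v => (hl v).fintype
  have h1 : {p : G.Walk w w | p.length < N + 1}.Finite := Set.toFinite _
  refine (h1.image wv).subset ?_
  rintro z ⟨n, hn, hz, e, he, hw⟩
  obtain ⟨c, hc⟩ := hz.param
  obtain ⟨i, rfl⟩ := hc.vert he hw
  obtain ⟨p, h2, h3⟩ := seg_walk hc.adj i n (c i) (hc.per1 i).symm
  exact ⟨p, by simp; omega, by rw [h3, hc.seg_full]⟩

end Pool.Agent.H599Z.QT
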