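import Pool.Agent.H599Z.QT.Nested

set_option autoImplicit false

namespace Pool.Agent.H599Z.QT

open SimpleGraph
open scoped Classical

variable {V : Type} {H : SimpleGraph V} {X : Set V}

def Near (H : SimpleGraph V) (a b : V) : Prop :=
  ∃ a' a'', H.Adj a a' ∧ H.Adj a a'' ∧ RS H {a}ᶜ a' a'' ∧ ¬ RS H {a, b}ᶜ a' a''

lemma near_of_adj {a b : V} (h : H.Adj a b) : Near H a b :=
  ⟨b, b, h, h, RS.refl h.ne.symm, fun h1 => h1.left (by simp)⟩

lemma near_finite (hl : ∀ v, (H.neighborSet v).Finite) (a : V) : {b | Near H a b}.Finite := by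
  have : ∀ p : V × V, {b | RS H {a}ᶜ p.1 p.2 ∧ ¬ RS H {a, b}ᶜ p.1 p.2}.Finite := by
    intro p
    by_cases h : RS H {a}ᶜ p.1 p.2
    · obtain ⟨q, hq⟩ := h
      refine q.support.finite_toSet.subset fun b hb => ?_
      by_contra h1
      refine hb.2 ⟨q, fun w hw h2 => ?_⟩
      rcases h2 with h2 | h2
      · exact hq w hw h2
      · exact h1 (h2 ▸ hw)
    · simp [h]
  refine (((hl a).prod (hl a)).biUnion fun p _ => this p).subset ?_
  rintro b ⟨a', a'', h1, h2, h3, h4⟩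
  exact Set.mem_biUnion (x := (a', a'')) ⟨h1, h2⟩ ⟨h3, h4⟩

lemma Near.reach {a b : V} (h : Near H a b) : H.Reachable a b := by
  obtain ⟨a', a'', h1, -, ⟨q, hq⟩, h4⟩ := h
  have : b ∈ q.support := by
    by_contra h1
    refine h4 ⟨q, fun w hw h2 => ?_⟩
    rcases h2 with h2 | h2
    · exact hq w hw h2
    · exact h1 (h2 ▸ hw)
  exact h1.reachable.trans (q.takeUntil b this).reachable

lemma Near.map (g : H ≃g H) {a b : V} (h : Near H a b) : Near H (g a) (g b) := by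
  obtain ⟨a', a'', h1, h2, h3, h4⟩ := h
  refine ⟨g a', g a'', g.map_adj_iff.2 h1, g.map_adj_iff.2 h2,
    RS.map g.toHom h3 fun v hv h => hv (g.injective h), fun h5 => h4 ?_⟩
  have := RS.map (T := {a, b}ᶜ) g.symm.toHom h5 (fun v hv h => hv (by
    rcases h with h | h
    · left; rw [← h]; exact (g.apply_symm_apply v).symm
    · right; rw [← Set.mem_singleton_iff.1 h]; exact (g.apply_symm_apply v).symm))
  simpa using this

lemma near_bound (hl : ∀ v, (H.neighborSet v).Finite) (hq : QuasiTransitive H) :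
    ∃ D, ∀ a b, Near H a b → ∃ p : H.Walk a b, p.length ≤ D := by
  obtain ⟨R, hR, hq⟩ := hq
  have : {p : V × V | p.1 ∈ R ∧ Near H p.1 p.2}.Finite := by
    refine (hR.biUnion fun a _ => (near_finite hl a).image fun b => (a, b)).subset ?_
    rintro ⟨a, b⟩ ⟨h1, h2⟩
    exact Set.mem_biUnion h1 ⟨b, h2, rfl⟩
  obtain ⟨D, hD⟩ := (this.image fun p => H.dist p.1 p.2).bddAbove
  refine ⟨D, fun a b h => ?_⟩
  obtain ⟨s, hs, g, rfl⟩ := hq a
  obtain ⟨b, rfl⟩ := g.surjective b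
  have h1 := h.map g.symm
  simp only [RelIso.symm_apply_apply] at h1
  obtain ⟨p, hp⟩ := h1.reach.exists_walk_length_eq_dist
  refine ⟨p.map g.toHom, ?_⟩
  rw [Walk.length_map, hp]
  exact hD ⟨(s, b), ⟨hs, h1⟩, rfl⟩

def Insep (H : SimpleGraph V) (X : Set V) : Prop :=
  ∀ x y, ∀ u ∈ X, ∀ v ∈ X, u ≠ x → u ≠ y → v ≠ x → v ≠ y → RS H {x, y}ᶜ u v

structure Blk (H : SimpleGraph V) (X : Set V) : Prop where
  ins : Insep H X
  max : ∀ w, Insep H (insert w X) → w ∈ X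
  big : ∀ x y z, ∃ u ∈ X, u ≠ x ∧ u ≠ y ∧ u ≠ z

def Lk (H : SimpleGraph V) (X : Set V) (a b : V) : Prop :=
  H.Adj a b ∨ ∃ a' b', H.Adj a a' ∧ H.Adj b b' ∧ RS H Xᶜ a' b'

def torso (H : SimpleGraph V) (X : Set V) : SimpleGraph X where
  Adj a b := a ≠ b ∧ Lk H X a b
  symm := ⟨by
    rintro a b ⟨h1, h2 | ⟨a', b', h2, h3, h4⟩⟩
    · exact ⟨h1.symm, Or.inl h2.symm⟩
    · exact ⟨h1.symm, Or.inr ⟨b', a', h3, h2, h4.symm⟩⟩⟩
  loopless := ⟨fun a h => h.1 rfl⟩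

lemma Insep.insert (h : Insep H X) {z : V}
    (hz : ∀ x y, z ≠ x → z ≠ y → ∃ u ∈ X, RS H {x, y}ᶜ z u) : Insep H (insert z X) := by
  have key : ∀ x y, ∀ u ∈ X, z ≠ x → z ≠ y → u ≠ x → u ≠ y → RS H {x, y}ᶜ z u := by
    intro x y u hu h1 h2 h3 h4
    obtain ⟨v, hv, h5⟩ := hz x y h1 h2
    have := h5.right
    simp only [Set.mem_compl_iff, Set.mem_insert_iff, Set.mem_singleton_iff, not_or] at this
    exact h5.trans (h x y v hv u hu this.1 this.2 h3 h4)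
  rintro x y u (rfl | hu) v (rfl | hv) h1 h2 h3 h4
  · exact RS.refl (by simp [h1, h2])
  · exact key x y v hv h1 h2 h3 h4
  · exact (key x y u hu h3 h4 h1 h2).symm
  · exact h x y u hu v hv h1 h2 h3 h4

lemma Blk.two (h : Blk H X) {a b c a' b' c' : V} (ha : a ∈ X) (hb : b ∈ X) (hc : c ∈ X)
    (h1 : H.Adj a a') (h2 : H.Adj b b') (h3 : H.Adj c c') (h4 : RS H Xᶜ a' b')
    (h5 : RS H Xᶜ c' a') : a = b ∨ a = c ∨ b = c := by
  by_contra hn
  push Not at hn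
  obtain ⟨ab, ac, bc⟩ := hn
  obtain ⟨z, hz, A, B, C, sA, sB, sC, -, -, -, d1, d2, d3, r1, r2, r3⟩ := tripod h4 h5
  refine hz (h.max z (h.ins.insert fun x y zx zy => ?_))
  have key : ∀ (a a' : V) (A : Set V), a ∈ X → H.Adj a a' → RS H (Insert.insert z A) z a' →
      x ∉ Insert.insert a A → y ∉ Insert.insert a A → ∃ u ∈ X, RS H {x, y}ᶜ z u := by
    intro a a' A k1 k2 k3 k4 k5
    have k6 : RS H {x, y}ᶜ z a' := k3.mono (by
      rintro w (rfl | hw) (rfl | rfl)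
      · exact zx rfl
      · exact zy rfl
      · exact k4 (Or.inr hw)
      · exact k5 (Or.inr hw))
    refine ⟨a, k1, k6.trans (RS.adj k2.symm k6.right ?_)⟩
    rintro (rfl | rfl)
    · exact k4 (Or.inl rfl)
    · exact k5 (Or.inl rfl)
  have dis : ∀ (a b : V) (A B : Set V), a ∈ X → b ∈ X → a ≠ b → A ⊆ Xᶜ → B ⊆ Xᶜ → Disjoint A B →
      ∀ w, w ∈ Insert.insert a A → w ∈ Insert.insert b B → False := by
    rintro a b A B k1 k2 k3 k4 k5 k6 w (rfl | w1) (rfl | w2)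
    · exact k3 rfl
    · exact k5 w2 k1
    · exact k4 w1 k2
    · exact Set.disjoint_left.1 k6 w1 w2
  have e1 := dis a b A B ha hb ab sA sB d1
  have e2 := dis a c A C ha hc ac sA sC d2
  have e3 := dis b c B C hb hc bc sB sC d3
  by_contra hn
  have f1 := mt (fun h : _ ∧ _ => key a a' A ha h1 r1 h.1 h.2) hn
  have f2 := mt (fun h : _ ∧ _ => key b b' B hb h2 r2 h.1 h.2) hn
  have f3 := mt (fun h : _ ∧ _ => key c c' C hc h3 r3 h.1 h.2) hn
  have := e1 x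
  have := e1 y
  have := e2 x
  have := e2 y
  have := e3 x
  have := e3 y
  tauto

lemma Blk.near (h : Blk H X) {a b : X} (hab : (torso H X).Adj a b) : Near H a.1 b.1 := by
  obtain ⟨ne, h1 | ⟨a', b', h1, h2, h3⟩⟩ := hab
  · exact near_of_adj h1
  have ne' : a.1 ≠ b.1 := fun h => ne (Subtype.ext h)
  obtain ⟨u, hu, ua, ub, -⟩ := h.big a b b
  obtain ⟨a'', k1, k2⟩ := (h.ins b b a a.2 u hu ne' ne' ub ub).first ua.symm
  have s1 : (Xᶜ : Set V) ⊆ {a.1}ᶜ := fun w hw h => hw (h ▸ a.2)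
  refine ⟨a', a'', h1, k1, ?_, fun h4 => ?_⟩
  · refine (((h3.mono s1).trans (RS.adj h2.symm (s1 h3.right) ne'.symm)).trans
      ((h.ins a a b b.2 u hu ne'.symm ne'.symm ua ua).mono (by simp))).trans
      (k2.symm.mono fun w hw => hw.2)
  · have h5 : RS H {a.1, b.1}ᶜ a' u := h4.trans (k2.mono fun w hw => by
      rintro (h | h)
      · exact hw.2 h
      · exact hw.1 (Or.inl h))
    refine (h5.ind (fun w => RS H Xᶜ a' w) (RS.refl h3.left) ?_).right hu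
    intro p q _ hq hpq ih
    refine ih.trans (RS.adj hpq ih.right fun hX => ?_)
    rcases h.two a.2 b.2 hX h1 h2 hpq.symm h3 ih.symm with h6 | h6 | h6
    · exact ne' h6
    · exact hq (Or.inl h6.symm)
    · exact hq (Or.inr h6.symm)

lemma Blk.three (h : Blk H X) : ThreeConn (torso H X) := by
  intro x y u v h1 h2 h3 h4
  have sub : ∀ {a b : X}, a ≠ b → a.1 ≠ b.1 := fun h h' => h (Subtype.ext h')
  have mem : ∀ w : X, w.1 ∈ ({x.1, y.1}ᶜ : Set V) → w ∈ ({x, y}ᶜ : Set X) := by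
    rintro w hw (rfl | rfl) <;> simp at hw
  have := (h.ins x y u u.2 v v.2 (sub h1) (sub h2) (sub h3) (sub h4)).ind
    (fun w => ∃ a : X, RS (torso H X) {x, y}ᶜ u a ∧
      (w = a ∨ ∃ a', H.Adj a a' ∧ RS H Xᶜ a' w))
    ⟨u, RS.refl (by simp [h1, h2]), Or.inl rfl⟩ (by
      rintro p q - hq hpq ⟨a, k1, k2⟩
      by_cases hX : q ∈ X
      · refine ⟨⟨q, hX⟩, ?_, Or.inl rfl⟩
        by_cases haq : a = ⟨q, hX⟩
        · exact haq ▸ k1
        refine k1.trans (RS.adj ⟨haq, ?_⟩ k1.right (mem _ hq))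
        rcases k2 with rfl | ⟨a', k2, k3⟩
        · exact Or.inl hpq
        · exact Or.inr ⟨a', p, k2, hpq.symm, k3⟩
      · refine ⟨a, k1, Or.inr ?_⟩
        rcases k2 with rfl | ⟨a', k2, k3⟩
        · exact ⟨q, hpq, RS.refl hX⟩
        · exact ⟨a', k2, k3.trans (RS.adj hpq k3.right hX)⟩)
  obtain ⟨a, k1, k2 | ⟨a', -, k2⟩⟩ := this
  · rwa [← Subtype.ext k2] at k1
  · exact absurd v.2 k2.right

lemma Blk.big' (h : Blk H X) (x y z : X) : ∃ u : X, u ≠ x ∧ u ≠ y ∧ u ≠ z := by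
  obtain ⟨u, hu, h1, h2, h3⟩ := h.big x y z
  exact ⟨⟨u, hu⟩, fun h => h1 (congrArg Subtype.val h), fun h => h2 (congrArg Subtype.val h),
    fun h => h3 (congrArg Subtype.val h)⟩

lemma Blk.conn (h : Blk H X) (x y : X) : RS (torso H X) Set.univ x y := by
  obtain ⟨u, h1, h2, -⟩ := h.big' x y y
  exact (h.three u u x y h1.symm h1.symm h2.symm h2.symm).mono (Set.subset_univ _)

lemma Blk.lf (h : Blk H X) (hl : ∀ v, (H.neighborSet v).Finite) (v : X) :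
    ((torso H X).neighborSet v).Finite :=
  ((near_finite hl v.1).preimage Subtype.val_injective.injOn).subset fun _ hb => h.near hb

lemma Blk.eq {Y : Set V} (h : Blk H X) (h' : Blk H Y) {a b c : V} (ab : a ≠ b) (ac : a ≠ c)
    (bc : b ≠ c) (ha : a ∈ X ∩ Y) (hb : b ∈ X ∩ Y) (hc : c ∈ X ∩ Y) : X ⊆ Y := by
  intro w hw
  refine h'.max w (h'.ins.insert fun x y h1 h2 => ?_)
  obtain ⟨u, hu, u1, u2⟩ : ∃ u ∈ X ∩ Y, u ≠ x ∧ u ≠ y := by
    by_contra hn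
    push Not at hn
    by_cases k1 : a = x
    · exact bc ((hn b hb (k1 ▸ ab.symm)).trans (hn c hc (k1 ▸ ac.symm)).symm)
    by_cases k2 : b = x
    · exact ac ((hn a ha k1).trans (hn c hc (k2 ▸ bc.symm)).symm)
    · exact ab ((hn a ha k1).trans (hn b hb k2).symm)
  exact ⟨u, hu.2, h.ins x y w hw u hu.1 h1 h2 u1 u2⟩

lemma blk_finite (hl : ∀ v, (H.neighborSet v).Finite) (s : V) :
    {X | Blk H X ∧ s ∈ X}.Finite := by
  have : ∀ p : V × V, {X | Blk H X ∧ s ∈ X ∧ p.1 ∈ X ∧ p.2 ∈ X ∧ s ≠ p.1 ∧ s ≠ p.2 ∧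
      p.1 ≠ p.2}.Finite := by
    intro p
    apply Set.Subsingleton.finite
    rintro X ⟨h1, h2, h3, h4, h5, h6, h7⟩ Y ⟨k1, k2, k3, k4, -⟩
    exact Set.Subset.antisymm (h1.eq k1 h5 h6 h7 ⟨h2, k2⟩ ⟨h3, k3⟩ ⟨h4, k4⟩)
      (k1.eq h1 h5 h6 h7 ⟨k2, h2⟩ ⟨k3, h3⟩ ⟨k4, h4⟩)
  refine (((near_finite hl s).prod (near_finite hl s)).biUnion fun p _ => this p).subset ?_
  rintro X ⟨h, hs⟩
  obtain ⟨u, u1, -⟩ := h.big' ⟨s, hs⟩ ⟨s, hs⟩ ⟨s, hs⟩
  obtain ⟨b, b1, -⟩ := (h.conn ⟨s, hs⟩ u).first u1.symm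
  obtain ⟨v, v1, v2, -⟩ := h.big' ⟨s, hs⟩ b b
  obtain ⟨b', b2, b3⟩ := (h.three b b ⟨s, hs⟩ v b1.ne b1.ne v2 v2).first v1.symm
  refine Set.mem_biUnion (x := (b.1, b'.1)) ⟨h.near b1, h.near b2⟩ ⟨h, hs, b.2, b'.2,
    fun h => b1.ne (Subtype.ext h), fun h => b2.ne (Subtype.ext h), fun h => ?_⟩
  exact b3.left.1 (Or.inl (Subtype.ext h).symm)

lemma Insep.comap (g : H ≃g H) (h : Insep H X) : Insep H (g ⁻¹' X) := by
  intro x y u hu v hv h1 h2 h3 h4
  have := RS.map (T := {x, y}ᶜ) g.symm.toHom (h (g x) (g y) _ hu _ hv (g.injective.ne h1)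
    (g.injective.ne h2) (g.injective.ne h3) (g.injective.ne h4)) (fun w hw h => hw (by
      rcases h with h | h
      · left; rw [← h]; exact (g.apply_symm_apply w).symm
      · right; rw [← Set.mem_singleton_iff.1 h]; exact (g.apply_symm_apply w).symm))
  simpa using this

lemma Blk.comap (g : H ≃g H) (h : Blk H X) : Blk H (g ⁻¹' X) := by
  refine ⟨h.ins.comap g, fun w hw => h.max _ ?_, fun x y z => ?_⟩
  · have := hw.comap g.symm
    convert this using 1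
    ext v
    obtain ⟨v, rfl⟩ := g.surjective v
    simp
  · obtain ⟨u, hu, h1, h2, h3⟩ := h.big (g x) (g y) (g z)
    obtain ⟨u, rfl⟩ := g.surjective u
    exact ⟨u, hu, fun h => h1 (h ▸ rfl), fun h => h2 (h ▸ rfl), fun h => h3 (h ▸ rfl)⟩

lemma Lk.map {Y : Set V} (g : H ≃g H) (hg : ∀ v, v ∈ Y ↔ g v ∈ X) {a b : V} (h : Lk H Y a b) :
    Lk H X (g a) (g b) := by
  rcases h with h | ⟨a', b', h1, h2, h3⟩
  · exact Or.inl (g.map_adj_iff.2 h)
  · exact Or.inr ⟨g a', g b', g.map_adj_iff.2 h1, g.map_adj_iff.2 h2,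
      RS.map g.toHom h3 fun v hv h => hv ((hg v).2 h)⟩

def torsoIso {Y : Set V} (g : H ≃g H) (hg : ∀ v, v ∈ Y ↔ g v ∈ X) : torso H Y ≃g torso H X where
  toEquiv := g.toEquiv.subtypeEquiv hg
  map_rel_iff' := by
    intro a b
    refine and_congr (Equiv.injective _).ne_iff ⟨fun h => ?_, fun h => h.map g hg⟩
    have := Lk.map (X := Y) g.symm (fun v => by rw [hg]; simp) h
    simpa using this

lemma Blk.qt (h : Blk H X) (hl : ∀ v, (H.neighborSet v).Finite) (hq : QuasiTransitive H) :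
    QuasiTransitive (torso H X) := by
  obtain ⟨R, hR, hq⟩ := hq
  have fin : {p : V × Set V | p.1 ∈ R ∧ Blk H p.2 ∧ p.1 ∈ p.2}.Finite := by
    refine (hR.biUnion fun a _ => (blk_finite hl a).image fun b => (a, b)).subset ?_
    rintro ⟨a, b⟩ ⟨h1, h2⟩
    exact Set.mem_biUnion h1 ⟨b, h2, rfl⟩
  have : ∀ p : V × Set V, ∃ T : Set X, T.Finite ∧ ∀ (v : X) (g : H ≃g H), g p.1 = v →
      g ⁻¹' X = p.2 → ∃ s ∈ T, ∃ k : torso H X ≃g torso H X, k s = v := by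
    intro p
    by_cases h1 : ∃ (v : X) (g : H ≃g H), g p.1 = v ∧ g ⁻¹' X = p.2
    · obtain ⟨v0, g0, k1, k2⟩ := h1
      refine ⟨{v0}, Set.finite_singleton _, fun v g k3 k4 => ⟨v0, rfl,
        torsoIso (g0.symm.trans g) fun w => ?_, Subtype.ext ?_⟩⟩
      · obtain ⟨w, rfl⟩ := g0.surjective w
        have := Set.ext_iff.1 (k2.trans k4.symm) w
        simpa using this
      · show g (g0.symm v0) = v
        rw [← k1, ← k3]; simp
    · exact ⟨∅, Set.finite_empty, fun v g k1 k2 => absurd ⟨v, g, k1, k2⟩ h1⟩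
  choose T hT hT' using this
  refine ⟨⋃ p ∈ _, T p, fin.biUnion fun p _ => hT p, fun v => ?_⟩
  obtain ⟨s, hs, g, hg⟩ := hq v
  obtain ⟨t, ht, k⟩ := hT' (s, g ⁻¹' X) v g hg rfl
  exact ⟨t, Set.mem_biUnion (x := (s, g ⁻¹' X)) ⟨hs, h.comap g, by
    show g s ∈ X
    rw [hg]; exact v.2⟩ ht, k⟩

lemma blk_uniform (hl : ∀ v, (H.neighborSet v).Finite) (hq : QuasiTransitive H)
    (h : ∀ X, Blk H X → ∃ L, Gen (torso H X) L) : ∃ L, ∀ X, Blk H X → Gen (torso H X) L := by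
  obtain ⟨R, hR, hq⟩ := hq
  choose! L hL using h
  obtain ⟨M, hM⟩ := ((hR.biUnion fun a _ => blk_finite hl a).image L).bddAbove
  refine ⟨M, fun X hX => ?_⟩
  by_cases hV : Nonempty V
  · obtain ⟨x⟩ := hV
    obtain ⟨v, hv, -⟩ := hX.big x x x
    obtain ⟨s, hs, g, rfl⟩ := hq v
    exact ((hL _ (hX.comap g)).mono (hM ⟨_, Set.mem_biUnion hs ⟨hX.comap g, hv⟩, rfl⟩)).iso
      (torsoIso g fun _ => Iff.rfl)
  · intro z _
    have : z = 0 := by
      ext e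
      exact absurd ⟨e.out.1.1⟩ hV
    exact this ▸ zero_mem _

end Pool.Agent.H599Z.QT
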