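import Pool.Agent.H599Z.QT.Dual

set_option autoImplicit false

namespace Pool.Agent.H599Z.QT

open SimpleGraph
open scoped Classical

variable {V : Type} {G : SimpleGraph V}

def OffC (c : ℤ → V) : Set V := {w | ∀ i, w ≠ c i}

def Ed (G : SimpleGraph V) (z : Ch V) (e : Sym2 V) : Prop := e ∈ G.edgeSet ∧ z e = 0

def Ins (G : SimpleGraph V) (c : ℤ → V) (e : Sym2 V) (w : V) : Prop :=
  ∃ x ∈ e, RS G (OffC c) x w

def Conn (G : SimpleGraph V) (c : ℤ → V) (e e' : Sym2 V) : Prop :=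
  e = e' ∨ ∃ y ∈ e', Ins G c e y

def Att (G : SimpleGraph V) (z : Ch V) (c : ℤ → V) (e : Sym2 V) (i : ℤ) : Prop :=
  ∃ e', Ed G z e' ∧ Conn G c e e' ∧ c i ∈ e'

structure GoodCol (G : SimpleGraph V) (n : ℕ) (z : Ch V) (c : ℤ → V) (χ : Sym2 V → ZMod 2) :
    Prop where
  b1 : ∀ e e', Ed G z e → Ed G z e' → Conn G c e e' → χ e = χ e'
  b2 : ∀ e e', Ed G z e → Ed G z e' → ¬ Conn G c e e' → ∀ i j i' j' : ℤ, i < j → j < i' →
    i' < j' → j' < i + n → Att G z c e i → Att G z c e i' → Att G z c e' j → Att G z c e' j' →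
    χ e ≠ χ e'
  b3 : ∀ e e', Ed G z e → Ed G z e' → ¬ Conn G c e e' → ∀ i j k : ℤ, i < j → j < k →
    k < i + n → Att G z c e i → Att G z c e j → Att G z c e k → Att G z c e' i →
    Att G z c e' j → Att G z c e' k → χ e ≠ χ e'

lemma rs_edge {S : Set V} {e : Sym2 V} (he : e ∈ G.edgeSet) {x y : V} (hx : x ∈ e) (hy : y ∈ e)
    (sx : x ∈ S) (sy : y ∈ S) : RS G S x y := by
  by_cases h : x = y
  · subst h; exact RS.refl sx
  · have : e = s(x, y) := (Sym2.mem_and_mem_iff h).1 ⟨hx, hy⟩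
    subst this
    exact RS.adj he sx sy

variable {n : ℕ} {z : Ch V} {c : ℤ → V}

lemma Ins.off {e : Sym2 V} {w : V} (h : Ins G c e w) : w ∈ OffC c := by
  obtain ⟨x, -, h⟩ := h
  exact h.right

lemma Ins.trans {e : Sym2 V} {w w' : V} (h : Ins G c e w) (h' : RS G (OffC c) w w') :
    Ins G c e w' := by
  obtain ⟨x, h1, h⟩ := h
  exact ⟨x, h1, h.trans h'⟩

lemma Ins.rs {e : Sym2 V} (he : e ∈ G.edgeSet) {w w' : V} (h : Ins G c e w) (h' : Ins G c e w') :
    RS G (OffC c) w w' := by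
  obtain ⟨x, h1, h⟩ := h
  obtain ⟨x', h1', h'⟩ := h'
  exact (h.symm.trans (rs_edge he h1 h1' h.left h'.left)).trans h'

lemma Conn.symm {e e' : Sym2 V} (h : Conn G c e e') : Conn G c e' e := by
  rcases h with h | ⟨y, hy, x, hx, h⟩
  · exact Or.inl h.symm
  · exact Or.inr ⟨x, hx, y, hy, h.symm⟩

lemma Conn.ins {e e' : Sym2 V} (he' : e' ∈ G.edgeSet) (h : Conn G c e e') {w : V}
    (hw : Ins G c e' w) : Ins G c e w := by
  rcases h with rfl | ⟨y, hy, h⟩
  · exact hw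
  · exact h.trans (Ins.rs he' ⟨y, hy, RS.refl h.off⟩ hw)

lemma Conn.trans {e e' e'' : Sym2 V} (he' : e' ∈ G.edgeSet) (h : Conn G c e e')
    (h' : Conn G c e' e'') : Conn G c e e'' := by
  rcases h' with rfl | ⟨y, hy, h'⟩
  · exact h
  · exact Or.inr ⟨y, hy, h.ins he' h'⟩

lemma conn_of_ins {e e' : Sym2 V} {w : V} (h : Ins G c e w) (h' : Ins G c e' w) :
    Conn G c e e' := by
  obtain ⟨x, hx, h'⟩ := h'
  exact Or.inr ⟨x, hx, h.trans h'.symm⟩

lemma Att.chord {e : Sym2 V} (h0 : ∀ x ∈ e, x ∉ OffC c) {i : ℤ} (h : Att G z c e i) :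
    c i ∈ e := by
  obtain ⟨e', -, rfl | ⟨y, -, x, hx, h1⟩, h2⟩ := h
  · exact h2
  · exact absurd h1.left (h0 x hx)

lemma Att.leg {e : Sym2 V} (he : e ∈ G.edgeSet) {x : V} (hx : x ∈ e) (hx0 : x ∈ OffC c) {i : ℤ}
    (h : Att G z c e i) : ∃ (u : V) (y : Ch V), G.Adj (c i) u ∧ Ed G z s(c i, u) ∧
      Conn G c e s(c i, u) ∧ OnE G y ∧
      (∀ w, bd w y = (if w = c i then 1 else 0) + (if w = x then 1 else 0)) ∧
      (∀ w, w ≠ c i → ¬ Ins G c e w → Off w y) ∧
      ∀ t, y s(c i, t) = if t = u then 1 else 0 := by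
  obtain ⟨e', h1, h2, h3⟩ := h
  obtain ⟨u, rfl⟩ := Sym2.mem_iff_exists.1 h3
  have hx1 : Ins G c e x := ⟨x, hx, RS.refl hx0⟩
  have hu : Ins G c e u := by
    rcases h2 with rfl | ⟨y, hy, h4⟩
    · rcases Sym2.mem_iff.1 hx with rfl | rfl
      · exact absurd rfl (hx0 i)
      · exact hx1
    · rcases Sym2.mem_iff.1 hy with rfl | rfl
      · exact absurd rfl (h4.off i)
      · exact h4
  obtain ⟨p, hp⟩ := (Ins.rs he hx1 hu).self
  have hadj : G.Adj (c i) u := h1.1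
  refine ⟨u, sg s(c i, u) + wv p, hadj, h1, h2, (onE_sg h1.1).add (onE_wv p), fun w => ?_,
    fun w h4 h5 => ?_, fun t => ?_⟩
  · rw [map_add, bd_sg _ _ _ hadj.ne, bd_wv]
    grind
  · exact (off_sg h4 (fun h => h5 (h ▸ hu))).add
      (off_wv p fun h => h5 (hx1.trans (hp w h)))
  · rw [Finsupp.add_apply, sg_at, off_wv p (fun h => (RS.right (hp _ h)) i rfl) _ (by simp),
      add_zero]

lemma off_seg {w : V} {i : ℤ} {k : ℕ} (h : ∀ t, i ≤ t → t ≤ i + k → w ≠ c t) :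
    Off w (seg c i k) := by
  intro e he
  by_contra h0
  obtain ⟨t, h1, h2, rfl⟩ := seg_ne h0
  rcases Sym2.mem_iff.1 he with h3 | h3
  · exact h t h1 (by omega) h3
  · exact h (t + 1) (by omega) (by omega) h3

lemma Param.seg_start (h : Param G n z c) {i : ℤ} {k : ℕ} (h1 : 1 ≤ k) (h2 : k < n) (t : V) :
    seg c i k s(c i, t) = if t = c (i + 1) then 1 else 0 := by
  split_ifs with ht
  · rw [ht]; exact h.seg_one h2.le le_rfl (by omega)
  · by_contra h0
    obtain ⟨s, h3, h4, h5⟩ := seg_ne h0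
    rcases Sym2.eq_iff.1 h5 with ⟨h6, h7⟩ | ⟨h6, -⟩
    · have := h.eq (by omega) (by omega) h6
      exact ht (by rw [h7, this])
    · exact h.ne (by omega) (by omega) h6

lemma Param.nz (h : Param G n z c) (i : ℤ) : z s(c i, c (i + 1)) ≠ 0 := (h.mem _).2 ⟨i, rfl⟩

lemma Param.nz' (h : Param G n z c) (i : ℤ) : z s(c i, c (i - 1)) ≠ 0 := by
  have := h.nz (i - 1)
  rwa [sub_add_cancel, Sym2.eq_swap] at this

lemma Param.adj' (h : Param G n z c) (i : ℤ) : G.Adj (c i) (c (i - 1)) := by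
  have := h.adj (i - 1)
  rw [sub_add_cancel] at this
  exact this.symm

lemma Param.ne2 (h : Param G n z c) (i : ℤ) : c (i + 1) ≠ c (i - 1) :=
  (h.ne (by omega) (by have := h.three; omega)).symm

lemma Param.atz (h : Param G n z c) (i : ℤ) : At (c i) z (c (i + 1)) (c (i - 1)) := by
  intro u
  by_cases h1 : u = c (i + 1)
  · rw [if_pos h1, if_neg (h1 ▸ h.ne2 i), h1, z2ne (h.nz i), add_zero]
  by_cases h2 : u = c (i - 1)
  · rw [if_neg h1, if_pos h2, h2, z2ne (h.nz' i), zero_add]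
  rw [if_neg h1, if_neg h2, add_zero]
  by_contra h0
  rcases h.at h0 (Sym2.mem_mk_left _ _) with h3 | h3
  · exact h1 (Sym2.congr_right.1 h3)
  · rw [Sym2.eq_swap (a := c (i - 1))] at h3
    exact h2 (Sym2.congr_right.1 h3)

lemma Param.offz (h : Param G n z c) {w : V} (hw : w ∈ OffC c) : Off w z := by
  intro e he
  by_contra h0
  obtain ⟨i, hi⟩ := h.vert h0 he
  exact hw i hi

/-- potentials -/
def Dual.Pot (D : Dual G) (a : D.F → ZMod 2) (z : Ch V) : Prop :=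
  ∀ e, z e = a (D.l e) + a (D.r e)

lemma Dual.Pot.add {D : Dual G} {a b : D.F → ZMod 2} {y z : Ch V} (h : D.Pot a y)
    (h' : D.Pot b z) : D.Pot (fun f => a f + b f) (y + z) := fun e => by
  rw [Finsupp.add_apply, h e, h' e]; ring

lemma Dual.Pot.mv0 {D : Dual G} {a : D.F → ZMod 2} {y : Ch V} (h : D.Pot a y) {w : V}
    (ho : Off w y) {e e' : Sym2 V} (he : e ∈ G.edgeSet) (he' : e' ∈ G.edgeSet) (h1 : w ∈ e)
    (h2 : w ∈ e') : a (D.l e) = a (D.l e') := by
  obtain ⟨u, rfl⟩ := Sym2.mem_iff_exists.1 h1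
  obtain ⟨u', rfl⟩ := Sym2.mem_iff_exists.1 h2
  exact D.d5 a w (fun f hf => z2eq.1 (by rw [← h f, ho f hf])) u u' he he'

lemma Dual.Pot.mvS {D : Dual G} {a : D.F → ZMod 2} {y : Ch V} (h : D.Pot a y) {S : Set V}
    {w w' : V} (hr : RS G S w w') (ho : ∀ x ∈ S, Off x y) {e e' : Sym2 V} (he : e ∈ G.edgeSet)
    (he' : e' ∈ G.edgeSet) (h1 : w ∈ e) (h2 : w' ∈ e') : a (D.l e) = a (D.l e') := by
  refine hr.ind (fun x => ∀ f ∈ G.edgeSet, x ∈ f → a (D.l e) = a (D.l f))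
    (fun f hf hx => h.mv0 (ho w hr.left) he hf h1 hx) ?_ e' he' h2
  intro p q _ hq hpq ih f hf hx
  rw [ih s(p, q) hpq (by simp)]
  exact h.mv0 (ho q hq) hpq hf (by simp) hx

lemma Dual.Pot.mvC {D : Dual G} {a : D.F → ZMod 2} {y : Ch V} (h : D.Pot a y) {e e' : Sym2 V}
    (he : e ∈ G.edgeSet) (he' : e' ∈ G.edgeSet) (hc : Conn G c e e')
    (ho : ∀ w, Ins G c e w → Off w y) : a (D.l e) = a (D.l e') := by
  rcases hc with rfl | ⟨q, hq, x, hx, h1⟩
  · rfl
  · exact h.mvS h1.self (fun w hw => ho w ⟨x, hx, hw⟩) he he' hx hq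

lemma Dual.Pot.mv {D : Dual G} {a : D.F → ZMod 2} {y : Ch V} (h : D.Pot a y)
    (hP : Param G n z c) {e f : Sym2 V} (he : e ∈ G.edgeSet) (hf : f ∈ G.edgeSet)
    (ho : ∀ w, Ins G c e w → Off w y) {lo hi j m : ℤ} (hj : Att G z c e j) (hm : c m ∈ f)
    (h1 : lo ≤ j) (h2 : j ≤ hi) (h3 : lo ≤ m) (h4 : m ≤ hi)
    (h5 : ∀ t, lo ≤ t → t ≤ hi → Off (c t) y) : a (D.l f) = a (D.l e) := by
  obtain ⟨e', k1, k2, k3⟩ := hj
  rw [h.mvC he k1.1 k2 ho]
  have hs : ∀ s t, lo ≤ s → s ≤ t → t ≤ hi →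
      RS G {w | ∃ t, lo ≤ t ∧ t ≤ hi ∧ w = c t} (c s) (c t) := fun s t a1 a2 a3 =>
    RS.seqZ c a2 (fun t _ _ => hP.adj t) (fun t b1 b2 => ⟨t, by omega, by omega, rfl⟩)
  refine h.mvS ((hs lo m le_rfl h3 h4).symm.trans (hs lo j le_rfl h1 h2)) ?_ hf k1.1 hm k3
  rintro _ ⟨t, a1, a2, rfl⟩
  exact h5 t a1 a2

lemma Dual.good (D : Dual G) (hP : Param G n z c) {a : D.F → ZMod 2} (ha : D.Pot a z) :
    GoodCol G n z c (fun e => a (D.l e)) := by
  have h3 := hP.three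
  have b1 : ∀ e e', Ed G z e → Ed G z e' → Conn G c e e' → a (D.l e) = a (D.l e') :=
    fun e e' he he' hc => ha.mvC he.1 he'.1 hc (fun w hw => hP.offz hw.off)
  have core : ∀ (i : ℤ) (u : V) (y : Ch V) (b : D.F → ZMod 2), G.Adj (c i) u →
      Ed G z s(c i, u) → D.Pot b y → At (c i) y (c (i + 1)) u →
      b (D.l s(c i, c (i - 1))) + (b (D.l s(c i, c (i + 1))) + a (D.l s(c i, c (i + 1))))
        + a (D.l s(c i, u)) = 1 := by
    intro i u y b hu hE hb hat
    have := D.d7 (c i) (c (i + 1)) (c (i - 1)) u (hP.adj i) (hP.adj' i) hu (hP.ne2 i)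
      (fun h => hP.nz i (h ▸ hE.2)) (fun h => hP.nz' i (h ▸ hE.2)) y (y + z) b
      (fun f => b f + a f) hb (hb.add ha) hat (fun t => by
        rw [Finsupp.add_apply, hat t, hP.atz i t]; grind)
    grind
  refine ⟨b1, ?_, ?_⟩
  · intro e e' he he' hc i j i' j' h1 h2 h4 h5 ai ai' aj aj'
    have hne : c i ≠ c i' := hP.ne (by omega) (by omega)
    obtain ⟨u, P, p1, p2, p3, p4, p5, p6, p7⟩ : ∃ (u : V) (P : Ch V), G.Adj (c i) u ∧
        Ed G z s(c i, u) ∧ Conn G c e s(c i, u) ∧ OnE G P ∧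
        (∀ w, bd w P = (if w = c i then 1 else 0) + (if w = c i' then 1 else 0)) ∧
        (∀ w, w ≠ c i → w ≠ c i' → ¬ Ins G c e w → Off w P) ∧
        ∀ t, P s(c i, t) = if t = u then 1 else 0 := by
      by_cases hx : ∃ x ∈ e, x ∈ OffC c
      · obtain ⟨x, hx, hx0⟩ := hx
        obtain ⟨u, y, q1, q2, q3, q4, q5, q6, q7⟩ := ai.leg he.1 hx hx0
        obtain ⟨u', y', -, -, -, r4, r5, r6, -⟩ := ai'.leg he.1 hx hx0
        refine ⟨u, y + y', q1, q2, q3, q4.add r4, fun w => ?_, fun w k1 k2 k3 =>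
          (q6 w k1 k3).add (r6 w k2 k3), fun t => ?_⟩
        · rw [map_add, q5, r5]; grind
        · rw [Finsupp.add_apply, q7, r6 (c i) hne (fun h => h.off i rfl) _ (by simp), add_zero]
      · push Not at hx
        have : e = s(c i, c i') := (Sym2.mem_and_mem_iff hne).1 ⟨ai.chord hx, ai'.chord hx⟩
        subst this
        exact ⟨c i', sg s(c i, c i'), he.1, he, Or.inl rfl, onE_sg he.1,
          fun w => bd_sg _ _ _ hne, fun w k1 k2 _ => off_sg k1 k2, fun t => sg_at _ _ _⟩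
    obtain ⟨k, hk⟩ : ∃ k : ℕ, i' = i + k := ⟨(i' - i).toNat, by omega⟩
    obtain ⟨k', hk'⟩ : ∃ k' : ℕ, n = k + k' := ⟨n - k, by omega⟩
    have hz : z = seg c i k + seg c i' k' := by rw [← hP.seg_full i, hk', seg_add, hk]
    have ev : IsEven G (seg c i k + P) := ⟨(seg_onE hP.adj i k).add p4, fun w => by
      rw [map_add, seg_bd hP.adj, p5, ← hk, z2add]⟩
    obtain ⟨b, hb⟩ := D.d4 _ ev
    have hb2 : D.Pot (fun f => b f + a f) (seg c i' k' + P) := by
      have := Dual.Pot.add hb ha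
      rwa [show seg c i k + P + z = seg c i' k' + P by
        rw [hz]; ext f; simp only [Finsupp.add_apply]; grind] at this
    have t := core i u _ b p1 p2 hb (fun t => by
      rw [Finsupp.add_apply, hP.seg_start (by omega) (by omega), p7])
    have oP : ∀ w, Ins G c e' w → Off w P := fun w hw =>
      p6 w (hw.off i) (hw.off i') (fun h => hc (conn_of_ins h hw))
    have oC : ∀ t, c t ≠ c i → c t ≠ c i' → Off (c t) P := fun t k1 k2 =>
      p6 _ k1 k2 (fun h => h.off t rfl)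
    have m1 := Dual.Pot.mv hb hP he'.1 (f := s(c i, c (i - 1))) (hP.adj' i)
      (fun w hw => (off_seg fun t _ _ => hw.off t).add (oP w hw)) (lo := j') (hi := i + n - 1)
      (m := i + n - 1) aj' (by rw [show i + n - 1 = i - 1 + n by ring, hP.per1]; simp)
      le_rfl (by omega) (by omega) le_rfl (fun t k1 k2 =>
        (off_seg fun s k3 k4 => (hP.ne (by omega) (by omega)).symm).add
          (oC t (hP.ne (by omega) (by omega)).symm (hP.ne (by omega) (by omega)).symm))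
    have m2 := Dual.Pot.mv hb2 hP he'.1 (f := s(c i, c (i + 1))) (hP.adj i)
      (fun w hw => (off_seg fun t _ _ => hw.off t).add (oP w hw)) (lo := i + 1) (hi := j)
      (m := i + 1) aj (by simp) (by omega) le_rfl le_rfl (by omega) (fun t k1 k2 =>
        (off_seg fun s k3 k4 => hP.ne (by omega) (by omega)).add
          (oC t (hP.ne (by omega) (by omega)).symm (hP.ne (by omega) (by omega))))
    have m3 := b1 _ _ he p2 p3
    intro hh
    beta_reduce at hh m2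
    have one : (1 : ZMod 2) ≠ 0 := one_ne_zero
    grind
  · intro e e' he he' hc i j k h1 h2 h4 ai aj ak bi bj bk
    have n1 : c i ≠ c j := hP.ne (by omega) (by omega)
    have n2 : c i ≠ c k := hP.ne (by omega) (by omega)
    have n3 : c j ≠ c k := hP.ne (by omega) (by omega)
    obtain ⟨x, hx, hx0⟩ : ∃ x ∈ e, x ∈ OffC c := by
      by_contra hx
      push Not at hx
      have : e = s(c i, c j) := (Sym2.mem_and_mem_iff n1).1 ⟨ai.chord hx, aj.chord hx⟩
      have h5 := ak.chord hx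
      rw [this, Sym2.mem_iff] at h5
      rcases h5 with h5 | h5
      · exact n2 h5.symm
      · exact n3 h5.symm
    obtain ⟨u, y1, p1, p2, p3, p4, p5, p6, p7⟩ := ai.leg he.1 hx hx0
    obtain ⟨-, y2, -, -, -, q4, q5, q6, -⟩ := aj.leg he.1 hx hx0
    obtain ⟨-, y3, -, -, -, r4, r5, r6, -⟩ := ak.leg he.1 hx hx0
    obtain ⟨k1, e1⟩ : ∃ k1 : ℕ, j = i + k1 := ⟨(j - i).toNat, by omega⟩
    obtain ⟨k2, e2⟩ : ∃ k2 : ℕ, k = j + k2 := ⟨(k - j).toNat, by omega⟩
    obtain ⟨k3, e3⟩ : ∃ k3 : ℕ, n = k1 + (k2 + k3) := ⟨n - k1 - k2, by omega⟩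
    have hz : z = seg c i k1 + (seg c j k2 + seg c k k3) := by
      rw [← hP.seg_full i, e3, seg_add, seg_add, ← e1, ← e2]
    have ev1 : IsEven G (seg c i k1 + y1 + y2) :=
      ⟨((seg_onE hP.adj i k1).add p4).add q4, fun w => by
        rw [map_add, map_add, seg_bd hP.adj, p5, q5, ← e1]; grind⟩
    have ev2 : IsEven G (seg c j k2 + y2 + y3) :=
      ⟨((seg_onE hP.adj j k2).add q4).add r4, fun w => by
        rw [map_add, map_add, seg_bd hP.adj, q5, r5, ← e2]; grind⟩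
    obtain ⟨a1, ha1⟩ := D.d4 _ ev1
    obtain ⟨a2, ha2⟩ := D.d4 _ ev2
    have ha3 : D.Pot (fun f => a1 f + a2 f + a f) (seg c k k3 + y3 + y1) := by
      have := Dual.Pot.add (Dual.Pot.add ha1 ha2) ha
      rwa [show seg c i k1 + y1 + y2 + (seg c j k2 + y2 + y3) + z = seg c k k3 + y3 + y1 by
        rw [hz]; ext f; simp only [Finsupp.add_apply]; grind] at this
    have nI : ∀ t, ¬ Ins G c e (c t) := fun t h => h.off t rfl
    have t := core i u _ a1 p1 p2 ha1 (fun t => by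
      rw [Finsupp.add_apply, Finsupp.add_apply, hP.seg_start (by omega) (by omega), p7,
        q6 _ n1 (nI i) _ (by simp), add_zero])
    have nJ : ∀ w, Ins G c e' w → ¬ Ins G c e w := fun w hw h => hc (conn_of_ins h hw)
    have m1 := Dual.Pot.mv ha1 hP he'.1 (f := s(c i, c (i - 1))) (hP.adj' i)
      (fun w hw => ((off_seg fun t _ _ => hw.off t).add (p6 w (hw.off _) (nJ w hw))).add
        (q6 w (hw.off _) (nJ w hw))) (lo := k) (hi := i + n - 1)
      (m := i + n - 1) bk (by rw [show i + n - 1 = i - 1 + n by ring, hP.per1]; simp)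
      le_rfl (by omega) (by omega) le_rfl (fun t k1 k2 =>
        ((off_seg fun s k3 k4 => (hP.ne (by omega) (by omega)).symm).add
          (p6 _ (hP.ne (by omega) (by omega)).symm (nI t))).add
          (q6 _ (hP.ne (by omega) (by omega)).symm (nI t)))
    have m2 := Dual.Pot.mv ha2 hP he'.1 (f := s(c i, c (i + 1))) (hP.adj i)
      (fun w hw => ((off_seg fun t _ _ => hw.off t).add (q6 w (hw.off _) (nJ w hw))).add
        (r6 w (hw.off _) (nJ w hw))) (lo := i) (hi := i)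
      (m := i) bi (by simp) le_rfl le_rfl le_rfl le_rfl (fun t k1 k2 =>
        ((off_seg fun s k3 k4 => hP.ne (by omega) (by omega)).add
          (q6 _ (hP.ne (by omega) (by omega)) (nI t))).add
          (r6 _ (hP.ne (by omega) (by omega)) (nI t)))
    have m3 := Dual.Pot.mv ha3 hP he'.1 (f := s(c i, c (i + 1))) (hP.adj i)
      (fun w hw => ((off_seg fun t _ _ => hw.off t).add (r6 w (hw.off _) (nJ w hw))).add
        (p6 w (hw.off _) (nJ w hw))) (lo := i + 1) (hi := j)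
      (m := i + 1) bj (by simp) (by omega) le_rfl le_rfl (by omega) (fun t k1 k2 =>
        ((off_seg fun s k3 k4 => hP.ne (by omega) (by omega)).add
          (r6 _ (hP.ne (by omega) (by omega)) (nI t))).add
          (p6 _ (hP.ne (by omega) (by omega)).symm (nI t)))
    have m4 := b1 _ _ he p2 p3
    intro hh
    beta_reduce at hh m3
    have one : (1 : ZMod 2) ≠ 0 := one_ne_zero
    grind

end Pool.Agent.H599Z.QT
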