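import Mathlib

set_option autoImplicit false

namespace Pool.Agent.H599Z.QT

open SimpleGraph
open scoped Classical

variable {V W : Type}

abbrev Ch (V : Type) := Sym2 V →₀ ZMod 2

lemma z2 (a : ZMod 2) : a = 0 ∨ a = 1 := by revert a; decide

lemma z2add (a : ZMod 2) : a + a = 0 := CharTwo.add_self_eq_zero a

lemma z2ne {a : ZMod 2} (h : a ≠ 0) : a = 1 := (z2 a).resolve_left h

lemma chadd (z : Ch V) : z + z = 0 := by ext e; simp [z2add]

lemma ch_ext {y z : Ch V} (h : ∀ e, y e ≠ 0 ↔ z e ≠ 0) : y = z := by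
  ext e
  have := h e
  rcases z2 (y e) with h1 | h1 <;> rcases z2 (z e) with h2 | h2 <;> simp_all

noncomputable def sg (e : Sym2 V) : Ch V := Finsupp.single e 1

lemma sg_apply (e f : Sym2 V) : sg e f = if e = f then 1 else 0 := by
  simp [sg, Finsupp.single_apply]

noncomputable def bd (v : V) : Ch V →ₗ[ZMod 2] ZMod 2 :=
  Finsupp.linearCombination (ZMod 2) (fun e => if v ∈ e then 1 else 0)

lemma bd_sg' (v : V) (e : Sym2 V) : bd v (sg e) = if v ∈ e then 1 else 0 := by
  simp [bd, sg]

lemma bd_sg (v a b : V) (h : a ≠ b) :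
    bd v (sg s(a, b)) = (if v = a then 1 else 0) + (if v = b then 1 else 0) := by
  rw [bd_sg']
  by_cases h1 : v = a <;> by_cases h2 : v = b
  · exact absurd (h1.symm.trans h2) h
  all_goals simp_all

lemma bd_eq (v : V) (z : Ch V) (F : Finset (Sym2 V)) (hF : ∀ e, z e ≠ 0 → v ∈ e → e ∈ F)
    (hv : ∀ e ∈ F, v ∈ e) : bd v z = ∑ e ∈ F, z e := by
  rw [bd, Finsupp.linearCombination_apply, Finsupp.sum]
  have h1 : ∑ e ∈ z.support, z e • (if v ∈ e then (1 : ZMod 2) else 0)
      = ∑ e ∈ z.support.filter (fun e => v ∈ e), z e := by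
    rw [Finset.sum_filter]
    refine Finset.sum_congr rfl fun e _ => ?_
    split_ifs <;> simp
  rw [h1]
  apply Finset.sum_subset
  · intro e he
    rw [Finset.mem_filter, Finsupp.mem_support_iff] at he
    exact hF e he.1 he.2
  · intro e he hn
    by_contra h0
    exact hn (Finset.mem_filter.2 ⟨Finsupp.mem_support_iff.2 h0, hv e he⟩)

lemma bd_zero (v : V) (z : Ch V) (h : ∀ e, v ∈ e → z e = 0) : bd v z = 0 := by
  rw [bd_eq v z ∅ (fun e h1 h2 => absurd (h e h2) h1) (by simp)]; simp

variable {G : SimpleGraph V} {G' : SimpleGraph W}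

noncomputable def wv : ∀ {u v : V}, G.Walk u v → Ch V
  | _, _, Walk.nil => 0
  | u, _, Walk.cons (v := v) _ p => sg s(u, v) + wv p

@[simp] lemma wv_nil {u : V} : wv (Walk.nil : G.Walk u u) = 0 := rfl

@[simp] lemma wv_cons {u v w : V} (h : G.Adj u v) (p : G.Walk v w) :
    wv (Walk.cons h p) = sg s(u, v) + wv p := rfl

lemma wv_append {u v w : V} (p : G.Walk u v) (q : G.Walk v w) :
    wv (p.append q) = wv p + wv q := by
  induction p with
  | nil => simp
  | cons h p ih => simp [ih, add_assoc]

lemma wv_reverse {u v : V} (p : G.Walk u v) : wv p.reverse = wv p := by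
  induction p with
  | nil => simp
  | cons h p ih =>
    rw [Walk.reverse_cons, wv_append, ih, wv_cons, wv_cons, wv_nil, add_zero, add_comm,
      Sym2.eq_swap]

lemma bd_wv (x : V) {u v : V} (p : G.Walk u v) :
    bd x (wv p) = (if x = u then 1 else 0) + (if x = v then 1 else 0) := by
  induction p with
  | nil => simp [z2add]
  | cons h p ih =>
    rw [wv_cons, map_add, ih, bd_sg _ _ _ h.ne]
    generalize (if x = _ then (1 : ZMod 2) else 0) = a
    generalize (if x = _ then (1 : ZMod 2) else 0) = b
    generalize (if x = _ then (1 : ZMod 2) else 0) = c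
    revert a b c; decide

lemma wv_ne {u v : V} (p : G.Walk u v) {e : Sym2 V} (h : wv p e ≠ 0) : e ∈ p.edges := by
  induction p with
  | nil => simp at h
  | cons h' p ih =>
    rw [wv_cons, Finsupp.add_apply, sg_apply] at h
    rw [Walk.edges_cons, List.mem_cons]
    by_cases h1 : wv p e = 0
    · left
      by_contra h2
      rw [if_neg (fun h3 => h2 h3.symm), h1] at h
      simp at h
    · exact Or.inr (ih h1)

lemma wv_trail {u v : V} (p : G.Walk u v) (hp : p.edges.Nodup) {e : Sym2 V} (h : e ∈ p.edges) :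
    wv p e = 1 := by
  induction p with
  | nil => simp at h
  | cons h' p ih =>
    rw [Walk.edges_cons, List.nodup_cons] at hp
    rw [Walk.edges_cons, List.mem_cons] at h
    rw [wv_cons, Finsupp.add_apply, sg_apply]
    rcases h with h | h
    · rw [if_pos h.symm]
      have : wv p e = 0 := by
        by_contra h0
        exact hp.1 (h ▸ wv_ne p h0)
      simp [this]
    · rw [if_neg (fun h3 => hp.1 (by rw [h3]; exact h)), ih hp.2 h]; simp

lemma wv_supp {u v : V} (p : G.Walk u v) {e : Sym2 V} (h : wv p e ≠ 0) {x : V} (hx : x ∈ e) :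
    x ∈ p.support := by
  have := wv_ne p h
  induction e using Sym2.ind with
  | _ a b =>
    rcases Sym2.mem_iff.1 hx with rfl | rfl
    · exact p.fst_mem_support_of_mem_edges this
    · exact p.snd_mem_support_of_mem_edges this

lemma wv_edge {u v : V} (p : G.Walk u v) {e : Sym2 V} (h : wv p e ≠ 0) : e ∈ G.edgeSet :=
  p.edges_subset_edgeSet (wv_ne p h)

/-- supported on edges -/
def OnE (G : SimpleGraph V) (z : Ch V) : Prop := ∀ e, z e ≠ 0 → e ∈ G.edgeSet

lemma OnE.add {y z : Ch V} (hy : OnE G y) (hz : OnE G z) : OnE G (y + z) := by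
  intro e he
  by_cases h : y e = 0
  · apply hz; simpa [h] using he
  · exact hy e h

lemma onE_zero : OnE G 0 := fun e he => by simp at he

lemma onE_sg {e : Sym2 V} (h : e ∈ G.edgeSet) : OnE G (sg e) := by
  intro f hf
  rw [sg_apply] at hf
  by_cases h1 : e = f
  · exact h1 ▸ h
  · simp [h1] at hf

lemma onE_wv {u v : V} (p : G.Walk u v) : OnE G (wv p) := fun _ h => wv_edge p h

def IsEven (G : SimpleGraph V) (z : Ch V) : Prop := OnE G z ∧ ∀ v, bd v z = 0

lemma IsEven.add {y z : Ch V} (hy : IsEven G y) (hz : IsEven G z) : IsEven G (y + z) :=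
  ⟨hy.1.add hz.1, fun v => by rw [map_add, hy.2, hz.2, add_zero]⟩

lemma isEven_zero : IsEven G 0 := ⟨onE_zero, fun v => by simp⟩

lemma IsEven.smul {z : Ch V} (hz : IsEven G z) (a : ZMod 2) : IsEven G (a • z) := by
  rcases z2 a with rfl | rfl
  · simpa using isEven_zero
  · simpa using hz

lemma IsEven.sum {ι : Type} (s : Finset ι) (f : ι → Ch V) (h : ∀ i ∈ s, IsEven G (f i)) :
    IsEven G (∑ i ∈ s, f i) := by
  induction s using Finset.induction_on with
  | empty => simpa using isEven_zero
  | insert a s ha ih =>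
    rw [Finset.sum_insert ha]
    exact (h a (by simp)).add (ih fun i hi => h i (by simp [hi]))

lemma isEven_wv {u : V} (p : G.Walk u u) : IsEven G (wv p) :=
  ⟨onE_wv p, fun v => by rw [bd_wv, z2add]⟩

noncomputable def Short (G : SimpleGraph V) (L : ℕ) : Submodule (ZMod 2) (Ch V) :=
  Submodule.span (ZMod 2) {z | ∃ (v : V) (p : G.Walk v v), p.length ≤ L ∧ z = wv p}

lemma Short.mono {L L' : ℕ} (h : L ≤ L') : Short G L ≤ Short G L' :=
  Submodule.span_mono fun _ ⟨v, p, h1, h2⟩ => ⟨v, p, h1.trans h, h2⟩

lemma wv_short {L : ℕ} {v : V} (p : G.Walk v v) (h : p.length ≤ L) : wv p ∈ Short G L :=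
  Submodule.subset_span ⟨v, p, h, rfl⟩

def Gen (G : SimpleGraph V) (L : ℕ) : Prop := ∀ z, IsEven G z → z ∈ Short G L

lemma IsEven.other {z : Ch V} (hz : IsEven G z) {e : Sym2 V} (he : z e ≠ 0) {b : V}
    (hb : b ∈ e) : ∃ f, f ≠ e ∧ z f ≠ 0 ∧ b ∈ f := by
  by_contra hn
  push Not at hn
  have := bd_eq b z {e} (fun f h1 h2 => by
    by_contra h3
    exact hn f (by simpa using h3) h1 h2) (by simpa using hb)
  rw [hz.2, Finset.sum_singleton] at this
  exact he this.symm

lemma exists_cycle {z : Ch V} (hz : IsEven G z) (h0 : z ≠ 0) :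
    ∃ (v : V) (p : G.Walk v v), p.IsCycle ∧ ∀ e ∈ p.edges, z e ≠ 0 := by
  let G1 : SimpleGraph V := fromEdgeSet {e | z e ≠ 0}
  have hadj : ∀ a b, G1.Adj a b ↔ z s(a, b) ≠ 0 := by
    intro a b
    simp only [G1, fromEdgeSet_adj, Set.mem_ofPred_eq]
    exact ⟨fun h => h.1, fun h => ⟨h, (hz.1 _ h).ne⟩⟩
  have hE : ∀ e ∈ G1.edgeSet, z e ≠ 0 := by
    intro e he
    induction e using Sym2.ind with
    | _ a b => exact (hadj a b).1 he
  have hle : G1 ≤ G := fun a b h => hz.1 _ ((hadj a b).1 h)
  by_cases hac : G1.IsAcyclic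
  · exfalso
    have hb : ∀ {a b : V} (p : G1.Walk a b), p.IsPath → p.length ≤ z.support.card := by
      intro a b p hp
      rw [← p.length_edges, ← List.toFinset_card_of_nodup hp.isTrail.edges_nodup]
      apply Finset.card_le_card
      intro e he
      exact Finsupp.mem_support_iff.2 (hE e (p.edges_subset_edgeSet (List.mem_toFinset.1 he)))
    have key : ∀ n : ℕ, ∃ (a b : V) (p : G1.Walk a b), p.IsPath ∧ p.length = n + 1 := by
      intro n
      induction n with
      | zero =>
        obtain ⟨e, he⟩ : ∃ e, z e ≠ 0 := by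
          by_contra hn
          push Not at hn
          exact h0 (Finsupp.ext hn)
        induction e using Sym2.ind with
        | _ a b =>
          have h1 := (hadj a b).2 he
          exact ⟨a, b, Walk.cons h1 Walk.nil, by simp [h1.ne], rfl⟩
      | succ n ih =>
        obtain ⟨a, b, p, hp, hl⟩ := ih
        have hnil : ¬ p.Nil := by
          rw [← Walk.length_eq_zero_iff]; omega
        have h1 := p.adj_snd hnil
        obtain ⟨f, hf1, hf2, hf3⟩ := hz.other ((hadj _ _).1 h1) (Sym2.mem_mk_left a p.snd)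
        obtain ⟨w, rfl⟩ := Sym2.mem_iff_exists.1 hf3
        have h2 := (hadj _ _).2 hf2
        have h3 : w ∉ p.support := by
          intro h3
          exact hf1 (by rw [hac.eq_snd_of_adj_start hp h2 h3])
        exact ⟨w, b, Walk.cons h2.symm p, (Walk.cons_isPath_iff _ _).2 ⟨hp, h3⟩, by simp [hl]⟩
    obtain ⟨a, b, p, hp, hl⟩ := key z.support.card
    have := hb p hp
    omega
  · unfold IsAcyclic at hac
    push Not at hac
    obtain ⟨v, p, hp⟩ := hac
    refine ⟨v, p.mapLe hle, hp.mapLe hle, ?_⟩
    intro e he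
    rw [Walk.edges_mapLe_eq_edges] at he
    exact hE e (p.edges_subset_edgeSet he)

lemma card_split {z : Ch V} {v : V} (p : G.Walk v v) (hp : p.IsCycle)
    (h : ∀ e ∈ p.edges, z e ≠ 0) : (z + wv p).support.card + p.length = z.support.card := by
  have hn := hp.isTrail.edges_nodup
  have h1 : (z + wv p).support = z.support \ p.edges.toFinset := by
    ext e
    simp only [Finsupp.mem_support_iff, Finsupp.add_apply, Finset.mem_sdiff, List.mem_toFinset]
    by_cases he : e ∈ p.edges
    · rw [wv_trail p hn he, z2ne (h e he)]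
      simp [he, z2add]
    · have : wv p e = 0 := by
        by_contra h0; exact he (wv_ne p h0)
      simp [he, this]
  rw [h1, ← p.length_edges, ← List.toFinset_card_of_nodup hn]
  apply Finset.card_sdiff_add_card_eq_card
  intro e he
  exact Finsupp.mem_support_iff.2 (h e (List.mem_toFinset.1 he))

lemma even_short (m : ℕ) : ∀ z : Ch V, IsEven G z → z.support.card ≤ m → z ∈ Short G m := by
  induction m with
  | zero =>
    intro z _ h
    have : z = 0 := by simpa using h
    simp [this]
  | succ m ih =>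
    intro z hz h
    by_cases h0 : z = 0
    · simp [h0]
    obtain ⟨v, p, hp, he⟩ := exists_cycle hz h0
    have h1 := card_split p hp he
    have h2 := hp.three_le_length
    have h3 : z = (z + wv p) + wv p := by rw [add_assoc, chadd, add_zero]
    rw [h3]
    exact add_mem (Short.mono (Nat.le_succ m) (ih _ (hz.add (isEven_wv p)) (by omega)))
      (wv_short p (by omega))

/-- an even chain with n edges that is not a sum of shorter closed walks -/
structure Irr (G : SimpleGraph V) (n : ℕ) (z : Ch V) : Prop where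
  even : IsEven G z
  card : z.support.card = n
  new : z ∉ Short G (n - 1)

lemma Irr.ne {n : ℕ} {z : Ch V} (h : Irr G n z) : z ≠ 0 := by
  intro h0
  exact h.new (h0 ▸ zero_mem _)

lemma Irr.min {n : ℕ} {z y : Ch V} (h : Irr G n z) (hy : IsEven G y)
    (hs : ∀ e, y e ≠ 0 → z e ≠ 0) : y = 0 ∨ y = z := by
  by_contra hn
  push Not at hn
  have hsub : y.support ⊆ z.support := fun e he =>
    Finsupp.mem_support_iff.2 (hs e (Finsupp.mem_support_iff.1 he))
  have h1 : y.support.card < n := by
    rw [← h.card]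
    apply Finset.card_lt_card
    refine ⟨hsub, fun h2 => hn.2 (ch_ext fun e => ⟨hs e, fun h3 => ?_⟩)⟩
    exact Finsupp.mem_support_iff.1 (h2 (Finsupp.mem_support_iff.2 h3))
  have h2 : (z + y).support.card < n := by
    rw [← h.card]
    apply Finset.card_lt_card
    obtain ⟨e, he⟩ : ∃ e, y e ≠ 0 := by
      by_contra h3
      push Not at h3
      exact hn.1 (Finsupp.ext h3)
    constructor
    · intro f hf
      rw [Finsupp.mem_support_iff] at hf ⊢
      intro h4
      have : y f = 0 := by
        by_contra h5; exact hs f h5 h4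
      simp [h4, this] at hf
    · intro h3
      have := Finsupp.mem_support_iff.1 (h3 (Finsupp.mem_support_iff.2 (hs e he)))
      rw [Finsupp.add_apply, z2ne he, z2ne (hs e he)] at this
      exact this (z2add 1)
  apply h.new
  have h3 : z = (z + y) + y := by rw [add_assoc, chadd, add_zero]
  rw [h3]
  exact add_mem (even_short _ _ (h.even.add hy) (by omega)) (even_short _ _ hy (by omega))

lemma exists_irr (h : ∀ L, ¬ Gen G L) (L : ℕ) : ∃ n z, L < n ∧ Irr G n z := by
  have := h L
  unfold Gen at this
  push Not at this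
  have h1 : ∃ n, ∃ z, IsEven G z ∧ z ∉ Short G L ∧ z.support.card = n := by
    obtain ⟨z, h1, h2⟩ := this
    exact ⟨_, z, h1, h2, rfl⟩
  obtain ⟨z, hz, hn, hc⟩ := Nat.find_spec h1
  have hL : L < Nat.find h1 := by
    by_contra h2
    exact hn (Short.mono (by omega) (even_short _ z hz hc.le))
  refine ⟨Nat.find h1, z, hL, hz, hc, fun h2 => hn ?_⟩
  refine (Submodule.span_le.2 ?_ : Short G (Nat.find h1 - 1) ≤ Short G L) h2
  rintro y ⟨v, p, hp, rfl⟩
  by_contra h3
  have h4 : (wv p).support.card ≤ p.length := by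
    rw [← p.length_edges]
    refine le_trans (Finset.card_le_card ?_) (List.toFinset_card_le p.edges)
    intro e he
    exact List.mem_toFinset.2 (wv_ne p (Finsupp.mem_support_iff.1 he))
  exact Nat.find_min h1 (m := (wv p).support.card) (by omega) ⟨wv p, isEven_wv p, h3, rfl⟩

/-- periodic parametrisation of a cycle -/
structure Param (G : SimpleGraph V) (n : ℕ) (z : Ch V) (c : ℤ → V) : Prop where
  three : 3 ≤ n
  inj : ∀ i j, c i = c j ↔ (n : ℤ) ∣ i - j
  adj : ∀ i, G.Adj (c i) (c (i + 1))
  mem : ∀ e, z e ≠ 0 ↔ ∃ i, e = s(c i, c (i + 1))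

lemma Irr.param {n : ℕ} {z : Ch V} (h : Irr G n z) : ∃ c, Param G n z c := by
  obtain ⟨v, p, hp, he⟩ := exists_cycle h.even h.ne
  have hn := hp.isTrail.edges_nodup
  have h3 := hp.three_le_length
  have hz : wv p = z := by
    refine (h.min (isEven_wv p) fun e h1 => he e (wv_ne p h1)).resolve_left fun h0 => ?_
    have : p.edges ≠ [] := by
      intro h1
      have := p.length_edges
      rw [h1] at this
      simp at this; omega
    obtain ⟨e, he1⟩ := List.exists_mem_of_ne_nil _ this
    have := wv_trail p hn he1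
    rw [h0] at this
    simp at this
  have hl : p.length = n := by
    have := card_split p hp he
    rw [hz, chadd, h.card] at this
    simpa using this
  have hn0 : (0 : ℤ) < n := by omega
  have hlt : ∀ i : ℤ, (i % n).toNat < n := fun i => by
    have := Int.emod_lt_of_pos i hn0
    have := Int.emod_nonneg i hn0.ne'
    omega
  have hsucc : ∀ i : ℤ, p.getVert (((i + 1) % n).toNat) = p.getVert ((i % n).toNat + 1) := by
    intro i
    have h1 := Int.emod_lt_of_pos i hn0
    have h2 := Int.emod_nonneg i hn0.ne'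
    have h4 : (i + 1) % n = (i % n + 1) % n := by simp
    by_cases h5 : i % n + 1 < n
    · rw [h4, Int.emod_eq_of_lt (by omega) h5]
      congr 1; omega
    · have h6 : i % n + 1 = n := by omega
      rw [h4, h6, Int.emod_self]
      have : (i % n).toNat + 1 = p.length := by omega
      rw [this]; simp
  refine ⟨fun i => p.getVert (i % n).toNat, by omega, fun i j => ?_, fun i => ?_, fun e => ?_⟩
  · constructor
    · intro h1
      have := hp.getVert_injOn' (by have := hlt i; simp; omega) (by have := hlt j; simp; omega) h1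
      have h2 := Int.emod_nonneg i hn0.ne'
      have h4 := Int.emod_nonneg j hn0.ne'
      exact Int.ModEq.dvd (by unfold Int.ModEq; omega : j ≡ i [ZMOD n])
    · intro h1
      have : i % n = j % n := (Int.modEq_of_dvd h1).symm
      simp only [this]
  · simp only [hsucc]
    exact p.adj_getVert_succ (by have := hlt i; omega)
  · simp only [hsucc]
    rw [← hz]
    induction e using Sym2.ind with
    | _ a b =>
      constructor
      · intro h1
        obtain ⟨i, hi, h2⟩ := (p.mk_mem_edges_iff_exists).1 (wv_ne p h1)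
        refine ⟨i, ?_⟩
        rw [Int.emod_eq_of_lt (by omega) (by omega)]
        simpa using h2.symm
      · rintro ⟨i, hi⟩
        rw [wv_trail p hn ((p.mk_mem_edges_iff_exists).2 ⟨_, by have := hlt i; omega, hi.symm⟩)]
        exact one_ne_zero

end Pool.Agent.H599Z.QT
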