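import Pool.Agent.H599Z.QT.Whitney

set_option autoImplicit false

namespace Pool.Agent.H599Z.QT

open SimpleGraph
open scoped Classical

variable {V : Type} {G : SimpleGraph V}

def Four {F : Type} (a b : F → ZMod 2) : Prop := ∀ s t : ZMod 2, ∃ f, a f = s ∧ b f = t

lemma Four.symm {F : Type} {a b : F → ZMod 2} (h : Four a b) : Four b a := fun s t => by
  obtain ⟨f, h1, h2⟩ := h t s
  exact ⟨f, h2, h1⟩

def cor {F : Type} (a b : F → ZMod 2) (s t : ZMod 2) : F → ZMod 2 :=
  fun f => (a f + s + 1) * (b f + t + 1)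

lemma z2succ {a s : ZMod 2} (h : a ≠ s) : a = s + 1 := by revert a s; decide

lemma z2ns (s : ZMod 2) : s + 1 ≠ s := by revert s; decide

lemma cor_one {F : Type} {a b : F → ZMod 2} {s t : ZMod 2} {f : F} :
    cor a b s t f = 1 ↔ a f = s ∧ b f = t := by
  unfold cor
  generalize a f = x
  generalize b f = y
  revert x y s t; decide

lemma four_cor1 {F : Type} {a b d : F → ZMod 2} {s t : ZMod 2} (h : Four a b)
    (h1 : Four d (cor a b s t)) : Four d a ∨ Four d b := by
  by_contra hn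
  simp only [Four, not_or, not_forall, not_exists, not_and] at hn
  obtain ⟨⟨u, v, k1⟩, ⟨u', v', k2⟩⟩ := hn
  have e1 : v = s + 1 := z2succ fun h2 => by
    obtain ⟨f, f1, f2⟩ := h1 u 1
    exact k1 f f1 (h2 ▸ (cor_one.1 f2).1)
  have e2 : v' = t + 1 := z2succ fun h2 => by
    obtain ⟨f, f1, f2⟩ := h1 u' 1
    exact k2 f f1 (h2 ▸ (cor_one.1 f2).2)
  subst e1 e2
  by_cases huu : u = u'
  · subst huu
    obtain ⟨f, f1, f2⟩ := h1 u 0
    have a1 : a f = s := by
      by_contra h2; exact k1 f f1 (z2succ h2)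
    have a2 : b f = t := by
      by_contra h2; exact k2 f f1 (z2succ h2)
    rw [cor_one.2 ⟨a1, a2⟩] at f2
    exact one_ne_zero f2
  · obtain ⟨f, f1, f2⟩ := h (s + 1) (t + 1)
    by_cases h2 : d f = u
    · exact k1 f h2 f1
    · exact k2 f (by rw [z2succ h2, z2succ (Ne.symm huu)]) f2

lemma four_cor2 {F : Type} {a b d : F → ZMod 2} {s t : ZMod 2} (h1 : Four d (cor a b s t))
    (h2 : Four d (cor a b (s + 1) (t + 1))) : Four d a ∧ Four d b := by
  constructor
  · intro u v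
    by_cases h : v = s
    · obtain ⟨f, f1, f2⟩ := h1 u 1
      exact ⟨f, f1, h ▸ (cor_one.1 f2).1⟩
    · obtain ⟨f, f1, f2⟩ := h2 u 1
      exact ⟨f, f1, (z2succ h) ▸ (cor_one.1 f2).1⟩
  · intro u v
    by_cases h : v = t
    · obtain ⟨f, f1, f2⟩ := h1 u 1
      exact ⟨f, f1, h ▸ (cor_one.1 f2).2⟩
    · obtain ⟨f, f1, f2⟩ := h2 u 1
      exact ⟨f, f1, (z2succ h) ▸ (cor_one.1 f2).2⟩

lemma four_cor3 {F : Type} {a b : F → ZMod 2} {s t : ZMod 2} : ¬ Four a (cor a b s t) := by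
  intro h
  obtain ⟨f, f1, f2⟩ := h (s + 1) 1
  exact z2ns s (f1.symm.trans (cor_one.1 f2).1)

variable {D : Dual G}

lemma Dual.Pot.uniq {a a' : D.F → ZMod 2} {z : Ch V} (h : D.Pot a z) (h' : D.Pot a' z) :
    ∃ k, ∀ f, a' f = a f + k := by
  have := D.d3 (fun f => a f + a' f) (fun e => by
    have h1 := h e
    have h2 := h' e
    grind)
  by_cases hF : Nonempty D.F
  · obtain ⟨f0⟩ := hF
    refine ⟨a f0 + a' f0, fun f => ?_⟩
    have := this f f0
    grind
  · exact ⟨0, fun f => absurd ⟨f⟩ hF⟩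

lemma Dual.Pot.shift {a : D.F → ZMod 2} {z : Ch V} (h : D.Pot a z) (k : ZMod 2) :
    D.Pot (fun f => a f + k) z := fun e => by
  have := h e
  grind

lemma Dual.Pot.even {a : D.F → ZMod 2} {z : Ch V} (h : D.Pot a z) : IsEven G z := D.d2 a z h

lemma Dual.Pot.corner {a b : D.F → ZMod 2} {z y : Ch V} (h : D.Pot a z) (h' : D.Pot b y) :
    ∃ dl : ZMod 2 → ZMod 2 → Ch V, (∀ s t, D.Pot (cor a b s t) (dl s t)) ∧
      (∀ s, dl s 0 + dl s 1 = z) ∧ (∀ t, dl 0 t + dl 1 t = y) ∧
      ∀ s t, (dl s t).support.card + (dl (s + 1) (t + 1)).support.card ≤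
        z.support.card + y.support.card := by
  have sub : ∀ s t e, cor a b s t (D.l e) + cor a b s t (D.r e) ≠ 0 →
      e ∈ z.support ∪ y.support := by
    intro s t e he
    rw [Finset.mem_union, Finsupp.mem_support_iff, Finsupp.mem_support_iff, h e, h' e]
    by_contra hn
    push Not at hn
    apply he
    unfold cor
    rw [z2eq.1 hn.1, z2eq.1 hn.2, z2add]
  let dl : ZMod 2 → ZMod 2 → Ch V := fun s t => Finsupp.onFinset _ _ (sub s t)
  have hdl : ∀ s t e, dl s t e = cor a b s t (D.l e) + cor a b s t (D.r e) := fun s t e => rfl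
  refine ⟨dl, hdl, fun s => ?_, fun t => ?_, fun s t => ?_⟩
  · ext e
    rw [Finsupp.add_apply, hdl, hdl, h e]
    unfold cor
    generalize a (D.l e) = x1
    generalize a (D.r e) = x2
    generalize b (D.l e) = x3
    generalize b (D.r e) = x4
    revert x1 x2 x3 x4 s
    decide
  · ext e
    rw [Finsupp.add_apply, hdl, hdl, h' e]
    unfold cor
    generalize a (D.l e) = x1
    generalize a (D.r e) = x2
    generalize b (D.l e) = x3
    generalize b (D.r e) = x4
    revert x1 x2 x3 x4 t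
    decide
  · have cs : ∀ x : Ch V, x.support ⊆ z.support ∪ y.support → x.support.card =
        ∑ e ∈ z.support ∪ y.support, (x e).val := by
      intro x hx
      have : ∀ e, (x e).val = if x e ≠ 0 then 1 else 0 := fun e => by
        rcases z2 (x e) with h | h <;> rw [h] <;> rfl
      simp only [this]
      rw [← Finset.card_filter]
      congr 1
      ext e
      simp only [Finset.mem_filter, ← Finsupp.mem_support_iff]
      exact ⟨fun h => ⟨hx h, h⟩, fun h => h.2⟩
    rw [cs _ Finsupp.support_onFinset_subset, cs _ Finsupp.support_onFinset_subset,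
      cs z Finset.subset_union_left, cs y Finset.subset_union_right, ← Finset.sum_add_distrib,
      ← Finset.sum_add_distrib]
    refine Finset.sum_le_sum fun e _ => ?_
    rw [hdl, hdl, h e, h' e]
    unfold cor
    generalize a (D.l e) = x1
    generalize a (D.r e) = x2
    generalize b (D.l e) = x3
    generalize b (D.r e) = x4
    revert x1 x2 x3 x4 s t
    decide

def Cross (D : Dual G) (z y : Ch V) : Prop := ∃ a b, D.Pot a z ∧ D.Pot b y ∧ Four a b

lemma Cross.symm {z y : Ch V} (h : Cross D z y) : Cross D y z := by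
  obtain ⟨a, b, h1, h2, h3⟩ := h
  exact ⟨b, a, h2, h1, h3.symm⟩

lemma Cross.four {z y : Ch V} (h : Cross D z y) {a b : D.F → ZMod 2} (ha : D.Pot a z)
    (hb : D.Pot b y) : Four a b := by
  obtain ⟨a', b', h1, h2, h3⟩ := h
  obtain ⟨k, hk⟩ := h1.uniq ha
  obtain ⟨k', hk'⟩ := h2.uniq hb
  intro s t
  obtain ⟨f, f1, f2⟩ := h3 (s + k) (t + k')
  refine ⟨f, ?_, ?_⟩
  · rw [hk, f1]; grind
  · rw [hk', f2]; grind

lemma not_cross_self (z : Ch V) : ¬ Cross D z z := by
  intro h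
  obtain ⟨a, -, h1, -⟩ := id h
  obtain ⟨f, f1, f2⟩ := h.four h1 h1 0 1
  exact zero_ne_one (f1.symm.trans f2)

lemma four_of_edges {a b : D.F → ZMod 2} {z y : Ch V} (ha : D.Pot a z) (hb : D.Pot b y)
    {e e' : Sym2 V} (h1 : y e ≠ 0) (h2 : z e = 0) (h3 : y e' ≠ 0) (h4 : z e' = 0)
    (h5 : a (D.l e) ≠ a (D.l e')) : Four a b := by
  have key : ∀ e, y e ≠ 0 → z e = 0 → ∀ t, ∃ f, a f = a (D.l e) ∧ b f = t := by
    intro e k1 k2 t
    rw [ha e] at k2
    rw [hb e] at k1
    by_cases h : b (D.l e) = t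
    · exact ⟨_, rfl, h⟩
    · refine ⟨D.r e, (z2eq.1 k2).symm, ?_⟩
      revert k1 h
      generalize b (D.l e) = x1
      generalize b (D.r e) = x2
      revert x1 x2 t; decide
  intro s t
  by_cases h : a (D.l e) = s
  · exact h ▸ key e h1 h2 t
  · have : a (D.l e') = s := by
      revert h h5
      generalize a (D.l e) = x1
      generalize a (D.l e') = x2
      revert x1 x2 s; decide
    exact this ▸ key e' h3 h4 t

lemma edges_of_four {n : ℕ} {a b : D.F → ZMod 2} {z y : Ch V} (hz : Irr G n z) (ha : D.Pot a z)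
    (hb : D.Pot b y) (h : Four a b) (s : ZMod 2) :
    ∃ e, y e ≠ 0 ∧ z e = 0 ∧ a (D.l e) = s := by
  by_contra hn
  push Not at hn
  obtain ⟨dl, h1, h2, -, -⟩ := ha.corner hb
  have k : ∀ t, dl s t ≠ 0 := by
    intro t h0
    have := D.d3 (cor a b s t) (fun e => z2eq.1 (by rw [← h1 s t e, h0]; rfl))
    obtain ⟨f, f1⟩ := h s t
    obtain ⟨f', f2, -⟩ := h (s + 1) t
    have h3 := this f f'
    rw [cor_one.2 f1] at h3
    exact z2ns s (f2.symm.trans (cor_one.1 h3.symm).1)
  rcases hz.min (h1 s 0).even (fun e he h0 => by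
    apply he
    rw [h1 s 0 e]
    have k1 := hn e
    rw [hb e] at k1
    have k2 := k1
    rw [h0] at k2
    rw [ha e] at h0
    unfold cor
    rw [← z2eq.1 h0]
    by_cases h3 : a (D.l e) = s
    · have : b (D.l e) + b (D.r e) = 0 := by
        by_contra h4
        exact k2 h4 rfl h3
      rw [z2eq.1 this, z2add]
    · rw [z2succ h3]; grind) with h3 | h3
  · exact k 0 h3
  · apply k 1
    have := h2 s
    rw [h3] at this
    simpa using this

lemma Cross.map (h3 : ThreeConn G) {n : ℕ} {z y : Ch V} (hz : Irr G n z) (h : Cross D z y)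
    (g : G ≃g G) : Cross D (cm g z) (cm g y) := by
  obtain ⟨a, b, ha, hb, hf⟩ := h
  obtain ⟨e, e1, e2, e3⟩ := edges_of_four hz ha hb hf 0
  obtain ⟨e', e1', e2', e3'⟩ := edges_of_four hz ha hb hf 1
  obtain ⟨a', ha'⟩ := D.d4 _ (ha.even.cm g)
  obtain ⟨b', hb'⟩ := D.d4 _ (hb.even.cm g)
  refine ⟨a', b', ha', hb', four_of_edges ha' hb' (e := Sym2.map g e) (e' := Sym2.map g e')
    (by rwa [cm_apply g.injective]) (by rwa [cm_apply g.injective])
    (by rwa [cm_apply g.injective]) (by rwa [cm_apply g.injective]) ?_⟩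
  exact D.inv h3 hz g ha ha' ⟨hb.even.1 e e1, e2⟩ ⟨hb.even.1 e' e1', e2'⟩
    (by rw [e3, e3']; exact zero_ne_one)

lemma even_filter {y : Ch V} (hy : IsEven G y) (P : Sym2 V → Prop)
    (h : ∀ w e e', w ∈ e → w ∈ e' → y e ≠ 0 → y e' ≠ 0 → P e → P e') :
    IsEven G (y.filter P) := by
  refine ⟨fun e he => hy.1 e fun h0 => he (by simp [Finsupp.filter_apply, h0]), fun w => ?_⟩
  by_cases hw : ∃ e, w ∈ e ∧ y e ≠ 0 ∧ P e
  · obtain ⟨e, e1, e2, e3⟩ := hw
    have : bd w (y.filter P + y) = 0 := bd_zero _ _ fun f hf => by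
      rw [Finsupp.add_apply, Finsupp.filter_apply]
      by_cases h0 : y f = 0
      · simp [h0]
      · rw [if_pos (h w e f e1 hf e2 h0 e3), z2add]
    rwa [map_add, hy.2, add_zero] at this
  · push Not at hw
    refine bd_zero _ _ fun f hf => ?_
    rw [Finsupp.filter_apply]
    split_ifs with h1
    · by_contra h0; exact hw f hf h0 h1
    · rfl

lemma Cross.share {n m : ℕ} {z y : Ch V} (hz : Irr G n z) (hy : Irr G m y) (h : Cross D z y) :
    ∃ w, (∃ e, z e ≠ 0 ∧ w ∈ e) ∧ ∃ e, y e ≠ 0 ∧ w ∈ e := by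
  by_contra hn
  push Not at hn
  obtain ⟨a, b, ha, hb, hf⟩ := h
  obtain ⟨e, e1, e2, e3⟩ := edges_of_four hz ha hb hf 0
  obtain ⟨e', e1', e2', e3'⟩ := edges_of_four hz ha hb hf 1
  have ev := even_filter hy.even (fun f => a (D.l f) = 1) (fun w f f' w1 w2 f1 f2 h1 => by
    have ho : Off w z := fun x hx => by
      by_contra h0
      exact hn w ⟨x, h0, hx⟩ f f1 w1
    rw [← h1]
    exact ha.mv0 ho (hy.even.1 _ f2) (hy.even.1 _ f1) w2 w1)
  rcases hy.min ev (fun f hf h0 => hf (by simp [Finsupp.filter_apply, h0])) with h1 | h1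
  · have := DFunLike.congr_fun h1 e'
    rw [Finsupp.filter_apply, if_pos e3'] at this
    exact e1' this
  · have := DFunLike.congr_fun h1 e
    rw [Finsupp.filter_apply, if_neg (by rw [e3]; exact zero_ne_one)] at this
    exact e1 this.symm

lemma finite_touch (hl : ∀ v, (G.neighborSet v).Finite) (z : Ch V) (N : ℕ) :
    {y : Ch V | ∃ m ≤ N, Irr G m y ∧
      ∃ w, (∃ e, z e ≠ 0 ∧ w ∈ e) ∧ ∃ e, y e ≠ 0 ∧ w ∈ e}.Finite := by
  have h1 : {w : V | ∃ e, z e ≠ 0 ∧ w ∈ e}.Finite := by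
    have : ∀ e : Sym2 V, {w : V | w ∈ e}.Finite := fun e => by
      induction e using Sym2.ind with
      | _ a b => exact (Set.toFinite {a, b}).subset fun w hw => by simpa using hw
    refine (z.support.finite_toSet.biUnion fun e _ => this e).subset ?_
    rintro w ⟨e, e1, e2⟩
    exact Set.mem_biUnion (Finsupp.mem_support_iff.2 e1) e2
  refine (h1.biUnion fun w _ => finite_irr hl w N).subset ?_
  rintro y ⟨m, m1, m2, w, w1, w2⟩
  exact Set.mem_biUnion w1 ⟨m, m1, m2, w2⟩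

lemma finite_cross (hl : ∀ v, (G.neighborSet v).Finite) {n : ℕ} {z : Ch V} (hz : Irr G n z)
    (N : ℕ) (A : Set (Ch V)) (hA : ∀ y ∈ A, ∃ m ≤ N, Irr G m y) :
    {y ∈ A | Cross D y z}.Finite := by
  refine (finite_touch hl z N).subset ?_
  rintro y ⟨y1, y2⟩
  obtain ⟨m, m1, m2⟩ := hA y y1
  exact ⟨m, m1, m2, y2.symm.share hz m2⟩

end Pool.Agent.H599Z.QT
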