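import Mathlib

set_option autoImplicit false

namespace Pool.Agent.H599Z.QT

/-- The automorphism group of the graph has finitely many orbits on the vertices. -/
def QuasiTransitive {V : Type} (G : SimpleGraph V) : Prop :=
  ∃ S : Set V, S.Finite ∧ ∀ v : V, ∃ s ∈ S, ∃ g : G ≃g G, g s = v

/-- The graph has a tree-decomposition all of whose bags have at most k + 1 vertices:
a tree T and bags B t such that the nodes whose bag contains a given vertex induce a
(nonempty) connected subgraph of T, and the two ends of every edge lie in a common bag. -/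
def TreewidthLE {V : Type} (G : SimpleGraph V) (k : ℕ) : Prop :=
  ∃ (ι : Type) (T : SimpleGraph ι) (B : ι → Set V), T.IsTree ∧
    (∀ v : V, (T.induce {t : ι | v ∈ B t}).Connected) ∧
    (∀ u v : V, G.Adj u v → ∃ t : ι, u ∈ B t ∧ v ∈ B t) ∧
    ∀ t : ι, (B t).encard ≤ (k : ℕ∞) + 1

/-- The treewidth is infinite. -/
def UnboundedTreewidth {V : Type} (G : SimpleGraph V) : Prop :=
  ∀ k : ℕ, ¬ TreewidthLE G k

/-- The graph admits an embedding in the plane: distinct points for the vertices, and for each
edge an arc joining the points of its ends, containing no other vertex point, two different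
edges meeting only in vertex points. -/
def Planar {V : Type} (G : SimpleGraph V) : Prop :=
  ∃ (p : V → ℂ) (γ : V → V → unitInterval → ℂ), Function.Injective p ∧
    ∀ u v : V, G.Adj u v →
      Continuous (γ u v) ∧ Function.Injective (γ u v) ∧ γ u v 0 = p u ∧ γ u v 1 = p v ∧
      (∀ t, γ v u t = γ u v (unitInterval.symm t)) ∧
      (∀ t w, γ u v t = p w → w = u ∨ w = v) ∧
      ∀ u' v' : V, G.Adj u' v' → s(u, v) ≠ s(u', v') →
        ∀ s t, γ u v s = γ u' v' t → ∃ w, γ u v s = p w

/-- The standard Cayley graph of the lamplighter group: a vertex is a finitely supported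
configuration of lamps on the integers together with the position of the lamplighter, who either
moves one step or switches the lamp at his position. -/
def lamplighter : SimpleGraph ((ℤ →₀ ZMod 2) × ℤ) where
  Adj x y := (y.1 = x.1 ∧ (y.2 = x.2 + 1 ∨ x.2 = y.2 + 1)) ∨
    (y.2 = x.2 ∧ y.1 + x.1 = Finsupp.single x.2 1)
  symm := ⟨by
    rintro x y (⟨h1, h2⟩ | ⟨h1, h2⟩)
    · exact Or.inl ⟨h1.symm, h2.symm⟩
    · exact Or.inr ⟨h1.symm, by rw [add_comm, h2, h1]⟩⟩
  loopless := ⟨by
    rintro x (⟨-, h2⟩ | ⟨-, h2⟩)
    · omega
    · have := DFunLike.congr_fun h2 x.2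
      rw [Finsupp.add_apply, CharTwo.add_self_eq_zero, Finsupp.single_eq_same] at this
      exact zero_ne_one this⟩

end Pool.Agent.H599Z.QT
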