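import Pool.Agent.H599Z.QT.Rot

set_option autoImplicit false

namespace Pool.Agent.H599Z.QT

open SimpleGraph
open scoped Classical

variable {V : Type} {G : SimpleGraph V}

/-- faces of a plane graph, seen through the cycle space -/
structure Dual (G : SimpleGraph V) where
  F : Type
  l : Sym2 V → F
  r : Sym2 V → F
  d2 : ∀ (a : F → ZMod 2) (z : Ch V), (∀ e, z e = a (l e) + a (r e)) → IsEven G z
  d3 : ∀ a : F → ZMod 2, (∀ e, a (l e) = a (r e)) → ∀ f f', a f = a f'
  d4 : ∀ z, IsEven G z → ∃ a : F → ZMod 2, ∀ e, z e = a (l e) + a (r e)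
  d5 : ∀ (a : F → ZMod 2) (w : V), (∀ e, w ∈ e → a (l e) = a (r e)) →
    ∀ u u', G.Adj w u → G.Adj w u' → a (l s(w, u)) = a (l s(w, u'))
  d7 : ∀ v a b c, G.Adj v a → G.Adj v b → G.Adj v c → a ≠ b → a ≠ c → b ≠ c →
    ∀ (y z : Ch V) (a1 a2 : F → ZMod 2), (∀ e, y e = a1 (l e) + a1 (r e)) →
      (∀ e, z e = a2 (l e) + a2 (r e)) → At v y a c → At v z b c →
      a1 (l s(v, b)) + a2 (l s(v, a)) + a1 (l s(v, c)) + a2 (l s(v, c)) = 1

lemma z2eq {a b : ZMod 2} : a + b = 0 ↔ a = b := by revert a b; decide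

lemma SD.dual (D : SD G) (h3 : ThreeConn G) (hc : ∀ x y, RS G Set.univ x y)
    (hl : ∀ v, (G.neighborSet v).Finite) {e0 : Sym2 V} (he0 : e0 ∈ G.edgeSet) :
    Nonempty (Dual G) := by
  let Ev := {z : Ch V // IsEven G z}
  let L : Sym2 V → Ev → ZMod 2 := fun e z => D.se e z.1
  let R : Sym2 V → Ev → ZMod 2 := fun e z => D.se e z.1 + z.1 e
  let F := {f : Ev → ZMod 2 // ∃ e ∈ G.edgeSet, f = L e ∨ f = R e}
  let l : Sym2 V → F := fun e =>
    if h : e ∈ G.edgeSet then ⟨L e, e, h, Or.inl rfl⟩ else ⟨L e0, e0, he0, Or.inl rfl⟩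
  let r : Sym2 V → F := fun e =>
    if h : e ∈ G.edgeSet then ⟨R e, e, h, Or.inr rfl⟩ else ⟨L e0, e0, he0, Or.inl rfl⟩
  have d0 : ∀ e, e ∉ G.edgeSet → l e = r e := fun e h => by simp only [l, r, dif_neg h]
  have lv : ∀ e, e ∈ G.edgeSet → (l e).1 = L e := fun e h => by simp only [l, dif_pos h]
  have rv : ∀ e, e ∈ G.edgeSet → (r e).1 = R e := fun e h => by simp only [r, dif_pos h]
  -- local structure
  have loc : ∀ v u0, G.Adj v u0 → ∀ N : Finset V, (∀ u, u ∈ N ↔ G.Adj v u) →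
      ∀ a : F → ZMod 2, (∑ u ∈ N, (a (l s(v, u)) + a (r s(v, u))) = 0) ∧
        ((∀ u ∈ N, a (l s(v, u)) = a (r s(v, u))) →
          ∃ t, ∀ u ∈ N, a (l s(v, u)) = t) := by
    intro v u0 h0 N hN a
    obtain ⟨ρ, inj, hρ⟩ := D.rot h3 h0 N hN
    let Φ : Finset V → Ev → ZMod 2 := fun S z => D.se s(v, u0) z.1 + ∑ w ∈ S, z.1 s(v, w)
    let a' : (Ev → ZMod 2) → ZMod 2 := fun f =>
      if h : ∃ e ∈ G.edgeSet, f = L e ∨ f = R e then a ⟨f, h⟩ else 0
    have al : ∀ e, e ∈ G.edgeSet → a' (L e) = a (l e) := fun e h => by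
      simp only [a', l, dif_pos h]
      rw [dif_pos ⟨e, h, Or.inl rfl⟩]
    have ar : ∀ e, e ∈ G.edgeSet → a' (R e) = a (r e) := fun e h => by
      simp only [a', r, dif_pos h]
      rw [dif_pos ⟨e, h, Or.inr rfl⟩]
    have hle : ∀ u ∈ N, ∀ z : Ev, Φ (N.filter fun w => ρ w ≤ ρ u) z =
        Φ (N.filter fun w => ρ w < ρ u) z + z.1 s(v, u) := by
      intro u hu z
      have : (N.filter fun w => ρ w ≤ ρ u) = insert u (N.filter fun w => ρ w < ρ u) := by
        ext w
        simp only [Finset.mem_filter, Finset.mem_insert]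
        constructor
        · rintro ⟨h1, h2⟩
          rcases h2.eq_or_lt with h | h
          · exact Or.inl (inj h1 hu h)
          · exact Or.inr ⟨h1, h⟩
        · rintro (rfl | ⟨h1, h2⟩)
          · exact ⟨hu, le_rfl⟩
          · exact ⟨h1, h2.le⟩
      simp only [Φ]
      rw [this, Finset.sum_insert (by simp)]
      ring
    have two : ∀ u ∈ N, (Φ (N.filter fun w => ρ w < ρ u) = L s(v, u) ∧
        Φ (N.filter fun w => ρ w ≤ ρ u) = R s(v, u)) ∨
        (Φ (N.filter fun w => ρ w < ρ u) = R s(v, u) ∧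
        Φ (N.filter fun w => ρ w ≤ ρ u) = L s(v, u)) := by
      intro u hu
      by_cases h : Φ (N.filter fun w => ρ w < ρ u) = L s(v, u)
      · left
        refine ⟨h, funext fun z => ?_⟩
        rw [hle u hu, h]
      · right
        have h1 : Φ (N.filter fun w => ρ w < ρ u) = R s(v, u) := by
          obtain ⟨y, hy⟩ := Function.ne_iff.1 h
          have hy1 : y.1 s(v, u) = 1 := z2ne fun h2 => hy (hρ u hu y.1 y.2 h2).symm
          funext z
          rcases z2 (z.1 s(v, u)) with h2 | h2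
          · simp only [R, h2, add_zero]
            exact (hρ u hu z.1 z.2 h2).symm
          · have h4 := hρ u hu _ (z.2.add y.2) (by rw [Finsupp.add_apply, h2, hy1]; rfl)
            simp only [map_add, Finsupp.add_apply, Finset.sum_add_distrib] at h4
            simp only [Φ, L, R, h2] at hy ⊢
            revert h4 hy
            generalize D.se s(v, u) z.1 = t1
            generalize D.se s(v, u) y.1 = t2
            generalize D.se s(v, u0) z.1 = t3
            generalize D.se s(v, u0) y.1 = t4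
            generalize ∑ w ∈ N.filter (fun w => ρ w < ρ u), z.1 s(v, w) = t5
            generalize ∑ w ∈ N.filter (fun w => ρ w < ρ u), y.1 s(v, w) = t6
            revert t1 t2 t3 t4 t5 t6; decide
        refine ⟨h1, funext fun z => ?_⟩
        rw [hle u hu, h1]
        simp only [L, R]
        rw [add_assoc, z2add, add_zero]
    have hend : Φ N = Φ ∅ := by
      funext z
      simp only [Φ]
      rw [← bd_nbr N hN z.2.1, z.2.2]; simp
    obtain ⟨t1, t2⟩ := tele ρ N inj Φ a'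
    constructor
    · rw [hend, z2add] at t1
      rw [← t1]
      refine Finset.sum_congr rfl fun u hu => ?_
      have he : s(v, u) ∈ G.edgeSet := (hN u).1 hu
      rcases two u hu with ⟨h1, h2⟩ | ⟨h1, h2⟩
      · rw [h1, h2, al _ he, ar _ he]
      · rw [h1, h2, al _ he, ar _ he, add_comm]
    · intro h
      obtain ⟨-, t3⟩ := t2 fun u hu => by
        have he : s(v, u) ∈ G.edgeSet := (hN u).1 hu
        rcases two u hu with ⟨h1, h2⟩ | ⟨h1, h2⟩
        · rw [h1, h2, al _ he, ar _ he, h u hu]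
        · rw [h1, h2, al _ he, ar _ he, h u hu]
      refine ⟨a' (Φ ∅), fun u hu => ?_⟩
      have he : s(v, u) ∈ G.edgeSet := (hN u).1 hu
      rw [← t3 u hu]
      rcases two u hu with ⟨h1, h2⟩ | ⟨h1, h2⟩
      · rw [h1, al _ he]
      · rw [h1, ar _ he, h u hu]
  have hN : ∀ v u, u ∈ (hl v).toFinset ↔ G.Adj v u := fun v u => by simp
  have d5 : ∀ (a : F → ZMod 2) (w : V), (∀ e, w ∈ e → a (l e) = a (r e)) →
      ∀ u u', G.Adj w u → G.Adj w u' → a (l s(w, u)) = a (l s(w, u')) := by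
    intro a w h u u' hu hu'
    obtain ⟨t, ht⟩ := (loc w u hu _ (hN w) a).2 fun x _ => h _ (by simp)
    rw [ht u ((hN w u).2 hu), ht u' ((hN w u').2 hu')]
  have d3 : ∀ a : F → ZMod 2, (∀ e, a (l e) = a (r e)) → ∀ f f', a f = a f' := by
    intro a h
    have k1 : ∀ f : F, ∃ x y, G.Adj x y ∧ a f = a (l s(x, y)) := by
      rintro ⟨f, e, he, hf⟩
      induction e using Sym2.ind with
      | _ x y =>
        refine ⟨x, y, he, ?_⟩
        rcases hf with hf | hf
        · congr 1; exact Subtype.ext (hf.trans (lv _ he).symm)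
        · rw [h]; congr 1; exact Subtype.ext (hf.trans (rv _ he).symm)
    intro f f'
    obtain ⟨x, y, hxy, h1⟩ := k1 f
    obtain ⟨x', y', hxy', h1'⟩ := k1 f'
    rw [h1, h1']
    refine ((hc x x').ind (fun w => ∀ u, G.Adj w u → a (l s(x, y)) = a (l s(w, u)))
      (fun u hu => d5 a x (fun e _ => h e) y u hxy hu) ?_) y' hxy'
    intro p q _ _ hpq h2 u hu
    rw [h2 q hpq, Sym2.eq_swap]
    exact d5 a q (fun e _ => h e) p u hpq.symm hu
  have d2 : ∀ (a : F → ZMod 2) (z : Ch V), (∀ e, z e = a (l e) + a (r e)) → IsEven G z := by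
    intro a z h
    have h1 : OnE G z := fun e he => by
      by_contra h2
      rw [h, d0 e h2, z2add] at he
      exact he rfl
    refine ⟨h1, fun v => ?_⟩
    rw [bd_nbr _ (hN v) h1]
    by_cases hv : ∃ u, G.Adj v u
    · obtain ⟨u, hu⟩ := hv
      rw [← (loc v u hu _ (hN v) a).1]
      exact Finset.sum_congr rfl fun u _ => h _
    · exact Finset.sum_eq_zero fun u hu => absurd ⟨u, (hN v u).1 hu⟩ hv
  have can : ∀ z : Ev, ∀ e, z.1 e = (l e).1 z + (r e).1 z := by
    intro z e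
    by_cases he : e ∈ G.edgeSet
    · rw [lv e he, rv e he]
      simp only [L, R]
      rw [← add_assoc, z2add, zero_add]
    · rw [d0 e he, z2add]
      by_contra h
      exact he (z.2.1 e h)
  refine ⟨⟨F, l, r, d2, d3, fun z hz => ⟨fun f => f.1 ⟨z, hz⟩, can ⟨z, hz⟩⟩, d5, ?_⟩⟩
  intro v a b c ha hb hc' hab hac hbc y z a1 a2 h1 h2 hy hz
  have ey := d2 a1 y h1
  have ez := d2 a2 z h2
  have k1 := d3 (fun f => a1 f + f.1 ⟨y, ey⟩) (fun e => by
    have := can ⟨y, ey⟩ e
    rw [← z2eq]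
    linear_combination (h1 e).symm + this.symm + z2add (y e))
    (l s(v, b)) (l s(v, c))
  have k2 := d3 (fun f => a2 f + f.1 ⟨z, ez⟩) (fun e => by
    have := can ⟨z, ez⟩ e
    rw [← z2eq]
    linear_combination (h2 e).symm + this.symm + z2add (z e))
    (l s(v, a)) (l s(v, c))
  have t := D.t2 v a b c ha hb hc' hab hac hbc y z ey ez hy hz
  simp only [lv s(v, a) ha, lv s(v, b) hb, lv s(v, c) hc', L] at k1 k2
  rw [map_add] at t
  linear_combination k1 + k2 + t + z2add (a1 (l s(v, c))) + z2add (a2 (l s(v, c)))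
    - z2add (D.se s(v, b) y) - z2add (D.se s(v, a) z)

end Pool.Agent.H599Z.QT
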