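import Pool.Agent.H599Z.QT.Tw

set_option autoImplicit false

namespace Pool.Agent.H599Z.QT

open SimpleGraph
open scoped Classical

abbrev LV := (ℤ →₀ ZMod 2) × ℤ

lemma fadd (f : ℤ →₀ ZMod 2) : f + f = 0 := by ext i; simp [z2add]

lemma lamp_move (f : ℤ →₀ ZMod 2) (n : ℤ) : lamplighter.Adj (f, n) (f, n + 1) :=
  Or.inl ⟨rfl, Or.inl rfl⟩

lemma lamp_flip (f : ℤ →₀ ZMod 2) (n : ℤ) :
    lamplighter.Adj (f, n) (Finsupp.single n 1 + f, n) :=
  Or.inr ⟨rfl, by simp [add_assoc, fadd]⟩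

lemma lamp_line {S : Set LV} (f : ℤ →₀ ZMod 2) (h : ∀ n, (f, n) ∈ S) (n m : ℤ) :
    RS lamplighter S (f, n) (f, m) := by
  rcases le_total n m with h1 | h1
  · exact RS.seqZ (fun i => (f, i)) h1 (fun t _ _ => lamp_move f t) fun t _ _ => h t
  · exact (RS.seqZ (fun i => (f, i)) h1 (fun t _ _ => lamp_move f t) fun t _ _ => h t).symm

lemma lamp_conn : lamplighter.Connected := by
  have key : ∀ f : ℤ →₀ ZMod 2, ∀ n, RS lamplighter Set.univ (0, 0) (f, n) := by
    intro f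
    induction f using Finsupp.induction with
    | zero => exact lamp_line 0 (fun _ => Set.mem_univ _) 0
    | single_add a b f _ hb ih =>
      intro n
      rw [z2ne hb]
      exact ((ih a).trans (RS.adj (lamp_flip f a) trivial trivial)).trans
        (lamp_line _ (fun _ => Set.mem_univ _) a n)
  rw [connected_iff_exists_forall_reachable]
  refine ⟨(0, 0), fun ⟨f, n⟩ => ?_⟩
  obtain ⟨p, -⟩ := key f n
  exact ⟨p⟩

lemma lamp_lf (v : LV) : (lamplighter.neighborSet v).Finite := by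
  refine (Set.toFinite {(v.1, v.2 + 1), (v.1, v.2 - 1),
    (Finsupp.single v.2 1 + v.1, v.2)}).subset ?_
  rintro ⟨g, m⟩ (⟨h1, h2 | h2⟩ | ⟨h1, h2⟩)
  · left; exact Prod.ext h1 h2
  · right; left; exact Prod.ext h1 (by simp only at h2 ⊢; omega)
  · right; right
    refine Prod.ext ?_ h1
    simp only at h2 ⊢
    rw [← h2, add_assoc, fadd, add_zero]

noncomputable def lampIso (h : ℤ →₀ ZMod 2) (k : ℤ) : lamplighter ≃g lamplighter where
  toEquiv := Equiv.prodCongr
    ((Finsupp.domCongr (Equiv.addRight k)).toEquiv.trans (Equiv.addRight h)) (Equiv.addRight k)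
  map_rel_iff' := by
    rintro ⟨f, n⟩ ⟨g, m⟩
    have e : Finsupp.single (n + k) (1 : ZMod 2) =
        Finsupp.domCongr (Equiv.addRight k) (Finsupp.single n 1) := by
      simp [Finsupp.equivMapDomain_single]
    simp only [lamplighter, Equiv.prodCongr_apply, Prod.map, Equiv.trans_apply,
      Equiv.coe_addRight, AddEquiv.toEquiv_eq_coe, EquivLike.coe_coe, add_left_inj,
      EmbeddingLike.apply_eq_iff_eq]
    rw [add_add_add_comm, fadd, add_zero, ← map_add, e, EmbeddingLike.apply_eq_iff_eq]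
    refine or_congr (and_congr Iff.rfl ?_) Iff.rfl
    omega

lemma lamp_qt : QuasiTransitive lamplighter :=
  ⟨{(0, 0)}, Set.finite_singleton _, fun ⟨f, n⟩ => ⟨_, rfl, lampIso f n, by
    show (Finsupp.domCongr (Equiv.addRight n) 0 + f, 0 + n) = (f, n)
    simp⟩⟩

lemma lamp_utw : UnboundedTreewidth lamplighter := by
  refine not_tw (fun i => {x | x.1 = Finsupp.single (i : ℤ) 1 ∨
    ∃ j : ℤ, i < j ∧ x.1 = Finsupp.single j 1 + Finsupp.single (i : ℤ) 1}) ?_ ?_ ?_
  · intro i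
    have key : ∀ x ∈ {x : LV | x.1 = Finsupp.single (i : ℤ) 1 ∨
        ∃ j : ℤ, i < j ∧ x.1 = Finsupp.single j 1 + Finsupp.single (i : ℤ) 1},
        RS lamplighter {x : LV | x.1 = Finsupp.single (i : ℤ) 1 ∨
          ∃ j : ℤ, i < j ∧ x.1 = Finsupp.single j 1 + Finsupp.single (i : ℤ) 1}
          (Finsupp.single (i : ℤ) 1, 0) x := by
      rintro ⟨f, n⟩ (h | ⟨j, h1, h⟩)
      · simp only at h
        subst h
        exact lamp_line _ (fun _ => Or.inl rfl) _ _
      · simp only at h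
        subst h
        exact ((lamp_line _ (fun _ => Or.inl rfl) _ j).trans (RS.adj (lamp_flip _ j) (Or.inl rfl)
          (Or.inr ⟨j, h1, rfl⟩))).trans (lamp_line _ (fun _ => Or.inr ⟨j, h1, rfl⟩) _ _)
    exact fun x hx y hy => (key x hx).symm.trans (key y hy)
  · intro i j hij
    rw [Set.disjoint_left]
    intro x h1 h2
    have k1 : x.1 i = 1 := by
      rcases h1 with h | ⟨l, h1, h⟩
      · simp [h]
      · simp [h, Finsupp.single_apply, h1.ne']
    have k2 : x.1 i = 0 := by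
      rcases h2 with h | ⟨l, h2, h⟩
      · simp [h, Finsupp.single_apply, hij.ne']
      · simp [h, Finsupp.single_apply, hij.ne', show l ≠ i by omega]
    exact zero_ne_one (k2.symm.trans k1)
  · intro i j hij
    exact ⟨(Finsupp.single (i : ℤ) 1 + Finsupp.single (j : ℤ) 1, i),
      Or.inr ⟨j, by omega, add_comm _ _⟩, (Finsupp.single (j : ℤ) 1, i), Or.inl rfl,
      (lamp_flip _ _).symm⟩

lemma lamp_adj {x y : LV} (h : lamplighter.Adj x y) :
    x.2 - 1 ≤ y.2 ∧ y.2 ≤ x.2 + 1 ∧ ∀ i, i ≠ x.2 → y.1 i = x.1 i := by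
  rcases h with ⟨h1, h2⟩ | ⟨h1, h2⟩
  · exact ⟨by omega, by omega, fun i _ => by rw [h1]⟩
  · refine ⟨by omega, by omega, fun i hi => ?_⟩
    have := DFunLike.congr_fun h2 i
    rw [Finsupp.add_apply, Finsupp.single_eq_of_ne hi] at this
    exact z2eq.1 this

lemma lamp_walk {x y : LV} (p : lamplighter.Walk x y) :
    x.2 - p.length ≤ y.2 ∧ y.2 ≤ x.2 + p.length ∧
      ∀ i, i < x.2 - p.length ∨ x.2 + p.length < i → y.1 i = x.1 i := by
  induction p with
  | nil => simp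
  | cons h p ih =>
    obtain ⟨h1, h2, h3⟩ := lamp_adj h
    obtain ⟨k1, k2, k3⟩ := ih
    simp only [Walk.length_cons]
    push_cast
    refine ⟨by omega, by omega, fun i hi => ?_⟩
    rw [k3 i (by omega), h3 i (by omega)]

lemma dv {M k x : ℤ} (hM : 0 < M) (h1 : k * M ≤ x) (h2 : x < k * M + M) : x / M = k := by
  have a := (Int.le_ediv_iff_mul_le hM).2 h1
  have b := (Int.ediv_lt_iff_lt_mul hM (b := k + 1)).2 (by rw [add_mul]; omega : x < (k + 1) * M)
  omega

theorem lamp_sub (K : lamplighter.Subgraph) (hp : Planar K.coe) (hq : QuasiTransitive K.coe) :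
    ¬ UnboundedTreewidth K.coe := by
  obtain ⟨L, hL⟩ := hp.gen (fun v => ((lamp_lf v.1).preimage Subtype.val_injective.injOn).subset
    fun w hw => K.adj_sub hw) hq
  have hM : (0 : ℤ) < L + 1 := by omega
  let E : Set ((Fin (3 * L + 1) → ZMod 2) × ℤ) := Set.univ ×ˢ Set.Icc (-1) (L + 1 : ℤ)
  have hE : E.Finite := Set.finite_univ.prod (Set.finite_Icc _ _)
  refine fun h => h E.ncard (tw_of_gen hL (fun v => decide (v.1.2 / (L + 1) % 2 = 0)) fun v => ?_)
  obtain ⟨k, a, ha, h1, h2⟩ : ∃ k a : ℤ, a = k * (L + 1) ∧ a ≤ v.1.2 ∧ v.1.2 < a + (L + 1) :=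
    ⟨v.1.2 / (L + 1), _, rfl, Int.ediv_mul_le _ hM.ne', by
      have := Int.lt_ediv_add_one_mul_self v.1.2 hM
      rw [add_mul] at this; omega⟩
  have key : ∀ u, Pc K.coe L (fun v => decide (v.1.2 / (L + 1) % 2 = 0)) v u →
      a ≤ u.1.2 ∧ u.1.2 < a + (L + 1) ∧ ∀ i, i < a - L ∨ a + 2 * L < i → u.1.1 i = v.1.1 i := by
    intro u hu
    induction hu with
    | refl => exact ⟨h1, h2, fun _ _ => rfl⟩
    | @tail b c _ h ih =>
      obtain ⟨h3, p, hp⟩ := h
      obtain ⟨k1, k2, k3⟩ := ih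
      obtain ⟨m1, m2, m3⟩ := lamp_walk (p.map K.hom)
      rw [Walk.length_map] at m1 m2 m3
      change b.1.2 - _ ≤ c.1.2 at m1
      change c.1.2 ≤ b.1.2 + _ at m2
      simp only [decide_eq_decide] at h3
      rw [dv hM (ha ▸ k1) (ha ▸ k2)] at h3
      refine ⟨?_, ?_, fun i hi => (m3 i ?_).trans (k3 i hi)⟩
      · by_contra h4
        rw [dv (k := k - 1) hM (by rw [sub_mul]; omega) (by rw [sub_mul]; omega)] at h3
        omega
      · by_contra h4
        rw [dv (k := k + 1) hM (by rw [add_mul]; omega) (by rw [add_mul]; omega)] at h3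
        omega
      · change i < b.1.2 - _ ∨ b.1.2 + _ < i
        omega
  have key2 : ∀ w ∈ {w | ∃ u, Pc K.coe L (fun v => decide (v.1.2 / (L + 1) % 2 = 0)) v u ∧
      (u = w ∨ K.coe.Adj u w)}, a - 1 ≤ w.1.2 ∧ w.1.2 ≤ a + (L + 1) ∧
      ∀ i, i < a - L ∨ a + 2 * L < i → w.1.1 i = v.1.1 i := by
    rintro w ⟨u, u1, rfl | u2⟩
    · obtain ⟨k1, k2, k3⟩ := key u u1
      exact ⟨by omega, by omega, k3⟩
    · obtain ⟨k1, k2, k3⟩ := key u u1
      obtain ⟨m1, m2, m3⟩ := lamp_adj (K.adj_sub u2)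
      exact ⟨by omega, by omega, fun i hi => (m3 i (by omega)).trans (k3 i hi)⟩
  rw [hE.cast_ncard_eq]
  refine Set.encard_le_encard_of_injOn
    (f := fun w => (fun i : Fin (3 * L + 1) => w.1.1 (a - L + i), w.1.2 - a)) ?_ ?_
  · intro w hw
    obtain ⟨k1, k2, -⟩ := key2 w hw
    exact ⟨trivial, by simp only; omega, by simp only; omega⟩
  · intro w hw w' hw' h
    obtain ⟨-, -, k3⟩ := key2 w hw
    obtain ⟨-, -, k3'⟩ := key2 w' hw'
    simp only [Prod.mk.injEq] at h
    refine Subtype.ext (Prod.ext ?_ (by omega))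
    ext i
    by_cases hi : i < a - L ∨ a + 2 * L < i
    · rw [k3 i hi, k3' i hi]
    · have := congrFun h.1 ⟨(i - (a - L)).toNat, by omega⟩
      simp only at this
      rwa [show a - L + ((i - (a - L)).toNat : ℤ) = i by omega] at this

end Pool.Agent.H599Z.QT
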