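import Pool.Agent.H599Z.QT.Transfer

set_option autoImplicit false

namespace Pool.Agent.H599Z.QT

open SimpleGraph
open scoped Classical

variable {V : Type} {H : SimpleGraph V} {n D : ℕ} {z : Ch V} {c : ℤ → V}

lemma seg_short (ha : ∀ i, H.Adj (c i) (c (i + 1))) {i j : ℤ} (hij : i ≤ j) {a b : V}
    (e1 : a = c i) (e2 : b = c j) (p : H.Walk a b) {L : ℕ} (hL : p.length + (j - i) ≤ L) :
    wv p + seg c i (j - i).toNat ∈ Short H L := by
  subst e1
  obtain ⟨q, q1, q2⟩ := seg_walk ha i (j - i).toNat b (by rw [e2]; congr 1; omega)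
  have := wv_short (L := L) (p.append q.reverse) (by
    rw [Walk.length_append, Walk.length_reverse]; omega)
  rwa [wv_append, wv_reverse, q2] at this

lemma isometric (hz : Irr H n z) (hP : Param H n z c) {i j : ℤ} (h1 : i < j) (h2 : j < i + n)
    (p : H.Walk (c i) (c j)) : j - i ≤ p.length ∨ i + n - j ≤ p.length := by
  by_contra hn
  push Not at hn
  have h3 := hP.three
  have k1 := seg_short hP.adj h1.le rfl rfl p (L := n - 1) (by omega)
  have k2 := seg_short hP.adj h2.le rfl (hP.per1 i).symm p.reverse (L := n - 1)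
    (by rw [Walk.length_reverse]; omega)
  apply hz.new
  have := seg_add c i (j - i).toNat (i + n - j).toNat
  rw [show (j - i).toNat + (i + n - j).toNat = n by omega, hP.seg_full,
    show i + ((j - i).toNat : ℤ) = j by omega] at this
  have k3 := add_mem k1 k2
  rw [wv_reverse] at k3
  rw [this]
  convert k3 using 1
  rw [add_add_add_comm, chadd, zero_add]

lemma Param.arc (hP : Param H n z c) {a b s t : ℤ} (hb : b ≤ a + n) (h1 : a < s) (h2 : s < b)
    (h3 : a < t) (h4 : t < b) : RS H {c a, c b}ᶜ (c s) (c t) := by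
  have key : ∀ s t, a < s → s ≤ t → t < b → RS H {c a, c b}ᶜ (c s) (c t) := by
    intro s t k1 k2 k3
    refine RS.seqZ c k2 (fun t _ _ => hP.adj t) fun u u1 u2 => ?_
    rintro (h | h)
    · exact hP.ne (by omega) (by omega) h.symm
    · exact hP.ne (by omega) (by omega) h
  rcases le_total s t with h | h
  · exact key s t h1 h h4
  · exact (key t s h3 h h2).symm

lemma Param.arc' (hP : Param H n z c) {a b s t : ℤ} (hb : a ≤ b) (h1 : b < s) (h2 : s < a + n)
    (h3 : b < t) (h4 : t < a + n) : RS H {c a, c b}ᶜ (c s) (c t) := by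
  have := hP.arc (a := b) (b := a + n) (by omega) h1 h2 h3 h4
  rwa [hP.per1, Set.pair_comm] at this

def Cut (H : SimpleGraph V) (n : ℕ) (c : ℤ → V) (a b : ℤ) : Prop :=
  ∀ s t, a < s → s < b → b < t → t < a + n → ¬ RS H {c a, c b}ᶜ (c s) (c t)

lemma Param.near (hP : Param H n z c) {a b : ℤ} (h1 : a + 1 < b) (h2 : b + 1 < a + n)
    (h : ¬ RS H {c a, c b}ᶜ (c (a + 1)) (c (a + n - 1))) : Near H (c a) (c b) := by
  refine ⟨c (a + 1), c (a + n - 1), hP.adj a, ?_, ?_, h⟩
  · have := hP.adj' (a + n)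
    rwa [hP.per1] at this
  · exact (hP.arc (a := a) (b := a + n) le_rfl (by omega) (by omega) (by omega) (by omega)).mono
      fun w hw h => hw (Or.inl h)

lemma Cut.merge (hP : Param H n z c) {a b a' b' : ℤ} (h : Cut H n c a b) (h' : Cut H n c a' b')
    (h1 : a' < a) (h2 : a < b') (h3 : b' < b) (h4 : b < a' + n) : Cut H n c a' b := by
  intro s t s1 s2 t1 t2 hr
  have := hr.ind (fun w => ∃ s, a' < s ∧ s < b ∧ RS H (OffC c ∪ {c s}) (c s) w)
    ⟨s, s1, s2, RS.refl (Or.inr rfl)⟩ (by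
      rintro p q - hq hpq ⟨s, k1, k2, k3⟩
      by_cases hO : q ∈ OffC c
      · exact ⟨s, k1, k2, k3.trans (RS.adj hpq k3.right (Or.inl hO))⟩
      simp only [OffC, Set.mem_setOf_eq, not_forall, not_not] at hO
      obtain ⟨t, rfl⟩ := hO
      obtain ⟨k, m1, m2⟩ := hP.norm a' t
      rw [← hP.per t k] at hq hpq ⊢
      generalize t + n * k = t at *
      have n1 : t ≠ a' := fun h => hq (Or.inl (h ▸ rfl))
      have n2 : t ≠ b := fun h => hq (Or.inr (h ▸ rfl))
      by_cases m3 : t < b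
      · exact ⟨t, by omega, m3, RS.refl (Or.inr rfl)⟩
      exfalso
      have key : ∀ x y, c s ∉ ({c x, c y} : Set V) → c t ∉ ({c x, c y} : Set V) →
          RS H {c x, c y}ᶜ (c s) (c t) := by
        intro x y j1 j2
        have j3 : RS H {c x, c y}ᶜ (c s) p := k3.mono (by
          rintro w (hw | rfl)
          · rintro (j | j) <;> exact hw _ j
          · exact j1)
        exact j3.trans (RS.adj hpq j3.right j2)
      by_cases m4 : s < b'
      · exact h' s t k1 m4 (by omega) (by omega) (key _ _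
          (hP.arc (by omega) k1 m4 k1 m4).left
          (hP.arc' (s := t) (t := t) (by omega) (by omega) (by omega) (by omega) (by omega)).left)
      · exact h s t (by omega) k2 (by omega) (by omega) (key _ _
          (hP.arc (s := s) (t := s) (by omega) (by omega) k2 (by omega) k2).left
          (hP.arc' (s := t) (t := t) (by omega) (by omega) (by omega) (by omega) (by omega)).left))
  obtain ⟨s, k1, k2, k3⟩ := this
  rcases k3.right with h5 | h5
  · exact h5 t rfl
  · exact hP.ne (by omega) (by omega) h5.symm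

def Small (D : ℕ) (c : ℤ → V) (x y : V) (t : ℤ) : Prop :=
  ∃ a b, a < t ∧ t < b ∧ b ≤ a + D ∧ ({x, y} : Set V) = {c a, c b}

def Far (D : ℕ) (c : ℤ → V) (x y : V) (t : ℤ) : Prop := c t ≠ x ∧ c t ≠ y ∧ ¬ Small D c x y t

def BX (H : SimpleGraph V) (D : ℕ) (c : ℤ → V) : Set V :=
  {w | ∀ x y, w ≠ x → w ≠ y → ∀ t, Far D c x y t → RS H {x, y}ᶜ w (c t)}

lemma far_ex (hP : Param H n z c) (hn : 4 * D + 7 ≤ n) (x y : V) : ∃ t, Far D c x y t := by
  by_cases hx : ∃ a, c a = x
  · obtain ⟨a, rfl⟩ := hx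
    have key : ∀ t, a + D + 1 ≤ t → t ≤ a + D + 2 → c t ≠ y → Far D c (c a) y t := by
      intro t h1 h2 h3
      refine ⟨(hP.ne (by omega) (by omega)).symm, h3, ?_⟩
      rintro ⟨a', b', k1, k2, k3, k4⟩
      rcases (Set.ext_iff.1 k4 (c a)).1 (Or.inl rfl) with h | h <;>
        exact hP.ne (by omega) (by omega) h
    by_cases h : c (a + D + 1) = y
    · exact ⟨a + D + 2, key _ (by omega) le_rfl (h ▸ (hP.ne (by omega) (by omega)).symm)⟩
    · exact ⟨a + D + 1, key _ le_rfl (by omega) h⟩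
  · push Not at hx
    have key : ∀ t, c t ≠ y → Far D c x y t := by
      intro t h3
      refine ⟨hx t, h3, ?_⟩
      rintro ⟨a', b', k1, k2, k3, k4⟩
      rcases (Set.ext_iff.1 k4 x).1 (Or.inl rfl) with h | h <;> exact hx _ h.symm
    by_cases h : c 0 = y
    · exact ⟨1, key _ (h ▸ (hP.ne (by omega) (by omega)).symm)⟩
    · exact ⟨0, key _ h⟩

lemma Far.shift (hP : Param H n z c) {x y : V} {t : ℤ} (h : Far D c x y t) (k : ℤ) :
    Far D c x y (t + n * k) := by
  refine ⟨by rw [hP.per]; exact h.1, by rw [hP.per]; exact h.2.1, ?_⟩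
  rintro ⟨a, b, h1, h2, h3, h4⟩
  refine h.2.2 ⟨a + n * (-k), b + n * (-k), ?_, ?_, ?_, by rwa [hP.per, hP.per]⟩ <;>
    simp only [mul_neg] <;> omega

lemma cut_short (hz : Irr H n z) (hP : Param H n z c)
    (hD : ∀ a b, Near H a b → ∃ p : H.Walk a b, p.length ≤ D) {a b : ℤ} (h1 : a + 1 < b)
    (h2 : b + 1 < a + n) (h : ¬ RS H {c a, c b}ᶜ (c (a + 1)) (c (a + n - 1))) :
    b ≤ a + D ∨ a + n ≤ b + D := by
  obtain ⟨p, hp⟩ := hD _ _ (hP.near h1 h2 h)
  have := isometric hz hP (by omega) (by omega) p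
  omega

lemma far_rs (hz : Irr H n z) (hP : Param H n z c)
    (hD : ∀ a b, Near H a b → ∃ p : H.Walk a b, p.length ≤ D) {x y : V} {s t : ℤ}
    (hs : Far D c x y s) (ht : Far D c x y t) : RS H {x, y}ᶜ (c s) (c t) := by
  obtain ⟨k, k1, k2⟩ := hP.norm s t
  have ht := ht.shift hP k
  rw [← hP.per t k]
  generalize t + n * k = t at *
  by_cases h1 : ∀ u, s ≤ u → u ≤ t → c u ∈ ({x, y}ᶜ : Set V)
  · exact RS.seqZ c k1 (fun t _ _ => hP.adj t) h1
  by_cases h2 : ∀ u, t ≤ u → u ≤ s + n → c u ∈ ({x, y}ᶜ : Set V)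
  · have := RS.seqZ c k2.le (fun t _ _ => hP.adj t) h2
    rw [hP.per1] at this
    exact this.symm
  simp only [not_forall, Set.mem_compl_iff, not_not] at h1 h2
  obtain ⟨a, a1, a2, a3⟩ := h1
  obtain ⟨b, b1, b2, b3⟩ := h2
  have ns : c s ∉ ({x, y} : Set V) := by simp [hs.1, hs.2.1]
  have nt : c t ∉ ({x, y} : Set V) := by simp [ht.1, ht.2.1]
  have n1 : a ≠ s := fun h => ns (h ▸ a3)
  have n2 : a ≠ t := fun h => nt (h ▸ a3)
  have n3 : b ≠ t := fun h => nt (h ▸ b3)
  have n4 : b ≠ s + n := fun h => ns (by rw [← hP.per1, ← h]; exact b3)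
  have ab : c a ≠ c b := hP.ne (by omega) (by omega)
  have e : ({x, y} : Set V) = {c a, c b} := by
    rcases a3 with h | h <;> rcases b3 with h' | h'
    · exact absurd (h.trans h'.symm) ab
    · rw [h, h']
    · rw [h, h', Set.pair_comm]
    · exact absurd (h.trans h'.symm) ab
  by_cases hr : RS H {c a, c b}ᶜ (c (a + 1)) (c (a + n - 1))
  · rw [e, ← hP.per1 s]
    exact ((hP.arc' (by omega) (by omega) (by omega) (by omega) (by omega)).trans hr.symm).trans
      (hP.arc (by omega) (by omega) (by omega) (by omega) (by omega))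
  · exfalso
    rcases cut_short hz hP hD (by omega) (by omega) hr with h | h
    · exact ht.2.2 ⟨a, b, by omega, by omega, h, e⟩
    · refine hs.2.2 ⟨b - n, a, by omega, by omega, by omega, ?_⟩
      rw [e, Set.pair_comm, ← hP.per1 (b - n), sub_add_cancel]

lemma cut_of_not (hz : Irr H n z) (hP : Param H n z c) (hn : 4 * D + 7 ≤ n)
    (hD : ∀ a b, Near H a b → ∃ p : H.Walk a b, p.length ≤ D) {k : ℤ} (h : c k ∉ BX H D c) :
    ∃ a b, a < k ∧ k < b ∧ b ≤ a + D ∧ Cut H n c a b := by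
  simp only [BX, Set.mem_setOf_eq, not_forall] at h
  obtain ⟨x, y, h1, h2, t, h3, h4⟩ := h
  obtain ⟨a, b, k1, k2, k3, k4⟩ : Small D c x y k := by
    by_contra h5
    exact h4 (far_rs hz hP hD ⟨h1, h2, h5⟩ h3)
  refine ⟨a, b, k1, k2, k3, fun s u s1 s2 u1 u2 hr => h4 ?_⟩
  obtain ⟨j, j1, j2⟩ := hP.norm a t
  have h3 := h3.shift hP j
  rw [← hP.per t j]
  generalize t + n * j = t at *
  have nt : c t ∉ ({c a, c b} : Set V) := by rw [← k4]; simp [h3.1, h3.2.1]
  have n1 : t ≠ a := fun h => nt (Or.inl (h ▸ rfl))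
  have n2 : t ≠ b := fun h => nt (Or.inr (h ▸ rfl))
  have n3 : b < t := by
    by_contra h5
    exact h3.2.2 ⟨a, b, by omega, by omega, k3, k4⟩
  rw [k4]
  exact ((hP.arc (by omega) k1 k2 s1 s2).trans hr).trans (hP.arc' (by omega) u1 u2 n3 j2)

lemma dense (hz : Irr H n z) (hP : Param H n z c) (hn : 4 * D + 7 ≤ n)
    (hD : ∀ a b, Near H a b → ∃ p : H.Walk a b, p.length ≤ D) (k : ℤ) :
    ∃ j, k ≤ j ∧ j ≤ k + D ∧ c j ∈ BX H D c := by
  by_cases h : c k ∈ BX H D c
  · exact ⟨k, le_rfl, by omega, h⟩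
  obtain ⟨a0, b0, h0⟩ := cut_of_not hz hP hn hD h
  obtain ⟨d, ⟨a, b, h1, h2, h3, h4, h5⟩, hmax⟩ := Int.exists_greatest_of_bdd
    (P := fun d => ∃ a b, a < k ∧ k < b ∧ b ≤ a + D ∧ Cut H n c a b ∧ d = b - a)
    ⟨D, by rintro d ⟨a, b, h1, h2, h3, h4, h5⟩; omega⟩
    ⟨_, a0, b0, h0.1, h0.2.1, h0.2.2.1, h0.2.2.2, rfl⟩
  refine ⟨b, h2.le, by omega, ?_⟩
  by_contra hb
  obtain ⟨a', b', k1, k2, k3, k4⟩ := cut_of_not hz hP hn hD hb
  by_cases h6 : a' ≤ a
  · have := hmax _ ⟨a', b', by omega, by omega, k3, k4, rfl⟩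
    omega
  · have k5 := k4.merge hP h4 (by omega) k1 k2 (by omega)
    have := cut_short hz hP hD (a := a) (b := b') (by omega) (by omega)
      (k5 _ _ (by omega) (by omega) (by omega) (by omega))
    have := hmax _ ⟨a, b', h1, by omega, by omega, k5, rfl⟩
    omega

lemma bx_blk (hz : Irr H n z) (hP : Param H n z c) (hn : 4 * D + 7 ≤ n)
    (hD : ∀ a b, Near H a b → ∃ p : H.Walk a b, p.length ≤ D) : Blk H (BX H D c) := by
  have big : ∀ x y z, ∃ u ∈ BX H D c, u ≠ x ∧ u ≠ y ∧ u ≠ z := by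
    intro x y w
    obtain ⟨j1, a1, b1, c1⟩ := dense hz hP hn hD 0
    obtain ⟨j2, a2, b2, c2⟩ := dense hz hP hn hD (D + 1)
    obtain ⟨j3, a3, b3, c3⟩ := dense hz hP hn hD (2 * D + 2)
    obtain ⟨j4, a4, b4, c4⟩ := dense hz hP hn hD (3 * D + 3)
    have n12 : c j1 ≠ c j2 := hP.ne (by omega) (by omega)
    have n13 : c j1 ≠ c j3 := hP.ne (by omega) (by omega)
    have n14 : c j1 ≠ c j4 := hP.ne (by omega) (by omega)
    have n23 : c j2 ≠ c j3 := hP.ne (by omega) (by omega)
    have n24 : c j2 ≠ c j4 := hP.ne (by omega) (by omega)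
    have n34 : c j3 ≠ c j4 := hP.ne (by omega) (by omega)
    by_contra hn
    have key : ∀ u ∈ BX H D c, u = x ∨ u = y ∨ u = w := fun u hu => by
      by_contra h
      push Not at h
      exact hn ⟨u, hu, h⟩
    rcases key _ c1 with e1 | e1 | e1 <;> rcases key _ c2 with e2 | e2 | e2 <;>
      rcases key _ c3 with e3 | e3 | e3 <;> rcases key _ c4 with e4 | e4 | e4 <;>
      first
        | exact n12 (e1.trans e2.symm)
        | exact n13 (e1.trans e3.symm)
        | exact n14 (e1.trans e4.symm)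
        | exact n23 (e2.trans e3.symm)
        | exact n24 (e2.trans e4.symm)
        | exact n34 (e3.trans e4.symm)
  refine ⟨fun x y u hu v hv h1 h2 h3 h4 => ?_, fun w hw x y h1 h2 t ht => ?_, big⟩
  · obtain ⟨t, ht⟩ := far_ex hP hn x y
    exact (hu x y h1 h2 t ht).trans (hv x y h3 h4 t ht).symm
  · obtain ⟨u, hu, h3, h4, -⟩ := big x y y
    exact (hw x y w (Or.inl rfl) u (Or.inr hu) h1 h2 h3 h4).trans (hu x y h3 h4 t ht)

theorem gen_of_sd (S : SD H) (hl : ∀ v, (H.neighborSet v).Finite) (hq : QuasiTransitive H) :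
    ∃ L, Gen H L := by
  by_contra hn
  push Not at hn
  obtain ⟨D, hD⟩ := near_bound hl hq
  obtain ⟨L, hL⟩ := blk_uniform hl hq fun X hX => by
    obtain ⟨S'⟩ := hX.sd S
    exact gen_of_three S' hX.three hX.conn (hX.lf hl) (hX.qt hl hq)
  obtain ⟨n, z, h1, hz⟩ := exists_irr hn (L * D + 4 * D + 7)
  obtain ⟨c, hP⟩ := hz.param
  have hn : 4 * D + 7 ≤ n := by omega
  have hX := bx_blk hz hP hn hD
  have hd := dense hz hP hn hD
  generalize BX H D c = X at hX hd
  obtain ⟨ψ, ψ1, ψ2⟩ := exists_psi (G := torso H X) fun a b h => hD _ _ (hX.near h)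
  obtain ⟨k0, -, -, h0⟩ := hd 0
  have key : ∀ m : ℕ, ∀ w : X, w.1 = c (k0 + m) → ∃ p : (torso H X).Walk ⟨c k0, h0⟩ w,
      ψ (wv p) + seg c k0 m ∈ Short H (n - 1) := by
    intro m
    induction m using Nat.strong_induction_on with
    | _ m ih =>
    intro w hw
    rcases Nat.eq_zero_or_pos m with rfl | hm
    · have : w = ⟨c k0, h0⟩ := Subtype.ext (by simpa using hw)
      subst this
      exact ⟨Walk.nil, by simp [seg_zero]⟩
    obtain ⟨j, j1, j2, j3⟩ := greatest_le (fun j => c j ∈ X) (k0 + m - 1) ⟨k0, by omega, h0⟩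
    have j4 : k0 ≤ j := by
      by_contra h
      exact j3 k0 (by omega) (by omega) h0
    have j5 : k0 + m ≤ j + D + 1 := by
      by_contra h
      obtain ⟨i, i1, i2, i3⟩ := hd (j + 1)
      exact j3 i (by omega) (by omega) i3
    obtain ⟨p, hp⟩ := ih (j - k0).toNat (by omega) ⟨c j, j2⟩ (by
      show c j = _
      congr 1; omega)
    have hadj : (torso H X).Adj ⟨c j, j2⟩ w := by
      refine ⟨fun h => ?_, ?_⟩
      · exact hP.ne (i := j) (j := k0 + m) (by omega) (by omega)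
          ((congrArg Subtype.val h).trans hw)
      · rw [hw]
        by_cases h : j + 1 = k0 + m
        · exact Or.inl (h ▸ hP.adj j)
        · exact Or.inr ⟨c (j + 1), c (k0 + m - 1), hP.adj j, hP.adj' _,
            RS.seqZ c (by omega) (fun t _ _ => hP.adj t) fun t t1 t2 => j3 t (by omega) t2⟩
    obtain ⟨q, q1, q2⟩ := ψ1 _ _ hadj
    refine ⟨p.append (Walk.cons hadj Walk.nil), ?_⟩
    have k1 := seg_short hP.adj (i := j) (j := k0 + m) (by omega) rfl hw q (L := n - 1) (by omega)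
    have k2 := seg_add c k0 (j - k0).toNat (k0 + m - j).toNat
    rw [show (j - k0).toNat + (k0 + m - j).toNat = m by omega,
      show k0 + ((j - k0).toNat : ℤ) = j by omega] at k2
    rw [wv_append, wv_cons, wv_nil, add_zero, map_add, ← q2, k2, add_add_add_comm]
    exact add_mem hp k1
  obtain ⟨p, hp⟩ := key n ⟨c k0, h0⟩ (hP.per1 k0).symm
  rw [hP.seg_full] at hp
  have k1 := Short.mono (L' := n - 1) (by omega) (ψ2 L _ (hL X hX _ (isEven_wv p)))
  apply hz.new
  have := add_mem k1 hp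
  rwa [← add_assoc, chadd, zero_add] at this

theorem Planar.gen (hp : Planar H) (hl : ∀ v, (H.neighborSet v).Finite)
    (hq : QuasiTransitive H) : ∃ L, Gen H L := by
  obtain ⟨S⟩ := hp.sd
  exact gen_of_sd S hl hq

end Pool.Agent.H599Z.QT
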