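import Pool.Agent.H599Z.QT.Cross

set_option autoImplicit false

namespace Pool.Agent.H599Z.QT

open SimpleGraph
open scoped Classical

variable {V : Type} {G : SimpleGraph V} {D : Dual G}

structure Fam (D : Dual G) (N : ℕ) (A : Set (Ch V)) : Prop where
  irr : ∀ z ∈ A, ∃ n ≤ N, Irr G n z
  inv : ∀ z ∈ A, ∀ g : G ≃g G, cm g z ∈ A
  nc : ∀ z ∈ A, ∀ y ∈ A, ¬ Cross D z y
  hit : ∀ n ≤ N, ∀ z, Irr G n z → ∃ y ∈ A, Irr G n y

lemma long_of_not_short {n : ℕ} {z : Ch V} (hz : IsEven G z) (h : z ∉ Short G (n - 1)) :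
    n ≤ z.support.card := by
  by_contra hn
  exact h (even_short _ z hz (by omega))

lemma cross_cor1 {a b : D.F → ZMod 2} {z y x w : Ch V} {s t : ZMod 2} (ha : D.Pot a z)
    (hb : D.Pot b y) (hf : Four a b) (hx : D.Pot (cor a b s t) x) (h : Cross D w x) :
    Cross D w z ∨ Cross D w y := by
  obtain ⟨d, -, hd, -⟩ := id h
  rcases four_cor1 hf (h.four hd hx) with h1 | h1
  · exact Or.inl ⟨d, a, hd, ha, h1⟩
  · exact Or.inr ⟨d, b, hd, hb, h1⟩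

lemma cross_cor2 {a b : D.F → ZMod 2} {z y x x' w : Ch V} {s t : ZMod 2} (ha : D.Pot a z)
    (hb : D.Pot b y) (hx : D.Pot (cor a b s t) x) (hx' : D.Pot (cor a b (s + 1) (t + 1)) x')
    (h : Cross D w x) (h' : Cross D w x') : Cross D w z ∧ Cross D w y := by
  obtain ⟨d, -, hd, -⟩ := id h
  obtain ⟨h1, h2⟩ := four_cor2 (h.four hd hx) (h'.four hd hx')
  exact ⟨⟨d, a, hd, ha, h1⟩, ⟨d, b, hd, hb, h2⟩⟩

lemma cross_cor3 {a b : D.F → ZMod 2} {z x : Ch V} {s t : ZMod 2} (ha : D.Pot a z)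
    (hx : D.Pot (cor a b s t) x) : ¬ Cross D z x := fun h => four_cor3 (h.four ha hx)

lemma Fam.first (hl : ∀ v, (G.neighborSet v).Finite) {N : ℕ} {A : Set (Ch V)} (hA : Fam D N A)
    {z0 : Ch V} (h0 : Irr G (N + 1) z0) : ∃ B, Irr G (N + 1) B ∧ ∀ y ∈ A, ¬ Cross D y B := by
  obtain ⟨B, hB, hmin⟩ := (measure fun B : Ch V => {y ∈ A | Cross D y B}.ncard).wf.has_min
    {B | Irr G (N + 1) B} ⟨z0, h0⟩
  have hB : Irr G (N + 1) B := hB
  refine ⟨B, hB, fun y hy hc => ?_⟩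
  obtain ⟨m, hm, hym⟩ := hA.irr y hy
  obtain ⟨a, b, ha, hb, hf⟩ := id hc
  obtain ⟨dl, h1, h2, h3, h4⟩ := ha.corner hb
  have ys : y ∈ Short G N := even_short _ _ hym.even (hym.card ▸ hm)
  have hBn : B ∉ Short G N := hB.new
  obtain ⟨s, hs⟩ : ∃ s, dl s 0 ∉ Short G N := by
    by_contra hn
    push Not at hn
    exact hBn (h3 0 ▸ add_mem (hn 0) (hn 1))
  have hs' : ∀ t, dl s t ∉ Short G N := by
    intro t
    rcases z2 t with rfl | rfl
    · exact hs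
    · intro h5
      apply hs
      have : dl s 0 = y + dl s 1 := by rw [← h2 s, add_assoc, chadd, add_zero]
      exact this ▸ add_mem ys h5
  obtain ⟨t, ht⟩ : ∃ t, dl (s + 1) (t + 1) ∉ Short G (m - 1) := by
    by_contra hn
    push Not at hn
    apply hym.new
    rw [← h2 (s + 1)]
    exact add_mem (hn 1) (hn 0)
  have k1 := long_of_not_short (h1 _ _).even ht
  have k2 := long_of_not_short (n := N + 1) (h1 _ _).even (hs' t)
  have k3 := h4 s t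
  rw [hym.card, hB.card] at k3
  have hC : Irr G (N + 1) (dl s t) := ⟨(h1 _ _).even, by omega, hs' t⟩
  apply hmin _ hC
  show {y ∈ A | Cross D y (dl s t)}.ncard < {y ∈ A | Cross D y B}.ncard
  refine Set.ncard_lt_ncard ⟨?_, fun h5 => ?_⟩ (finite_cross hl hB N A hA.irr)
  · rintro w ⟨w1, w2⟩
    exact ⟨w1, (cross_cor1 ha hb hf (h1 s t) w2).resolve_left (hA.nc w w1 y hy)⟩
  · exact cross_cor3 ha (h1 s t) (h5 ⟨hy, hc⟩).2

lemma Fam.step (h3 : ThreeConn G) (hl : ∀ v, (G.neighborSet v).Finite) {N : ℕ} {A : Set (Ch V)}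
    (hA : Fam D N A) : ∃ A', Fam D (N + 1) A' := by
  by_cases h0 : ∃ z, Irr G (N + 1) z
  swap
  · refine ⟨A, fun z hz => ?_, hA.inv, hA.nc, fun n hn z hz => ?_⟩
    · obtain ⟨n, h1, h2⟩ := hA.irr z hz
      exact ⟨n, by omega, h2⟩
    · rcases hn.eq_or_lt with rfl | h1
      · exact absurd ⟨z, hz⟩ h0
      · exact hA.hit n (by omega) z hz
  obtain ⟨z0, h0⟩ := h0
  let J : Set (Ch V) := {B | Irr G (N + 1) B ∧ ∀ y ∈ A, ¬ Cross D y B}
  have Jirr : ∀ y ∈ J, ∃ m ≤ N + 1, Irr G m y := fun y hy => ⟨_, le_rfl, hy.1⟩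
  have Jinv : ∀ B ∈ J, ∀ g : G ≃g G, cm g B ∈ J := by
    intro B hB g
    refine ⟨hB.1.cm g, fun y hy hc => ?_⟩
    obtain ⟨m, -, hm⟩ := hA.irr y hy
    have := hc.map h3 hm g.symm
    rw [cm_symm] at this
    exact hB.2 _ (hA.inv y hy _) this
  let μ : Ch V → ℕ := fun B => {y ∈ J | Cross D y B}.ncard
  have fin : ∀ B ∈ J, {y ∈ J | Cross D y B}.Finite := fun B hB => finite_cross hl hB.1 _ J Jirr
  obtain ⟨B0, hB0, hmin⟩ := (measure μ).wf.has_min J (hA.first hl h0)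
  have hmin : ∀ B ∈ J, μ B0 ≤ μ B := fun B hB => not_lt.1 (hmin B hB)
  refine ⟨A ∪ {B | B ∈ J ∧ μ B ≤ μ B0}, ?_, ?_, ?_, ?_⟩
  · rintro z (hz | hz)
    · obtain ⟨n, h1, h2⟩ := hA.irr z hz
      exact ⟨n, by omega, h2⟩
    · exact Jirr z hz.1
  · rintro z (hz | hz) g
    · exact Or.inl (hA.inv z hz g)
    · refine Or.inr ⟨Jinv z hz.1 g, le_trans ?_ hz.2⟩
      refine Set.ncard_le_ncard_of_injOn (cm g.symm) ?_ ?_ (fin z hz.1)
      · rintro y ⟨y1, y2⟩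
        have := y2.map h3 y1.1 g.symm
        rw [cm_symm] at this
        exact ⟨Jinv y y1 _, this⟩
      · intro y _ y' _ h
        have h1 := cm_symm g.symm y
        have h2 := cm_symm g.symm y'
        rw [← h1, ← h2, h]
  · rintro z (hz | hz) y (hy | hy) hc
    · exact hA.nc z hz y hy hc
    · exact hy.1.2 z hz hc
    · exact hz.1.2 y hy hc.symm
    · obtain ⟨a, b, ha, hb, hf⟩ := id hc
      obtain ⟨dl, h1, h2, h4, h5⟩ := ha.corner hb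
      have zn : z ∉ Short G N := hz.1.1.new
      have yn : y ∉ Short G N := hy.1.1.new
      have r : ∀ s, dl s 0 ∉ Short G N ∨ dl s 1 ∉ Short G N := fun s => by
        by_contra hn
        push Not at hn
        exact zn (h2 s ▸ add_mem hn.1 hn.2)
      have c : ∀ t, dl 0 t ∉ Short G N ∨ dl 1 t ∉ Short G N := fun t => by
        by_contra hn
        push Not at hn
        exact yn (h4 t ▸ add_mem hn.1 hn.2)
      obtain ⟨s, t, k1, k2⟩ : ∃ s t, dl s t ∉ Short G N ∧ dl (s + 1) (t + 1) ∉ Short G N := by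
        by_contra hn
        push Not at hn
        have n1 := hn 0 0
        have n2 := hn 0 1
        have e1 : (0 : ZMod 2) + 1 = 1 := rfl
        have e2 : (1 : ZMod 2) + 1 = 0 := rfl
        rw [e1] at n1
        rw [e1, e2] at n2
        have := r 0
        have := r 1
        have := c 0
        have := c 1
        tauto
      have l1 := long_of_not_short (n := N + 1) (h1 _ _).even k1
      have l2 := long_of_not_short (n := N + 1) (h1 _ _).even k2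
      have l3 := h5 s t
      rw [hz.1.1.card, hy.1.1.card] at l3
      have inJ : ∀ s t, dl s t ∉ Short G N → (dl s t).support.card = N + 1 → dl s t ∈ J :=
        fun s t m1 m2 => ⟨⟨(h1 _ _).even, m2, m1⟩, fun w hw hc' =>
          (cross_cor1 ha hb hf (h1 s t) hc').elim (hz.1.2 w hw) (hy.1.2 w hw)⟩
      have E1 := inJ s t k1 (by omega)
      have E2 := inJ _ _ k2 (by omega)
      have u1 := Set.ncard_union_add_ncard_inter _ _ (fin _ E1) (fin _ E2)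
      have u2 := Set.ncard_union_add_ncard_inter _ _ (fin _ hz.1) (fin _ hy.1)
      have u3 : ({w ∈ J | Cross D w (dl s t)} ∪ {w ∈ J | Cross D w (dl (s + 1) (t + 1))}).ncard <
          ({w ∈ J | Cross D w z} ∪ {w ∈ J | Cross D w y}).ncard := by
        refine Set.ncard_lt_ncard ⟨?_, fun h6 => ?_⟩ ((fin _ hz.1).union (fin _ hy.1))
        · rintro w (⟨w1, w2⟩ | ⟨w1, w2⟩) <;>
          · exact (cross_cor1 ha hb hf (h1 _ _) w2).imp (fun h => ⟨w1, h⟩) (fun h => ⟨w1, h⟩)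
        · rcases h6 (Or.inr ⟨hz.1, hc⟩) with h7 | h7 <;> exact cross_cor3 ha (h1 _ _) h7.2
      have u4 : ({w ∈ J | Cross D w (dl s t)} ∩ {w ∈ J | Cross D w (dl (s + 1) (t + 1))}).ncard ≤
          ({w ∈ J | Cross D w z} ∩ {w ∈ J | Cross D w y}).ncard := by
        refine Set.ncard_le_ncard ?_ ((fin _ hz.1).inter_of_left _)
        rintro w ⟨⟨w1, w2⟩, ⟨-, w3⟩⟩
        obtain ⟨m1, m2⟩ := cross_cor2 ha hb (h1 _ _) (h1 _ _) w2 w3
        exact ⟨⟨w1, m1⟩, ⟨w1, m2⟩⟩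
      have v1 := hmin _ E1
      have v2 := hmin _ E2
      have v3 := hz.2
      have v4 := hy.2
      simp only [μ] at v1 v2 v3 v4
      omega
  · intro n hn z hz
    rcases hn.eq_or_lt with rfl | h1
    · exact ⟨B0, Or.inr ⟨hB0, le_rfl⟩, hB0.1⟩
    · obtain ⟨y, y1, y2⟩ := hA.hit n (by omega) z hz
      exact ⟨y, Or.inl y1, y2⟩

lemma exists_fam (D : Dual G) (h3 : ThreeConn G) (hl : ∀ v, (G.neighborSet v).Finite) (N : ℕ) :
    ∃ A, Fam D N A := by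
  induction N with
  | zero =>
    refine ⟨∅, by simp, by simp, by simp, fun n hn z hz => ?_⟩
    obtain ⟨c, hc⟩ := hz.param
    have := hc.three
    omega
  | succ N ih =>
    obtain ⟨A, hA⟩ := ih
    exact hA.step h3 hl

def Ext (D : Dual G) (A : Set (Ch V)) (z : Ch V) (f g : Sym2 V) : Prop :=
  z ∈ A ∧ z f ≠ 0 ∧ z g ≠ 0 ∧ ∀ a, D.Pot a z → ∀ y1 ∈ A, ∀ y2 ∈ A, y1 f ≠ 0 → y1 g ≠ 0 →
    y2 f ≠ 0 → y2 g ≠ 0 → ∀ e1 e2, y1 e1 ≠ 0 → z e1 = 0 → y2 e2 ≠ 0 → z e2 = 0 →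
      a (D.l e1) = a (D.l e2)

lemma Irr.off {n m : ℕ} {z y : Ch V} (hz : Irr G n z) (hy : Irr G m y) (h : y ≠ z) :
    ∃ e, y e ≠ 0 ∧ z e = 0 := by
  by_contra hn
  push Not at hn
  rcases hz.min hy.even hn with h1 | h1
  · exact hy.ne h1
  · exact h h1

lemma pot_norm (D : Dual G) {z : Ch V} (hz : IsEven G z) (f : D.F) (s : ZMod 2) :
    ∃ a, D.Pot a z ∧ a f = s := by
  obtain ⟨a, ha⟩ := D.d4 z hz
  exact ⟨fun x => a x + (a f + s), Dual.Pot.shift ha _, by grind⟩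

variable {N : ℕ} {A : Set (Ch V)}

lemma Fam.ext1 (hl : ∀ v, (G.neighborSet v).Finite) (hA : Fam D N A) {z : Ch V} (hz : z ∈ A) :
    ∃ w f g, w ∈ f ∧ w ∈ g ∧ Ext D A z f g := by
  by_contra hn
  push Not at hn
  obtain ⟨n, -, hzn⟩ := hA.irr z hz
  obtain ⟨a, ha⟩ := D.d4 z hzn.even
  have ha : D.Pot a z := ha
  have ev : ∀ y ∈ A, IsEven G y := fun y hy => by
    obtain ⟨m, -, h⟩ := hA.irr y hy
    exact h.even
  have zf : ∀ f, z f ≠ 0 → ∃ x x', a x = 0 ∧ ∀ (b : D.F → ZMod 2) (y : Ch V), D.Pot b y →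
      y f = b x + b x' := by
    intro f hf
    have h1 := ha f
    by_cases h2 : a (D.l f) = 0
    · exact ⟨_, D.r f, h2, fun b y hb => hb f⟩
    · refine ⟨D.r f, D.l f, ?_, fun b y hb => by rw [hb f, add_comm]⟩
      rw [z2ne hf, z2ne h2] at h1
      grind
  have key : ∀ w f g, w ∈ f → w ∈ g → z f ≠ 0 → z g ≠ 0 → ∃ y ∈ A, y f ≠ 0 ∧ y g ≠ 0 ∧ y ≠ z ∧
      ∃ b, D.Pot b y ∧ ∀ x, a x = 0 → b x = 1 := by
    intro w f g wf wg hf hg
    have := hn w f g wf wg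
    simp only [Ext, not_and, not_forall] at this
    obtain ⟨a', ha', y1, m1, y2, m2, f1, g1, f2, g2, e1, e2, k1, k2, k3, k4, k5⟩ := this hz hf hg
    obtain ⟨k, hk⟩ := ha.uniq ha'
    obtain ⟨y, m, f3, g3, e, k6, k7, k8⟩ : ∃ y ∈ A, y f ≠ 0 ∧ y g ≠ 0 ∧
        ∃ e, y e ≠ 0 ∧ z e = 0 ∧ a (D.l e) = 1 := by
      by_cases h : a (D.l e1) = 1
      · exact ⟨y1, m1, f1, g1, e1, k1, k2, h⟩
      · refine ⟨y2, m2, f2, g2, e2, k3, k4, ?_⟩
        rw [hk, hk] at k5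
        rcases z2 (a (D.l e2)) with h1 | h1
        · exact absurd (by rw [h1, (z2 _).resolve_right h]) k5
        · exact h1
    obtain ⟨x0, -, hx0, -⟩ := zf f hf
    obtain ⟨b, hb, hb0⟩ := pot_norm D (ev y m) x0 1
    refine ⟨y, m, f3, g3, fun h => k6 (h ▸ k7), b, hb, fun x hx => ?_⟩
    by_contra h1
    refine hA.nc z hz y m ⟨a, b, ha, hb, fun s t => ?_⟩
    rcases z2 s with rfl | rfl
    · rcases z2 t with rfl | rfl
      · exact ⟨x, hx, (z2 _).resolve_right h1⟩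
      · exact ⟨x0, hx0, hb0⟩
    · have p1 := ha e
      have p2 := hb e
      rw [k7, k8] at p1
      rw [z2ne k6] at p2
      by_cases h2 : b (D.l e) = t
      · exact ⟨_, k8, h2⟩
      · refine ⟨D.r e, by grind, ?_⟩
        rw [z2succ h2] at p2
        grind
  let Y : Set (Ch V) := {y | y ∈ A ∧ (∃ e, y e ≠ 0 ∧ z e ≠ 0) ∧ y ≠ z ∧
    ∃ b, D.Pot b y ∧ ∀ x, a x = 0 → b x = 1}
  have Yfin : Y.Finite := (finite_touch hl z N).subset fun y hy => by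
    obtain ⟨m, m1, m2⟩ := hA.irr y hy.1
    obtain ⟨e, e1, e2⟩ := hy.2.1
    exact ⟨m, m1, m2, e.out.1, ⟨e, e2, e.out_fst_mem⟩, e, e1, e.out_fst_mem⟩
  obtain ⟨c, hc⟩ := hzn.param
  have Yne : Y.Nonempty := by
    obtain ⟨y, y1, y2, -, y3⟩ := key (c 0) _ _ (by simp) (by simp) (hc.nz 0) (hc.nz 0)
    exact ⟨y, y1, ⟨_, y2, hc.nz 0⟩, y3⟩
  let φ : Ch V → Set D.F := fun y => {x | ∀ b, D.Pot b y → (∀ x, a x = 0 → b x = 1) → b x = 1}
  have hφ : ∀ y b, D.Pot b y → (∀ x, a x = 0 → b x = 1) → ∀ x, x ∈ φ y ↔ b x = 1 := by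
    intro y b hb h1 x
    refine ⟨fun h => h b hb h1, fun h b' hb' h2 => ?_⟩
    obtain ⟨k, hk⟩ := hb.uniq hb'
    obtain ⟨x0, -, hx0, -⟩ := zf _ (hc.nz 0)
    have p1 := hk x0
    rw [h1 x0 hx0, h2 x0 hx0] at p1
    rw [hk, h]
    exact p1.symm
  obtain ⟨y, ⟨y1, ⟨e0, y2, y2'⟩, y3, b, hb, hb1⟩, hmin⟩ := Yfin.exists_minimalFor φ Y Yne
  obtain ⟨m, -, hym⟩ := hA.irr y y1
  obtain ⟨w, f, g, wf, wg, zf', zg, yf, yg⟩ : ∃ w f g, w ∈ f ∧ w ∈ g ∧ z f ≠ 0 ∧ z g ≠ 0 ∧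
      y f ≠ 0 ∧ y g = 0 := by
    by_contra h1
    push Not at h1
    rcases hzn.min (even_filter hzn.even (fun e => y e ≠ 0) h1)
      (fun e he h0 => he (by simp [Finsupp.filter_apply, h0])) with h2 | h2
    · have := DFunLike.congr_fun h2 e0
      rw [Finsupp.filter_apply, if_pos y2] at this
      exact y2' this
    · obtain ⟨e, e1, e2⟩ := hym.off hzn y3.symm
      have := DFunLike.congr_fun h2 e
      rw [Finsupp.filter_apply, if_neg (fun h => h e2)] at this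
      exact e1 this.symm
  obtain ⟨y', m1, m2, m3, m4, b', hb', hb2⟩ := key w f g wf wg zf' zg
  obtain ⟨p, p', hp, hp'⟩ := zf f zf'
  obtain ⟨q, q', hq, hq'⟩ := zf g zg
  have t1 := hp' b y hb
  have t2 := hp' b' y' hb'
  have t3 := hq' b y hb
  have t4 := hq' b' y' hb'
  rw [z2ne yf, hb1 p hp] at t1
  rw [z2ne m2, hb2 p hp] at t2
  rw [yg, hb1 q hq] at t3
  rw [z2ne m3, hb2 q hq] at t4
  have sub : φ y' ≤ φ y := by
    intro x hx
    rw [hφ y' b' hb' hb2] at hx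
    rw [hφ y b hb hb1]
    by_contra h1
    refine hA.nc y y1 y' m1 ⟨b, b', hb, hb', fun s t => ?_⟩
    rcases z2 s with rfl | rfl <;> rcases z2 t with rfl | rfl
    · exact ⟨p', by grind, by grind⟩
    · exact ⟨x, (z2 _).resolve_right h1, hx⟩
    · exact ⟨q', by grind, by grind⟩
    · exact ⟨p, hb1 p hp, hb2 p hp⟩
  have := hmin (j := y') ⟨m1, ⟨f, m2, zf'⟩, m4, b', hb', hb2⟩ sub
    ((hφ y b hb hb1 q').2 (by grind))
  rw [hφ y' b' hb' hb2] at this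
  grind

lemma Ext.map (h3 : ThreeConn G) (hA : Fam D N A) {z : Ch V} {f g : Sym2 V} (h : Ext D A z f g)
    (k : G ≃g G) : Ext D A (cm k z) (Sym2.map k f) (Sym2.map k g) := by
  obtain ⟨h1, h2, h4, h5⟩ := h
  obtain ⟨n, -, hz⟩ := hA.irr z h1
  refine ⟨hA.inv z h1 k, by rwa [cm_apply k.injective], by rwa [cm_apply k.injective], ?_⟩
  intro a' ha' y1 m1 y2 m2 f1 g1 f2 g2 e1 e2 k1 k2 k3 k4
  by_contra hne
  obtain ⟨a, ha⟩ := D.d4 z hz.even
  have ha : D.Pot a z := ha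
  obtain ⟨n1, -, i1⟩ := hA.irr y1 m1
  obtain ⟨n2, -, i2⟩ := hA.irr y2 m2
  have r : ∀ (y : Ch V) e, cm k.symm y e = y (Sym2.map k e) := fun y e => cm_iso k.symm y e
  refine D.inv h3 (hz.cm k) k.symm ha' (by rwa [cm_symm]) ⟨i1.even.1 _ k1, k2⟩
    ⟨i2.even.1 _ k3, k4⟩ hne ?_
  refine h5 a ha _ (hA.inv y1 m1 k.symm) _ (hA.inv y2 m2 k.symm) (by rwa [r]) (by rwa [r])
    (by rwa [r]) (by rwa [r]) _ _ (by rwa [r, map_symm]) (by rwa [← cm_iso])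
    (by rwa [r, map_symm]) (by rwa [← cm_iso])

lemma Fam.ext3 (hA : Fam D N A) {z1 z2' z3 : Ch V} {f g : Sym2 V} (h1 : Ext D A z1 f g)
    (h2 : Ext D A z2' f g) (h3 : Ext D A z3 f g) (n1 : z1 ≠ z2') (n2 : z1 ≠ z3) (n3 : z2' ≠ z3) :
    False := by
  have pn : ∀ z ∈ A, ∃ a, D.Pot a z ∧ a (D.l f) = 1 := fun z hz => by
    obtain ⟨m, -, h⟩ := hA.irr z hz
    exact pot_norm D h.even _ _
  choose! P hP hP1 using pn
  let le : Ch V → Ch V → Prop := fun y z => ∀ x, P y x = 1 → P z x = 1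
  have tot : ∀ y z, Ext D A y f g → Ext D A z f g → le y z ∨ le z y := by
    intro y z hy hz
    by_contra hn
    simp only [le, not_or, not_forall] at hn
    obtain ⟨⟨x, x1, x2⟩, ⟨x', x3, x4⟩⟩ := hn
    refine hA.nc y hy.1 z hz.1 ⟨_, _, hP y hy.1, hP z hz.1, fun s t => ?_⟩
    have p1 := hP y hy.1 f
    have p2 := hP z hz.1 f
    rw [z2ne hy.2.1, hP1 y hy.1] at p1
    rw [z2ne hz.2.1, hP1 z hz.1] at p2
    rcases z2 s with rfl | rfl <;> rcases z2 t with rfl | rfl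
    · exact ⟨D.r f, by grind, by grind⟩
    · exact ⟨x', (z2 _).resolve_right x4, x3⟩
    · exact ⟨x, x1, (z2 _).resolve_right x2⟩
    · exact ⟨D.l f, hP1 y hy.1, hP1 z hz.1⟩
  have mid : ∀ x y z, Ext D A x f g → Ext D A y f g → Ext D A z f g → x ≠ y → z ≠ y → le x y →
      le y z → False := by
    intro x y z hx hy hz xy zy l1 l2
    obtain ⟨_, -, ix⟩ := hA.irr x hx.1
    obtain ⟨_, -, iy⟩ := hA.irr y hy.1
    obtain ⟨_, -, iz⟩ := hA.irr z hz.1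
    obtain ⟨e1, k1, k2⟩ := iy.off ix xy
    obtain ⟨e2, k3, k4⟩ := iy.off iz zy
    have := hy.2.2.2 _ (hP y hy.1) x hx.1 z hz.1 hx.2.1 hx.2.2.1 hz.2.1 hz.2.2.1 e1 e2 k1 k2 k3 k4
    have p1 := hP x hx.1 e1
    have p2 := hP y hy.1 e1
    have p3 := hP z hz.1 e2
    have p4 := hP y hy.1 e2
    rw [z2ne k1] at p1
    rw [z2ne k3] at p3
    rw [k2] at p2
    rw [k4] at p4
    have q1 := l1 (D.l e1)
    have q2 := l1 (D.r e1)
    have q3 := l2 (D.l e2)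
    have q4 := l2 (D.r e2)
    have r1 : P y (D.l e1) = 1 := by
      rcases z2 (P x (D.l e1)) with h | h
      · have := q2 (by grind)
        grind
      · exact q1 h
    have r2 := q3 (by grind)
    have r3 := q4 (by grind)
    grind
  rcases tot _ _ h1 h2 with a | a <;> rcases tot _ _ h1 h3 with b | b <;>
    rcases tot _ _ h2 h3 with c | c
  · exact mid _ _ _ h1 h2 h3 n1 n3.symm a c
  · exact mid _ _ _ h1 h3 h2 n2 n3 b c
  · exact mid _ _ _ h1 h2 h3 n1 n3.symm a c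
  · exact mid _ _ _ h3 h1 h2 n2.symm n1.symm b a
  · exact mid _ _ _ h2 h1 h3 n1.symm n2.symm a b
  · exact mid _ _ _ h2 h1 h3 n1.symm n2.symm a b
  · exact mid _ _ _ h2 h3 h1 n3 n2 c b
  · exact mid _ _ _ h3 h2 h1 n3.symm n1 c a

theorem gen_of_three (S : SD G) (h3 : ThreeConn G) (hc : ∀ x y, RS G Set.univ x y)
    (hl : ∀ v, (G.neighborSet v).Finite) (hq : QuasiTransitive G) : ∃ L, Gen G L := by
  by_contra hn
  push Not at hn
  obtain ⟨n0, z0, -, h0⟩ := exists_irr hn 0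
  obtain ⟨c0, hc0⟩ := h0.param
  obtain ⟨D⟩ := S.dual h3 hc hl (e0 := s(c0 0, c0 (0 + 1))) (hc0.adj 0)
  obtain ⟨R, hR, hq⟩ := hq
  have hE : {e | e ∈ G.edgeSet ∧ ∃ w ∈ R, w ∈ e}.Finite := by
    refine (hR.biUnion fun w _ => (hl w).image fun u => s(w, u)).subset ?_
    rintro e ⟨e1, w, w1, w2⟩
    obtain ⟨u, rfl⟩ := Sym2.mem_iff_exists.1 w2
    exact Set.mem_biUnion w1 ⟨u, e1, rfl⟩
  let T := (hE.prod hE).toFinset
  have inf : {n | ∃ z, Irr G n z}.Infinite := Set.infinite_of_forall_exists_gt fun L => by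
    obtain ⟨n, z, h1, h2⟩ := exists_irr hn L
    exact ⟨n, ⟨z, h2⟩, h1⟩
  obtain ⟨Λ, hΛ, hcard⟩ := inf.exists_subset_card_eq (T.card * 2 + 1)
  obtain ⟨A, hA⟩ := exists_fam D h3 hl (Λ.sup id)
  have key : ∀ n ∈ Λ, ∃ p ∈ T, ∃ z, Irr G n z ∧ Ext D A z p.1 p.2 := by
    intro n hn
    obtain ⟨z, hz⟩ := hΛ hn
    obtain ⟨y, y1, y2⟩ := hA.hit n (Finset.le_sup (f := id) hn) z hz
    obtain ⟨w, f, g, wf, wg, he⟩ := hA.ext1 hl y1
    obtain ⟨s, hs, k, hk⟩ := hq w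
    have hw : k.symm w = s := by rw [← hk]; simp
    refine ⟨(Sym2.map k.symm f, Sym2.map k.symm g), ?_, _, y2.cm k.symm, he.map h3 hA k.symm⟩
    simp only [T, Set.Finite.mem_toFinset, Set.mem_prod]
    exact ⟨⟨(edge_map_iso _ _).2 (y2.even.1 _ he.2.1), s, hs, hw ▸ (mem_map_iso _ _ _).2 wf⟩,
      ⟨(edge_map_iso _ _).2 (y2.even.1 _ he.2.2.1), s, hs, hw ▸ (mem_map_iso _ _ _).2 wg⟩⟩
  have : Nonempty (Sym2 V × Sym2 V) := ⟨(s(c0 0, c0 0), s(c0 0, c0 0))⟩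
  choose! P hP Z hZ hX using key
  obtain ⟨p, -, hp⟩ := Finset.exists_lt_card_fiber_of_mul_lt_card_of_maps_to (s := Λ) (t := T)
    (n := 2) hP (by omega)
  obtain ⟨a, ha, b, hb, c, hc', ab, ac, bc⟩ := Finset.two_lt_card.1 hp
  rw [Finset.mem_filter] at ha hb hc'
  have ne : ∀ a ∈ Λ, ∀ b ∈ Λ, a ≠ b → Z a ≠ Z b := fun a ha b hb h h1 =>
    h (by rw [← (hZ a ha).card, h1, (hZ b hb).card])
  exact hA.ext3 (ha.2 ▸ hX a ha.1) (hb.2 ▸ hX b hb.1) (hc'.2 ▸ hX c hc'.1) (ne _ ha.1 _ hb.1 ab)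
    (ne _ ha.1 _ hc'.1 ac) (ne _ hb.1 _ hc'.1 bc)

end Pool.Agent.H599Z.QT
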