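import Pool.Agent.H599Z.QT.SData

set_option autoImplicit false

namespace Pool.Agent.H599Z.QT

open SimpleGraph
open scoped Classical

variable {V : Type} {G : SimpleGraph V}

/-- removing two vertices does not disconnect the graph -/
def ThreeConn (G : SimpleGraph V) : Prop :=
  ∀ x y u v : V, u ≠ x → u ≠ y → v ≠ x → v ≠ y → RS G {x, y}ᶜ u v

lemma RS.seqN {S : Set V} (q : ℕ → V) {i j : ℕ} (hij : i ≤ j)
    (ha : ∀ t, i ≤ t → t < j → G.Adj (q t) (q (t + 1))) (hs : ∀ t, i ≤ t → t ≤ j → q t ∈ S) :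
    RS G S (q i) (q j) := by
  induction j, hij using Nat.le_induction with
  | base => exact RS.refl (hs i le_rfl le_rfl)
  | succ j hj ih =>
    exact (ih (fun t h1 h2 => ha t h1 (by omega)) (fun t h1 h2 => hs t h1 (by omega))).trans
      (RS.adj (ha j hj (by omega)) (hs j hj (by omega)) (hs _ (by omega) le_rfl))

def Linked (G : SimpleGraph V) (v a b c d : V) : Prop :=
  ∃ S1 S2 : Set V, Disjoint S1 S2 ∧ v ∉ S1 ∧ v ∉ S2 ∧ RS G S1 a b ∧ RS G S2 c d

lemma Linked.swap {v a b c d : V} (h : Linked G v a b c d) : Linked G v a b d c := by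
  obtain ⟨S1, S2, h1, h2, h3, h4, h5⟩ := h
  exact ⟨S1, S2, h1, h2, h3, h4, h5.symm⟩

lemma RS.self {T : Set V} {x w : V} (h : RS G T x w) : RS G {u | RS G T x u} x w := by
  refine (h.ind (fun u => RS G T x u ∧ RS G {u | RS G T x u} x u)
    ⟨RS.refl h.left, RS.refl (RS.refl h.left)⟩ ?_).2
  rintro a b ha hb hab ⟨h1, h2⟩
  have := h1.trans (RS.adj hab ha hb)
  exact ⟨this, h2.trans (RS.adj hab h1 this)⟩

lemma link0 (h3 : ThreeConn G) {v c d : V} (q : ℕ → V) (n : ℕ) (hn : 0 < n)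
    (inj : ∀ i j, i ≤ n → j ≤ n → q i = q j → i = j)
    (ha : ∀ t, t < n → G.Adj (q t) (q (t + 1))) (hv : ∀ t, t ≤ n → q t ≠ v)
    (hc : ∀ t, t ≤ n → q t ≠ c) (hd : ∀ t, t ≤ n → q t ≠ d) (hcv : c ≠ v) (hdv : d ≠ v) :
    Linked G v (q 0) (q n) c d ∨ Linked G v (q 0) c (q n) d ∨ Linked G v (q 0) d (q n) c := by
  set T : Set V := {w | w ≠ v ∧ ∀ t, t ≤ n → q t ≠ w} with hT
  by_cases hcd : RS G T c d
  · left
    refine ⟨{w | ∃ t, t ≤ n ∧ q t = w}, T, ?_, ?_, fun h => h.1 rfl, ?_, hcd⟩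
    · rw [Set.disjoint_left]
      rintro _ ⟨t, h1, rfl⟩ h2
      exact h2.2 t h1 rfl
    · rintro ⟨t, h1, h2⟩; exact hv t h1 h2
    · exact RS.seqN q (Nat.zero_le n) (fun t _ h => ha t h) (fun t _ h => ⟨t, h, rfl⟩)
  right
  have att : ∀ x, x ∈ T → ∀ j, j ≤ n → ∃ i, i ≤ n ∧ i ≠ j ∧ ∃ w, RS G T x w ∧ G.Adj w (q i) := by
    intro x hx j hj
    obtain ⟨k, hk, hkj⟩ : ∃ k, k ≤ n ∧ k ≠ j := by
      by_cases h : j = 0
      · exact ⟨n, le_rfl, by omega⟩
      · exact ⟨0, by omega, by omega⟩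
    have h1 := h3 v (q j) x (q k) hx.1 (hx.2 j hj).symm (hv k hk)
      (fun h => hkj (inj _ _ hk hj h))
    have h2 := h1.ind (fun u => RS G T x u ∨
      ∃ i, i ≤ n ∧ i ≠ j ∧ ∃ w, RS G T x w ∧ G.Adj w (q i)) (Or.inl (RS.refl hx)) (by
        rintro a b - hb hab (h | h)
        · simp only [Set.mem_compl_iff, Set.mem_insert_iff, Set.mem_singleton_iff, not_or] at hb
          by_cases hb' : ∃ t, t ≤ n ∧ q t = b
          · obtain ⟨t, h4, rfl⟩ := hb'
            exact Or.inr ⟨t, h4, fun h5 => hb.2 (by rw [h5]), a, h, hab⟩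
          · push Not at hb'
            exact Or.inl (h.trans (RS.adj hab h.right ⟨hb.1, hb'⟩))
        · exact Or.inr h)
    exact h2.resolve_left fun h => h.right.2 k hk rfl
  have link1 : ∀ x y i j, ¬ RS G T x y → i < j → j ≤ n → (∃ w, RS G T x w ∧ G.Adj w (q i)) →
      (∃ w, RS G T y w ∧ G.Adj w (q j)) → Linked G v (q 0) x (q n) y := by
    rintro x y i j hxy hij hj ⟨w, w1, w2⟩ ⟨w', w1', w2'⟩
    refine ⟨{u | RS G T x u} ∪ {u | ∃ t, t ≤ i ∧ q t = u},
      {u | RS G T y u} ∪ {u | ∃ t, j ≤ t ∧ t ≤ n ∧ q t = u}, ?_, ?_, ?_, ?_, ?_⟩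
    · rw [Set.disjoint_left]
      rintro u (h1 | ⟨t, h1, rfl⟩) (h2 | ⟨t', h2, h4, h5⟩)
      · exact hxy (h1.trans h2.symm)
      · exact (RS.right h1).2 t' h4 h5
      · exact (RS.right h2).2 t (by omega) rfl
      · have := inj _ _ h4 (by omega) h5
        omega
    · rintro (h1 | ⟨t, h1, h2⟩)
      · exact (RS.right h1).1 rfl
      · exact hv t (by omega) h2
    · rintro (h1 | ⟨t, h1, h4, h2⟩)
      · exact (RS.right h1).1 rfl
      · exact hv t h4 h2
    · refine (RS.seqN q (Nat.zero_le i) (fun t _ h => ha t (by omega))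
        (fun t _ h => Or.inr ⟨t, h, rfl⟩)).trans ?_
      exact (RS.adj w2.symm (Or.inr ⟨i, le_rfl, rfl⟩) (Or.inl w1)).trans
        (w1.self.symm.mono Set.subset_union_left)
    · refine (RS.seqN q hj (fun t _ h => ha t h)
        (fun t h h' => Or.inr ⟨t, h, h', rfl⟩)).symm.trans ?_
      exact (RS.adj w2'.symm (Or.inr ⟨j, le_rfl, hj, rfl⟩) (Or.inl w1')).trans
        (w1'.self.symm.mono Set.subset_union_left)
  obtain ⟨j, hj, -, hw'⟩ := att d ⟨hdv, hd⟩ 0 (Nat.zero_le n)
  obtain ⟨i, hi, hij, hw⟩ := att c ⟨hcv, hc⟩ j hj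
  rcases lt_or_gt_of_ne hij with h | h
  · exact Or.inl (link1 c d i j hcd h hj hw hw')
  · exact Or.inr (link1 d c j i (fun h => hcd h.symm) h hi hw' hw)

lemma link (h3 : ThreeConn G) {v a b c d : V} (ha : a ≠ v) (hb : b ≠ v) (hc : c ≠ v) (hd : d ≠ v)
    (hab : a ≠ b) (hac : a ≠ c) (had : a ≠ d) (hbc : b ≠ c) (hbd : b ≠ d) :
    Linked G v a b c d ∨ Linked G v a c b d ∨ Linked G v a d b c := by
  obtain ⟨p, hp, hs⟩ := (h3 v c a b ha hac hb hbc).path
  have inj : ∀ i j, i ≤ p.length → j ≤ p.length → p.getVert i = p.getVert j → i = j :=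
    fun i j h1 h2 h => hp.getVert_injOn h1 h2 h
  have hs' : ∀ t, p.getVert t ≠ v ∧ p.getVert t ≠ c := fun t => by
    simpa using hs _ (p.getVert_mem_support t)
  by_cases hdp : ∃ k, k < p.length ∧ p.getVert k = d
  · obtain ⟨k, hk, hkd⟩ := hdp
    have hk0 : 0 < k := by
      rcases Nat.eq_zero_or_pos k with rfl | h
      · exact absurd (by simpa using hkd) had
      · exact h
    have := link0 h3 (v := v) (c := c) (d := b) p.getVert k hk0
      (fun i j h1 h2 => inj i j (by omega) (by omega))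
      (fun t h => p.adj_getVert_succ (by omega)) (fun t _ => (hs' t).1) (fun t _ => (hs' t).2)
      (fun t h h1 => by
        have := inj t p.length (by omega) le_rfl (by simpa using h1)
        omega) hc hb
    rw [hkd, p.getVert_zero] at this
    rcases this with h | h | h
    · exact Or.inr (Or.inr h.swap)
    · exact Or.inr (Or.inl h.swap)
    · exact Or.inl h.swap
  · push Not at hdp
    have hl : 0 < p.length := by
      rcases Nat.eq_zero_or_pos p.length with h | h
      · exact absurd (Walk.eq_of_length_eq_zero h) hab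
      · exact h
    have := link0 h3 (v := v) (c := c) (d := d) p.getVert p.length hl inj
      (fun t h => p.adj_getVert_succ h) (fun t _ => (hs' t).1) (fun t _ => (hs' t).2)
      (fun t h => by
        rcases h.eq_or_lt with rfl | h
        · simpa using hbd
        · exact hdp t h) hc hd
    simpa using this

lemma SD.along (D : SD G) {z : Ch V} (hz : IsEven G z) {S : Set V} {x y : V} (h : RS G S x y)
    (hS : ∀ w ∈ S, Off w z) : D.sv x z = D.sv y z :=
  h.ind (fun u => D.sv x z = D.sv u z) rfl (fun a b ha hb hab h1 => by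
    rw [h1, ← D.t1 z hz a b hab (hS a ha), Sym2.eq_swap, D.t1 z hz b a hab.symm (hS b hb)])

lemma At.off {v a b : V} {y z : Ch V} (hy : At v y a b) (hz : At v z a b) : Off v (y + z) :=
  off_iff.2 fun u => by rw [Finsupp.add_apply, hy, hz, z2add]

lemma At.symm {v a b : V} {y : Ch V} (hy : At v y a b) : At v y b a :=
  fun u => by rw [hy, add_comm]

lemma close_walk {v a b : V} (ha : G.Adj v a) (hb : G.Adj v b) (p : G.Walk a b)
    (hv : v ∉ p.support) : IsEven G (sg s(v, a) + sg s(v, b) + wv p) ∧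
      At v (sg s(v, a) + sg s(v, b) + wv p) a b := by
  refine ⟨⟨((onE_sg ha).add (onE_sg hb)).add (onE_wv p), fun x => ?_⟩, fun u => ?_⟩
  · rw [map_add, map_add, bd_sg _ _ _ ha.ne, bd_sg _ _ _ hb.ne, bd_wv]
    generalize (if x = v then (1 : ZMod 2) else 0) = t1
    generalize (if x = a then (1 : ZMod 2) else 0) = t2
    generalize (if x = b then (1 : ZMod 2) else 0) = t3
    revert t1 t2 t3; decide
  · rw [Finsupp.add_apply, Finsupp.add_apply, sg_at, sg_at, off_wv p hv _ (by simp), add_zero]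

lemma off_sg {w a b : V} (ha : w ≠ a) (hb : w ≠ b) : Off w (sg s(a, b)) := by
  intro e he
  rw [sg_apply, if_neg]
  rintro rfl
  simp [ha, hb] at he

lemma SD.nosep (D : SD G) {v a b c d : V} (ha : G.Adj v a) (hb : G.Adj v b) (hc : G.Adj v c)
    (hd : G.Adj v d) (h : Linked G v a b c d) {z : Ch V} (hz : IsEven G z) (hat : At v z a b) :
    D.se s(v, c) z = D.se s(v, d) z := by
  obtain ⟨S1, S2, hdis, v1, v2, ⟨p, hp⟩, h2⟩ := h
  obtain ⟨e1, e2⟩ := close_walk ha hb p (fun h => v1 (hp v h))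
  set y := sg s(v, a) + sg s(v, b) + wv p with hy
  have ho : ∀ w ∈ S2, Off w y := by
    intro w hw
    have h1 : w ∉ p.support := fun h => Set.disjoint_left.1 hdis (hp w h) hw
    have h0 : w ≠ v := fun h => v2 (h ▸ hw)
    exact ((off_sg h0 (fun h => h1 (h ▸ p.start_mem_support))).add
      (off_sg h0 (fun h => h1 (h ▸ p.end_mem_support)))).add (off_wv p h1)
  have k1 := D.t1 _ (hz.add e1) v c hc (hat.off e2)
  have k2 := D.t1 _ (hz.add e1) v d hd (hat.off e2)
  have k3 := D.t1 _ e1 c v hc.symm (ho c h2.left)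
  have k4 := D.t1 _ e1 d v hd.symm (ho d h2.right)
  have k5 := D.along e1 h2 ho
  rw [Sym2.eq_swap] at k3 k4
  rw [map_add] at k1 k2
  linear_combination k1 - k2 - k3 + k4 - k5

lemma tele {A : Type} (ρ : V → ℕ) (s : Finset V) (inj : Set.InjOn ρ s) (Φ : Finset V → A)
    (a : A → ZMod 2) :
    (∑ u ∈ s, (a (Φ (s.filter fun w => ρ w < ρ u)) + a (Φ (s.filter fun w => ρ w ≤ ρ u)))
      = a (Φ ∅) + a (Φ s)) ∧
    ((∀ u ∈ s, a (Φ (s.filter fun w => ρ w < ρ u)) = a (Φ (s.filter fun w => ρ w ≤ ρ u))) →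
      a (Φ s) = a (Φ ∅) ∧ ∀ u ∈ s, a (Φ (s.filter fun w => ρ w < ρ u)) = a (Φ ∅)) := by
  induction s using Finset.induction_on_max_value ρ with
  | empty => simp [z2add]
  | insert x s hx hmax ih =>
    have hlt : ∀ u ∈ s, ρ u < ρ x := fun u hu => lt_of_le_of_ne (hmax u hu) fun h =>
      hx (inj (by simp [hu]) (by simp) h ▸ hu)
    have f1 : ∀ u ∈ s, (insert x s).filter (fun w => ρ w < ρ u) = s.filter fun w => ρ w < ρ u := by
      intro u hu
      rw [Finset.filter_insert, if_neg (by have := hlt u hu; omega)]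
    have f2 : ∀ u ∈ s, (insert x s).filter (fun w => ρ w ≤ ρ u) = s.filter fun w => ρ w ≤ ρ u := by
      intro u hu
      rw [Finset.filter_insert, if_neg (by have := hlt u hu; omega)]
    have f3 : (insert x s).filter (fun w => ρ w < ρ x) = s := by
      rw [Finset.filter_insert, if_neg (lt_irrefl _), Finset.filter_true_of_mem hlt]
    have f4 : (insert x s).filter (fun w => ρ w ≤ ρ x) = insert x s := by
      rw [Finset.filter_insert, if_pos le_rfl, Finset.filter_true_of_mem hmax]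
    obtain ⟨i1, i2⟩ := ih (inj.mono (by simp))
    constructor
    · rw [Finset.sum_insert hx, f3, f4, Finset.sum_congr rfl (fun u hu => by rw [f1 u hu, f2 u hu]),
        i1]
      linear_combination z2add (a (Φ s))
    · intro h
      obtain ⟨j1, j2⟩ := i2 fun u hu => by
        have := h u (by simp [hu])
        rwa [f1 u hu, f2 u hu] at this
      have h1 := h x (by simp)
      rw [f3, f4] at h1
      refine ⟨h1 ▸ j1, fun u hu => ?_⟩
      rcases Finset.mem_insert.1 hu with rfl | hu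
      · rw [f3, j1]
      · rw [f1 u hu, j2 u hu]

lemma bd_nbr {v : V} (N : Finset V) (hN : ∀ u, u ∈ N ↔ G.Adj v u) {z : Ch V} (hz : OnE G z) :
    bd v z = ∑ u ∈ N, z s(v, u) := by
  rw [bd_eq v z (N.image fun u => s(v, u)), Finset.sum_image]
  · intro a _ b _ h
    exact Sym2.congr_right.1 h
  · intro e he hv
    obtain ⟨u, rfl⟩ := Sym2.mem_iff_exists.1 hv
    exact Finset.mem_image.2 ⟨u, (hN u).2 (hz _ he), rfl⟩
  · intro e he
    obtain ⟨u, -, rfl⟩ := Finset.mem_image.1 he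
    simp

/-- the rotation at a vertex -/
lemma SD.rot (D : SD G) (h3 : ThreeConn G) {v u0 : V} (h0 : G.Adj v u0) (N : Finset V)
    (hN : ∀ u, u ∈ N ↔ G.Adj v u) :
    ∃ ρ : V → ℕ, Set.InjOn ρ N ∧ ∀ u ∈ N, ∀ z, IsEven G z → z s(v, u) = 0 →
      D.se s(v, u) z = D.se s(v, u0) z + ∑ w ∈ N.filter (fun w => ρ w < ρ u), z s(v, w) := by
  have hC : ∀ w, ∃ y : Ch V, G.Adj v w → IsEven G y ∧ At v y u0 w := by
    intro w
    by_cases hw : G.Adj v w
    · obtain ⟨p, hp⟩ := h3 v v u0 w h0.ne' h0.ne' hw.ne' hw.ne'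
      exact ⟨_, fun _ => close_walk h0 hw p (fun h => by simpa using hp v h)⟩
    · exact ⟨0, fun h => absurd h hw⟩
  choose C hC using hC
  let d : V → V → ZMod 2 := fun u w => D.se s(v, u) (C w) + D.se s(v, u0) (C w)
  have tot : ∀ u w, G.Adj v u → G.Adj v w → u ≠ w → u ≠ u0 → w ≠ u0 → d u w + d w u = 1 := by
    intro u w hu hw huw h1 h2
    have := D.t2 v w u u0 hw hu h0 huw.symm h2 h1 _ _ (hC w hw).1 (hC u hu).1
      (hC w hw).2.symm (hC u hu).2.symm
    rw [map_add] at this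
    simp only [d]
    linear_combination this
  let pr : V → V → Prop := fun w u => w ≠ u ∧ (w = u0 ∨ (u ≠ u0 ∧ d u w = 0))
  have total : ∀ u w, G.Adj v u → G.Adj v w → u ≠ w → pr u w ∨ pr w u := by
    intro u w hu hw huw
    by_cases h1 : u = u0
    · exact Or.inl ⟨huw, Or.inl h1⟩
    by_cases h2 : w = u0
    · exact Or.inr ⟨huw.symm, Or.inl h2⟩
    have := tot u w hu hw huw h1 h2
    rcases z2 (d u w) with h | h
    · exact Or.inr ⟨huw.symm, Or.inr ⟨h1, h⟩⟩
    · refine Or.inl ⟨huw, Or.inr ⟨h2, ?_⟩⟩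
      rw [h] at this
      simpa using this
  have trans : ∀ e f g, G.Adj v e → G.Adj v f → G.Adj v g → pr e f → pr f g → pr e g := by
    rintro e f g he hf hg ⟨ef, h1⟩ ⟨fg, h2⟩
    have hf0 : f ≠ u0 := by
      rcases h1 with h1 | h1
      · exact fun h => ef (h1.trans h.symm)
      · exact h1.1
    obtain ⟨hg0, h2⟩ := h2.resolve_left hf0
    by_cases he0 : e = u0
    · exact ⟨fun h => hg0 (h.symm.trans he0), Or.inl he0⟩
    obtain ⟨-, h1⟩ := h1.resolve_left he0
    have t1 := tot e f he hf ef he0 hf0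
    have t2 := tot f g hf hg fg hf0 hg0
    have eg : e ≠ g := by
      rintro rfl
      rw [h1, h2] at t1
      simp at t1
    have t3 := tot e g he hg eg he0 hg0
    refine ⟨eg, Or.inr ⟨hg0, ?_⟩⟩
    by_contra h4
    have h4 := z2ne h4
    simp only [d] at h1 h2 h4 t1 t2 t3
    have one : (1 : ZMod 2) ≠ 0 := one_ne_zero
    have two : (2 : ZMod 2) = 0 := rfl
    rcases link h3 h0.ne' he.ne' hf.ne' hg.ne' (Ne.symm he0) (Ne.symm hf0) (Ne.symm hg0) ef eg
      with h | h | h
    · have := D.nosep h0 he hf hg h (hC e he).1 (hC e he).2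
      exact one (by linear_combination h1 - h4 - this)
    · have := D.nosep h0 hf he hg h (hC f hf).1 (hC f hf).2
      exact one (by linear_combination -t1 + h1 + h2 + this)
    · have := D.nosep h0 hg he hf h (hC g hg).1 (hC g hg).2
      exact one (by linear_combination t3 - h4 - t2 + h2 - this)
  let ρ : V → ℕ := fun u => (N.filter fun w => pr w u).card
  have mono : ∀ u w, G.Adj v u → G.Adj v w → pr w u → ρ w < ρ u := by
    intro u w hu hw h
    apply Finset.card_lt_card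
    constructor
    · intro x hx
      rw [Finset.mem_filter] at hx ⊢
      exact ⟨hx.1, trans x w u ((hN x).1 hx.1) hw hu hx.2 h⟩
    · intro h1
      have := Finset.mem_filter.1 (h1 (Finset.mem_filter.2 ⟨(hN w).2 hw, h⟩))
      exact this.2.1 rfl
  have iff : ∀ u w, G.Adj v u → G.Adj v w → (ρ w < ρ u ↔ pr w u) := by
    intro u w hu hw
    refine ⟨fun h => ?_, mono u w hu hw⟩
    have hne : u ≠ w := by rintro rfl; omega
    refine (total u w hu hw hne).resolve_left fun h1 => ?_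
    have := mono w u hw hu h1
    omega
  refine ⟨ρ, fun a ha b hb hab => ?_, fun u hu z hz hzu => ?_⟩
  · by_contra hne
    rcases total a b ((hN a).1 ha) ((hN b).1 hb) hne with h | h
    · have := mono b a ((hN b).1 hb) ((hN a).1 ha) h; omega
    · have := mono a b ((hN a).1 ha) ((hN b).1 hb) h; omega
  have hu' := (hN u).1 hu
  rw [Finset.filter_congr (fun w hw => iff u w hu' ((hN w).1 hw))]
  by_cases huu : u = u0
  · subst huu
    rw [Finset.filter_false_of_mem (fun w _ h => by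
      rcases h.2 with h1 | h1
      · exact h.1 h1
      · exact h1.1 rfl)]
    simp
  have hu0 : u0 ∈ N := (hN u0).2 h0
  have hsum : ∑ w ∈ N, z s(v, w) = 0 := by rw [← bd_nbr N hN hz.1, hz.2]
  have hev : IsEven G (z + ∑ w ∈ N, z s(v, w) • C w) :=
    hz.add (IsEven.sum _ _ fun w hw => (hC w ((hN w).1 hw)).1.smul _)
  have hoff : Off v (z + ∑ w ∈ N, z s(v, w) • C w) := by
    refine off_iff.2 fun x => ?_
    rw [Finsupp.add_apply, Finsupp.finsetSum_apply,
      Finset.sum_congr rfl (fun w hw => by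
        rw [Finsupp.smul_apply, (hC w ((hN w).1 hw)).2 x, smul_eq_mul, mul_add]),
      Finset.sum_add_distrib, ← Finset.sum_mul, hsum, zero_mul, zero_add]
    simp only [mul_ite, mul_one, mul_zero, Finset.sum_ite_eq]
    by_cases hx : x ∈ N
    · rw [if_pos hx, z2add]
    · rw [if_neg hx, add_zero]
      by_contra h1
      exact hx ((hN x).2 (hz.1 _ h1))
  have k1 := D.t1 _ hev v u hu' hoff
  have k2 := D.t1 _ hev v u0 h0 hoff
  rw [map_add, map_sum] at k1 k2
  simp only [map_smul, smul_eq_mul] at k1 k2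
  have hC0 : d u u0 = 0 := by
    have ho : Off v (C u0) := off_iff.2 fun x => by rw [(hC u0 h0).2 x, z2add]
    simp only [d]
    rw [D.t1 _ (hC u0 h0).1 v u hu' ho, D.t1 _ (hC u0 h0).1 v u0 h0 ho, z2add]
  have k3 : ∑ w ∈ N.filter (fun w => pr w u), z s(v, w)
      = ∑ w ∈ N, (z s(v, w) * d u w + z s(v, w)) := by
    rw [Finset.sum_filter]
    refine Finset.sum_congr rfl fun w _ => ?_
    by_cases h1 : w = u
    · rw [h1, hzu]; simp
    by_cases h2 : w = u0
    · rw [if_pos ⟨h1, Or.inl h2⟩, h2, hC0]; simp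
    rcases z2 (d u w) with h | h
    · rw [if_pos ⟨h1, Or.inr ⟨huu, h⟩⟩, h]; simp
    · rw [if_neg, h, mul_one, z2add]
      rintro ⟨-, h4 | h4⟩
      · exact h2 h4
      · rw [h] at h4; exact one_ne_zero h4.2
  rw [k3, Finset.sum_add_distrib, hsum]
  simp only [d, mul_add, Finset.sum_add_distrib]
  linear_combination k1 - k2 - z2add (∑ w ∈ N, z s(v, w) * D.se s(v, u) (C w))

end Pool.Agent.H599Z.QT
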