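import Pool.Agent.H599Z.QT.Basic
import Pool.Agent.H599Z.QT.Defs
import Pool.Agent.Helper770.VanKampen

set_option autoImplicit false

namespace Pool.Agent.H599Z.QT

open SimpleGraph
open scoped Classical

variable {V : Type} {G : SimpleGraph V}

/-- the chain has exactly the edges towards a and b at v -/
def At (v : V) (z : Ch V) (a b : V) : Prop :=
  ∀ u, z s(v, u) = (if u = a then 1 else 0) + (if u = b then 1 else 0)

/-- the chain has no edge at v -/
def Off (v : V) (z : Ch V) : Prop := ∀ e, v ∈ e → z e = 0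

lemma off_iff {v : V} {z : Ch V} : Off v z ↔ ∀ u, z s(v, u) = 0 := by
  refine ⟨fun h u => h _ (by simp), fun h e he => ?_⟩
  obtain ⟨u, rfl⟩ := Sym2.mem_iff_exists.1 he
  exact h u

lemma Off.add {v : V} {y z : Ch V} (hy : Off v y) (hz : Off v z) : Off v (y + z) :=
  fun e he => by simp [hy e he, hz e he]

lemma off_wv {v a b : V} (p : G.Walk a b) (h : v ∉ p.support) : Off v (wv p) := by
  intro e he
  by_contra h0
  exact h (wv_supp p h0 he)

lemma sg_at (v a u : V) : sg s(v, a) s(v, u) = if u = a then 1 else 0 := by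
  rw [sg_apply]
  by_cases h : u = a
  · simp [h]
  · rw [if_neg h, if_neg]
    intro h1
    exact h (Sym2.congr_right.1 h1).symm

/-- side data of a plane drawing -/
structure SD (G : SimpleGraph V) where
  sv : V → Ch V →ₗ[ZMod 2] ZMod 2
  se : Sym2 V → Ch V →ₗ[ZMod 2] ZMod 2
  t1 : ∀ z, IsEven G z → ∀ v u, G.Adj v u → Off v z → se s(v, u) z = sv v z
  t2 : ∀ v a b c, G.Adj v a → G.Adj v b → G.Adj v c → a ≠ b → a ≠ c → b ≠ c →
    ∀ y z, IsEven G y → IsEven G z → At v y a c → At v z b c →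
      se s(v, b) y + se s(v, a) z + se s(v, c) (y + z) = 1

open Complex Pool.Agent.Helper770.VanKampen in
lemma geo : ∃ (ω : ℂ → (ℝ → ℂ) → ZMod 2) (τ : ℂ → ℂ → ZMod 2),
    (∀ a b, a ≠ b → τ a b + τ b a = 1) ∧
    ∀ u w : ℝ → ℂ, Continuous u → Continuous w → (∀ s t, u s ≠ w t) →
      ω (w 0) u + ω (w 1) u + ω (u 0) w + ω (u 1) w =
        τ (w 0) (u 0) + τ (w 0) (u 1) + τ (w 1) (u 0) + τ (w 1) (u 1) := by
  have hk : ∀ (P : ℂ) (u : ℝ → ℂ), ∃ k : ℤ, Continuous u → (∀ s, u s ≠ P) →
      inc (fun s => u s - P) = log (u 1 - P) - log (u 0 - P) + k * (2 * Real.pi * I) := by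
    intro P u
    by_cases h : Continuous u ∧ ∀ s, u s ≠ P
    · obtain ⟨n, hn⟩ := inc_mod (fun s => u s - P) (h.1.sub continuous_const)
        (fun s => sub_ne_zero.2 (h.2 s))
      exact ⟨n, fun _ _ => hn⟩
    · exact ⟨0, fun h1 h2 => absurd ⟨h1, h2⟩ h⟩
  choose k hk using hk
  have hB : ∀ x y : ℂ, ∃ n : ℤ, x ≠ y →
      log (x - y) - log (y - x) = (2 * n + 1) * (Real.pi * I) := by
    intro x y
    by_cases h : x = y
    · exact ⟨0, fun h' => absurd h h'⟩
    · obtain ⟨n, hn⟩ := log_sub_log_neg (x - y) (sub_ne_zero.2 h)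
      refine ⟨n, fun _ => ?_⟩
      rw [← hn]; congr 2; ring
  choose B hB using hB
  have hpi : (Real.pi * I : ℂ) ≠ 0 := by simp [Real.pi_ne_zero]
  have hanti : ∀ a b, a ≠ b → B a b + B b a = -1 := by
    intro a b hab
    have e1 := hB a b hab
    have e2 := hB b a hab.symm
    have e3 : ((2 * (B a b : ℂ) + 1) + (2 * (B b a : ℂ) + 1)) * (Real.pi * I) = 0 := by
      rw [add_mul, ← e1, ← e2]; ring
    have e4 := (mul_eq_zero.1 e3).resolve_right hpi
    have e5 : (2 * (B a b) + 1) + (2 * (B b a) + 1) = 0 := by exact_mod_cast e4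
    omega
  refine ⟨fun P u => (k P u : ZMod 2), fun a b => (B a b : ZMod 2), fun a b hab => ?_, ?_⟩
  · have := congrArg (Int.cast : ℤ → ZMod 2) (hanti a b hab)
    push_cast at this
    rw [this]; decide
  · intro u w hu hw hd
    have sq := inc_square u w hu hw hd
    rw [hk (w 0) u hu (fun s => hd s 0), hk (w 1) u hu (fun s => hd s 1),
      hk (u 1) w hw (fun s => (hd 1 s).symm), hk (u 0) w hw (fun s => (hd 0 s).symm)] at sq
    have b1 := hB (w 0) (u 0) (hd 0 0).symm
    have b2 := hB (w 0) (u 1) (hd 1 0).symm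
    have b3 := hB (w 1) (u 0) (hd 0 1).symm
    have b4 := hB (w 1) (u 1) (hd 1 1).symm
    have e : (2 * ((k (w 0) u : ℂ) - k (w 1) u + k (u 1) w - k (u 0) w + B (w 0) (u 0)
        - B (w 0) (u 1) - B (w 1) (u 0) + B (w 1) (u 1))) * (Real.pi * I) = 0 := by
      linear_combination sq - b1 + b2 + b3 - b4
    have e2 := (mul_eq_zero.1 e).resolve_right hpi
    have e3 : 2 * (k (w 0) u - k (w 1) u + k (u 1) w - k (u 0) w + B (w 0) (u 0)
        - B (w 0) (u 1) - B (w 1) (u 0) + B (w 1) (u 1)) = 0 := by exact_mod_cast e2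
    have e4 : k (w 0) u - k (w 1) u + k (u 1) w - k (u 0) w + B (w 0) (u 0)
        - B (w 0) (u 1) - B (w 1) (u 0) + B (w 1) (u 1) = 0 := by omega
    have e5 := congrArg (Int.cast : ℤ → ZMod 2) e4
    push_cast at e5
    beta_reduce
    revert e5
    generalize ((k (w 0) u : ℤ) : ZMod 2) = a1
    generalize ((k (w 1) u : ℤ) : ZMod 2) = a2
    generalize ((k (u 0) w : ℤ) : ZMod 2) = a3
    generalize ((k (u 1) w : ℤ) : ZMod 2) = a4
    generalize ((B (w 0) (u 0) : ℤ) : ZMod 2) = a5
    generalize ((B (w 0) (u 1) : ℤ) : ZMod 2) = a6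
    generalize ((B (w 1) (u 0) : ℤ) : ZMod 2) = a7
    generalize ((B (w 1) (u 1) : ℤ) : ZMod 2) = a8
    revert a1 a2 a3 a4 a5 a6 a7 a8
    decide

/-- sum of a vertex function over the ends of the edges of a chain -/
noncomputable def gam (g : V → ZMod 2) : Ch V →ₗ[ZMod 2] ZMod 2 :=
  Finsupp.linearCombination (ZMod 2) (Sym2.lift ⟨fun x y => g x + g y, fun _ _ => add_comm _ _⟩)

lemma gam_sg (g : V → ZMod 2) (a b : V) : gam g (sg s(a, b)) = g a + g b := by
  simp [gam, sg]

lemma gam_zero (g : V → ZMod 2) (z : Ch V) (h : IsEven ⊤ z) : gam g z = 0 := by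
  have h1 := even_short _ z h le_rfl
  have h2 : Short (⊤ : SimpleGraph V) z.support.card ≤ LinearMap.ker (gam g) := by
    apply Submodule.span_le.2
    rintro y ⟨v, p, -, rfl⟩
    have : ∀ {a b : V} (q : (⊤ : SimpleGraph V).Walk a b), gam g (wv q) = g a + g b := by
      intro a b q
      induction q with
      | nil => simp [z2add]
      | cons h q ih =>
        rw [wv_cons, map_add, ih, gam_sg, add_assoc, ← add_assoc (g _) (g _) (g _), z2add,
          zero_add]
    show gam g (wv p) = 0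
    rw [this, z2add]
  exact h2 h1

lemma OnE.top {z : Ch V} (h : OnE G z) : OnE ⊤ z :=
  fun e he => edgeSet_mono le_top (h e he)

lemma gam_two (g : V → ZMod 2) (z : Ch V) (h : OnE G z) {a b : V} (hab : a ≠ b)
    (hb : ∀ x, bd x z = (if x = a then 1 else 0) + (if x = b then 1 else 0)) :
    gam g z = g a + g b := by
  have := gam_zero g (z + sg s(a, b)) ⟨h.top.add (onE_sg (by simpa using hab)), fun x => by
    rw [map_add, hb, bd_sg _ _ _ hab, z2add]⟩
  rw [map_add, gam_sg] at this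
  revert this
  generalize gam g z = t
  generalize g a + g b = t'
  revert t t'; decide

lemma lin_congr (f g : Sym2 V → ZMod 2) (z : Ch V) (h : ∀ e, z e ≠ 0 → f e = g e) :
    Finsupp.linearCombination (ZMod 2) f z = Finsupp.linearCombination (ZMod 2) g z := by
  rw [Finsupp.linearCombination_apply, Finsupp.linearCombination_apply]
  apply Finsupp.sum_congr
  intro e he
  rw [h e (Finsupp.mem_support_iff.1 he)]

lemma lin_add (f g : Sym2 V → ZMod 2) (z : Ch V) :
    Finsupp.linearCombination (ZMod 2) (f + g) z =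
      Finsupp.linearCombination (ZMod 2) f z + Finsupp.linearCombination (ZMod 2) g z := by
  simp only [Finsupp.linearCombination_apply, Pi.add_apply, smul_add, Finsupp.sum_add]

/-- removing the two edges at v -/
lemma At.rest {v a b : V} {z : Ch V} (hz : IsEven G z) (h : At v z a b) (ha : G.Adj v a)
    (hb : G.Adj v b) : ∃ R, z = sg s(v, a) + sg s(v, b) + R ∧ OnE G R ∧ Off v R ∧
      ∀ x, bd x R = (if x = a then 1 else 0) + (if x = b then 1 else 0) := by
  refine ⟨sg s(v, a) + sg s(v, b) + z, by rw [← add_assoc, chadd, zero_add],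
    ((onE_sg ha).add (onE_sg hb)).add hz.1, off_iff.2 fun u => ?_, fun x => ?_⟩
  · rw [Finsupp.add_apply, Finsupp.add_apply, sg_at, sg_at, h u, z2add]
  · rw [map_add, map_add, hz.2, bd_sg _ _ _ ha.ne, bd_sg _ _ _ hb.ne]
    generalize (if x = v then (1 : ZMod 2) else 0) = t1
    generalize (if x = a then (1 : ZMod 2) else 0) = t2
    generalize (if x = b then (1 : ZMod 2) else 0) = t3
    revert t1 t2 t3; decide

lemma sd_of_half (p : V → ℂ) (h : V → V → ℝ → ℂ) (m : Sym2 V → ℂ)
    (hc : ∀ a b, G.Adj a b → Continuous (h a b))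
    (h0 : ∀ a b, G.Adj a b → h a b 0 = p a) (h1 : ∀ a b, G.Adj a b → h a b 1 = m s(a, b))
    (hd : ∀ a b x y, G.Adj a b → G.Adj x y → a ≠ x → s(a, b) ≠ s(x, y) →
      ∀ s t, h a b s ≠ h x y t) : Nonempty (SD G) := by
  obtain ⟨ω, τ, anti, sq⟩ := geo
  let Ω : ℂ → Sym2 V → ZMod 2 := fun P =>
    Sym2.lift ⟨fun a b => ω P (h a b) + ω P (h b a), fun _ _ => add_comm _ _⟩
  let S : ℂ → Ch V →ₗ[ZMod 2] ZMod 2 := fun P => Finsupp.linearCombination (ZMod 2) (Ω P)
  let g : V → V → V → ZMod 2 := fun v a x =>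
    ω (p x) (h v a) + τ (p x) (p v) + τ (p x) (m s(v, a))
  have hS : ∀ P a b, S P (sg s(a, b)) = ω P (h a b) + ω P (h b a) := by
    intro P a b; simp [S, Ω, sg]
  have SQ : ∀ a b x y, G.Adj a b → G.Adj x y → a ≠ x → s(a, b) ≠ s(x, y) →
      ω (p x) (h a b) + ω (m s(x, y)) (h a b) + ω (p a) (h x y) + ω (m s(a, b)) (h x y) =
        τ (p x) (p a) + τ (p x) (m s(a, b)) + τ (m s(x, y)) (p a)
          + τ (m s(x, y)) (m s(a, b)) := by
    intro a b x y hab hxy hax hne
    have := sq (h a b) (h x y) (hc _ _ hab) (hc _ _ hxy) (hd a b x y hab hxy hax hne)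
    rwa [h0 _ _ hab, h0 _ _ hxy, h1 _ _ hab, h1 _ _ hxy] at this
  have BL : ∀ v a, G.Adj v a → ∀ R, OnE G R → Off v R →
      S (m s(v, a)) R = S (p v) R + gam (g v a) R := by
    intro v a hva R hR ho
    simp only [S, gam]
    rw [← lin_add]
    apply lin_congr
    intro e he
    induction e using Sym2.ind with
    | _ x y =>
      have hxy : G.Adj x y := hR _ he
      have hv : v ∉ s(x, y) := fun h2 => he (ho _ h2)
      have hne : s(v, a) ≠ s(x, y) := fun h2 => hv (h2 ▸ Sym2.mem_mk_left v a)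
      have e1 := SQ v a x y hva hxy (fun h2 => hv (by simp [h2])) hne
      have e2 := SQ v a y x hva hxy.symm (fun h2 => hv (by simp [h2]))
        (by rw [Sym2.eq_swap (a := y)]; exact hne)
      rw [Sym2.eq_swap (a := y)] at e2
      simp only [Ω, g, Pi.add_apply, Sym2.lift_mk]
      have t := z2add (ω (m s(x, y)) (h v a))
      have t2 := z2add (τ (m s(x, y)) (p v))
      have t3 := z2add (τ (m s(x, y)) (m s(v, a)))
      have t4 := z2add (ω (p x) (h v a))
      have t5 := z2add (ω (p y) (h v a))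
      have t6 := z2add (ω (p v) (h x y))
      have t7 := z2add (ω (p v) (h y x))
      linear_combination e1 + e2 - t + t2 + t3 - t4 - t5 - t6 - t7
  refine ⟨⟨fun v => S (p v), fun e => S (m e), ?_, ?_⟩⟩
  · intro z hz v u hvu ho
    rw [BL v u hvu z hz.1 ho, gam_zero _ z ⟨hz.1.top, hz.2⟩, add_zero]
  · intro v a b c ha hb hc' hab hac hbc y z hy hz hya hzb
    obtain ⟨R1, rfl, o1, f1, d1⟩ := hya.rest hy ha hc'
    obtain ⟨R2, rfl, o2, f2, d2⟩ := hzb.rest hz hb hc'
    have key : ∀ x y, G.Adj v x → G.Adj v y → x ≠ y →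
        S (m s(v, x)) (sg s(v, y)) + g v x y = ω (m s(v, x)) (h v y) + ω (m s(v, y)) (h v x)
          + ω (p v) (h y v) + τ (m s(v, y)) (p v) + τ (m s(v, y)) (m s(v, x)) := by
      intro x y hx hy hxy
      have e := SQ v x y v hx hy.symm hy.ne (by
        rw [Sym2.eq_swap (a := y)]
        exact fun h2 => hxy (Sym2.congr_right.1 h2))
      rw [Sym2.eq_swap (a := y)] at e
      rw [hS]
      simp only [g]
      have t1 := z2add (ω (m s(v, y)) (h v x))
      have t2 := z2add (ω (p v) (h y v))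
      have t3 := z2add (τ (p y) (p v))
      have t4 := z2add (τ (p y) (m s(v, x)))
      linear_combination e - t1 - t2 + t3 + t4
    have hm : ∀ x y, G.Adj v x → G.Adj v y → x ≠ y → m s(v, x) ≠ m s(v, y) := by
      intro x y hx hy hxy
      have := hd v x y v hx hy.symm hy.ne (by
        rw [Sym2.eq_swap (a := y)]
        exact fun h2 => hxy (Sym2.congr_right.1 h2)) 1 1
      rwa [h1 _ _ hx, h1 _ _ hy.symm, Sym2.eq_swap (a := y)] at this
    have e12 : sg s(v, a) + sg s(v, c) + R1 + (sg s(v, b) + sg s(v, c) + R2)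
        = sg s(v, a) + sg s(v, b) + (R1 + R2) := by
      ext e
      simp only [Finsupp.add_apply]
      linear_combination z2add (sg s(v, c) e)
    rw [e12]
    simp only [map_add]
    rw [BL v b hb R1 o1 f1, BL v a ha R2 o2 f2, BL v c hc' R1 o1 f1, BL v c hc' R2 o2 f2,
      gam_two _ R1 o1 hac d1, gam_two _ R1 o1 hac d1, gam_two _ R2 o2 hbc d2,
      gam_two _ R2 o2 hbc d2]
    have k1 := key a b ha hb hab
    have k2 := key b a hb ha hab.symm
    have k3 := key a c ha hc' hac
    have k4 := key c a hc' ha hac.symm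
    have k5 := key b c hb hc' hbc
    have k6 := key c b hc' hb hbc.symm
    have a1 := anti _ _ (hm a b ha hb hab)
    have a2 := anti _ _ (hm a c ha hc' hac)
    have a3 := anti _ _ (hm b c hb hc' hbc)
    have two : (2 : ZMod 2) = 0 := rfl
    linear_combination k1 + k2 + k3 + k4 + k5 + k6 + a1 + a2 + a3 +
      (S (p v) R1 + S (p v) R2 + g v c c + 1 +
        ω (m s(v, a)) (h v b) + ω (m s(v, b)) (h v a) + ω (m s(v, a)) (h v c)
        + ω (m s(v, c)) (h v a) + ω (m s(v, b)) (h v c) + ω (m s(v, c)) (h v b)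
        + ω (p v) (h a v) + ω (p v) (h b v) + ω (p v) (h c v)
        + τ (m s(v, a)) (p v) + τ (m s(v, b)) (p v) + τ (m s(v, c)) (p v)) * two

lemma Planar.sd (hG : Planar G) : Nonempty (SD G) := by
  obtain ⟨p, γ, hp, H⟩ := hG
  let hf : ℝ → unitInterval := fun t =>
    ⟨(Set.projIcc (0 : ℝ) 1 zero_le_one t : ℝ) / 2, by
      have := (Set.projIcc (0 : ℝ) 1 zero_le_one t).2
      constructor <;> linarith [this.1, this.2]⟩
  have hfc : Continuous hf :=
    Continuous.subtype_mk ((continuous_subtype_val.comp continuous_projIcc).div_const 2) _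
  have hf0 : hf 0 = 0 := by ext; simp [hf]
  have hf1 : unitInterval.symm (hf 1) = hf 1 := by ext; simp [hf]; norm_num
  have hfne : ∀ t, hf t ≠ 1 := by
    intro t h
    have h1 := congrArg Subtype.val h
    have := (Set.projIcc (0 : ℝ) 1 zero_le_one t).2
    simp only [hf, Set.Icc.coe_one] at h1
    linarith [this.2]
  let m : Sym2 V → ℂ := Sym2.lift ⟨fun a b => if G.Adj a b then γ a b (hf 1) else 0, by
    intro a b
    by_cases h : G.Adj a b
    · simp only [h, h.symm, if_true]
      rw [(H a b h).2.2.2.2.1, hf1]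
    · have h' : ¬ G.Adj b a := fun h' => h h'.symm
      simp [h, h']⟩
  have hv : ∀ a b, G.Adj a b → ∀ s w, γ a b (hf s) = p w → w = a := by
    intro a b hab s w hw
    obtain ⟨-, inj, -, e1, -, e2, -⟩ := H a b hab
    refine (e2 _ w hw).resolve_right ?_
    rintro rfl
    exact hfne s (inj (hw.trans e1.symm))
  refine sd_of_half p (fun a b t => γ a b (hf t)) m (fun a b h => (H a b h).1.comp hfc)
    (fun a b h => by simp only [hf0]; exact (H a b h).2.2.1)
    (fun a b h => by simp [m, h]) ?_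
  intro a b x y hab hxy hax hne s t he
  obtain ⟨w, hw⟩ := (H a b hab).2.2.2.2.2.2 x y hxy hne _ _ he
  exact hax ((hv a b hab s w hw).symm.trans (hv x y hxy t w (he.symm.trans hw)))

end Pool.Agent.H599Z.QT
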