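import Pool.Agent.H599Z.QT.Block

set_option autoImplicit false

namespace Pool.Agent.H599Z.QT

open SimpleGraph
open scoped Classical

variable {V W : Type} {H : SimpleGraph V} {X : Set V}

lemma rs_support {S : Set V} {a b w : V} (p : H.Walk a b) (hp : ∀ x ∈ p.support, x ∈ S)
    (hw : w ∈ p.support) : RS H S a w :=
  ⟨p.takeUntil w hw, fun x hx => hp x (p.support_takeUntil_subset_support hw hx)⟩

lemma lin_ext {M : Type} [AddCommMonoid M] [Module (ZMod 2) M] (Φ Ψ : Ch W →ₗ[ZMod 2] M)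
    (z : Ch W) (h : ∀ e, z e ≠ 0 → Φ (sg e) = Ψ (sg e)) : Φ z = Ψ z := by
  have : z = ∑ e ∈ z.support, sg e := by
    conv_lhs => rw [← z.sum_single, Finsupp.sum]
    refine Finset.sum_congr rfl fun e he => ?_
    rw [z2ne (Finsupp.mem_support_iff.1 he)]; rfl
  rw [this, map_sum, map_sum]
  exact Finset.sum_congr rfl fun e he => h e (Finsupp.mem_support_iff.1 he)

noncomputable def lc (P : Sym2 W → Ch V) : Ch W →ₗ[ZMod 2] Ch V :=
  Finsupp.linearCombination (ZMod 2) P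

lemma lc_sg (P : Sym2 W → Ch V) (e : Sym2 W) : lc P (sg e) = P e := by simp [lc, sg]

lemma lc_zero (P : Sym2 W → Ch V) (z : Ch W) (f : Sym2 V) (h : ∀ e, z e ≠ 0 → P e f = 0) :
    lc P z f = 0 :=
  lin_ext ((Finsupp.lapply f).comp (lc P)) 0 z fun e he => by simp [lc_sg, h e he]

lemma mem_val (v : X) (e : Sym2 X) : v.1 ∈ e.map Subtype.val ↔ v ∈ e := by
  induction e using Sym2.ind with
  | _ a b => simp [Subtype.ext_iff]

lemma mem_val' {w : V} {e : Sym2 X} (h : w ∈ e.map Subtype.val) : w ∈ X := by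
  obtain ⟨a, -, rfl⟩ := Sym2.mem_map.1 h
  exact a.2

lemma lc_even {G : SimpleGraph X} (P : Sym2 X → Ch V) (h1 : ∀ e ∈ G.edgeSet, OnE H (P e))
    (h2 : ∀ e ∈ G.edgeSet, ∀ w, bd w (P e) = if w ∈ e.map Subtype.val then 1 else 0)
    {z : Ch X} (hz : IsEven G z) : IsEven H (lc P z) := by
  refine ⟨fun f hf => ?_, fun w => ?_⟩
  · by_contra hn
    refine hf (lc_zero P z f fun e he => ?_)
    by_contra h0
    exact hn (h1 e (hz.1 e he) f h0)
  · by_cases hw : w ∈ X
    · rw [← hz.2 ⟨w, hw⟩]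
      refine lin_ext ((bd w).comp (lc P)) _ z fun e he => ?_
      rw [LinearMap.comp_apply, lc_sg, h2 e (hz.1 e he), bd_sg']
      simp only [← mem_val]
    · refine lin_ext ((bd w).comp (lc P)) 0 z fun e he => ?_
      rw [LinearMap.comp_apply, lc_sg, h2 e (hz.1 e he), if_neg fun h => hw (mem_val' h)]
      rfl

structure LinkData (S : SD H) (X : Set V) (e : Sym2 X) (P : Ch V) (K : Set V) (f : Sym2 V) :
    Prop where
  onE : OnE H P
  bd : ∀ w, bd w P = if w ∈ e.map Subtype.val then 1 else 0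
  off : ∀ w, w ∉ K → w ∉ e.map Subtype.val → Off w P
  att : ∀ w ∈ K, ∀ v ∈ e, ∃ v', H.Adj v.1 v' ∧ RS H Xᶜ v' w
  fst : ∀ v ∈ e, ∃ u, H.Adj v.1 u ∧ (∀ t, P s(v.1, t) = if t = u then 1 else 0) ∧
    (u ∈ K ∨ s(v.1, u) = e.map Subtype.val) ∧
    ∀ Z, IsEven H Z → (∀ w ∈ K, Off w Z) → S.se f Z = S.se s(v.1, u) Z

lemma link_data (S : SD H) (e : Sym2 X) : ∃ P K f, e ∈ (torso H X).edgeSet →
    LinkData S X e P K f := by
  induction e using Sym2.ind with
  | _ a b =>
  by_cases he : (torso H X).Adj a b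
  swap
  · exact ⟨0, ∅, s(a, a), fun h => absurd h he⟩
  obtain ⟨ne, h | ⟨a', b', h1, h2, q, hq⟩⟩ := he
  · refine ⟨sg s(a.1, b.1), ∅, s(a.1, b.1), fun _ => ⟨onE_sg h, fun w => bd_sg' _ _,
      fun w _ hw => ?_, by simp, fun v hv => ?_⟩⟩
    · simp only [Sym2.map_mk, Sym2.mem_iff, not_or] at hw
      exact off_sg hw.1 hw.2
    · rcases Sym2.mem_iff.1 hv with rfl | rfl
      · exact ⟨b, h, sg_at _ _, Or.inr rfl, fun _ _ _ => rfl⟩
      · exact ⟨a, h.symm, fun t => by rw [Sym2.eq_swap (a := a.1), sg_at],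
          Or.inr Sym2.eq_swap, fun _ _ _ => by rw [Sym2.eq_swap]⟩
  · have ne' : a.1 ≠ b.1 := fun h => ne (Subtype.ext h)
    have nx : ∀ (v : X) w, w ∈ q.support → v.1 ≠ w := fun v w hw h => hq w hw (h ▸ v.2)
    have sa := q.start_mem_support
    have sb := q.end_mem_support
    refine ⟨sg s(a.1, a') + sg s(b.1, b') + wv q, {w | w ∈ q.support}, s(a.1, a'), fun _ =>
      ⟨((onE_sg h1).add (onE_sg h2)).add (onE_wv q), fun w => ?_, fun w hw hw' => ?_,
        fun w hw v hv => ?_, fun v hv => ?_⟩⟩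
    · have := bd_sg' w s(a.1, b.1)
      rw [bd_sg _ _ _ ne'] at this
      rw [Sym2.map_mk, ← this, map_add, map_add, bd_sg _ _ _ h1.ne, bd_sg _ _ _ h2.ne, bd_wv]
      grind
    · simp only [Sym2.map_mk, Sym2.mem_iff, not_or] at hw'
      exact ((off_sg hw'.1 fun h => hw (h ▸ sa)).add (off_sg hw'.2 fun h => hw (h ▸ sb))).add
        (off_wv q hw)
    · rcases Sym2.mem_iff.1 hv with rfl | rfl
      · exact ⟨a', h1, rs_support q hq hw⟩
      · exact ⟨b', h2, (RS.symm ⟨q, hq⟩).trans (rs_support q hq hw)⟩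
    · rcases Sym2.mem_iff.1 hv with rfl | rfl
      · refine ⟨a', h1, fun t => ?_, Or.inl sa, fun _ _ _ => rfl⟩
        rw [Finsupp.add_apply, Finsupp.add_apply, sg_at, off_sg ne' (nx v _ sb) _ (by simp),
          off_wv q (fun h => nx v _ h rfl) _ (by simp), add_zero, add_zero]
      · refine ⟨b', h2, fun t => ?_, Or.inl sb, fun Z hZ ho => ?_⟩
        · rw [Finsupp.add_apply, Finsupp.add_apply, sg_at, off_sg ne'.symm (nx v _ sa) _ (by simp),
            off_wv q (fun h => nx v _ h rfl) _ (by simp), add_zero, zero_add]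
        · rw [Sym2.eq_swap, S.t1 Z hZ _ _ h1.symm (ho _ sa), Sym2.eq_swap,
            S.t1 Z hZ _ _ h2.symm (ho _ sb)]
          exact S.along hZ ⟨q, fun w hw => hw⟩ ho

lemma Blk.sd (h : Blk H X) (S : SD H) : Nonempty (SD (torso H X)) := by
  choose P K f hd using link_data (X := X) S
  have KX : ∀ e ∈ (torso H X).edgeSet, ∀ w ∈ K e, w ∉ X := fun e he w hw => by
    obtain ⟨_, -, h1⟩ := (hd e he).att w hw _ e.out_fst_mem
    exact h1.right
  have dis : ∀ e ∈ (torso H X).edgeSet, ∀ e' ∈ (torso H X).edgeSet, ∀ w ∈ K e, w ∈ K e' →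
      e = e' := by
    have sub : ∀ e ∈ (torso H X).edgeSet, ∀ e' ∈ (torso H X).edgeSet, ∀ w ∈ K e, w ∈ K e' →
        ∀ v ∈ e', v ∈ e := by
      intro e he e' he' w w1 w2 v hv
      induction e using Sym2.ind with
      | _ a b =>
      obtain ⟨a', a1, a2⟩ := (hd _ he).att w w1 a (by simp)
      obtain ⟨b', b1, b2⟩ := (hd _ he).att w w1 b (by simp)
      obtain ⟨v', v1, v2⟩ := (hd _ he').att w w2 v hv
      rcases h.two a.2 b.2 v.2 a1 b1 v1 (a2.trans b2.symm) (v2.trans a2.symm) with k | k | k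
      · exact absurd (Subtype.ext k) he.1
      · rw [Subtype.ext k]; simp
      · rw [Subtype.ext k]; simp
    intro e he e' he' w w1 w2
    exact Sym2.ext fun v => ⟨sub e' he' e he w w2 w1 v, sub e he e' he' w w1 w2 v⟩
  have ev : ∀ z, IsEven (torso H X) z → IsEven H (lc P z) := fun z hz =>
    lc_even P (fun e he => (hd e he).onE) (fun e he => (hd e he).bd) hz
  have offK : ∀ z, OnE (torso H X) z → ∀ e ∈ (torso H X).edgeSet, z e = 0 → ∀ w ∈ K e,
      Off w (lc P z) := by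
    intro z hz e he h0 w hw g hg
    refine lc_zero P z g fun e' he' => (hd e' (hz e' he')).off w (fun h1 => ?_)
      (fun h1 => KX e he w hw (mem_val' h1)) g hg
    exact he' (dis e he e' (hz e' he') w hw h1 ▸ h0)
  have offV : ∀ z, OnE (torso H X) z → ∀ v, Off v z → Off v.1 (lc P z) := by
    intro z hz v ho g hg
    exact lc_zero P z g fun e' he' => (hd e' (hz e' he')).off v
      (fun h1 => KX e' (hz e' he') _ h1 v.2) (fun h1 => he' (ho e' ((mem_val v e').1 h1))) g hg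
  have fst : ∀ v a : X, ∃ u, (torso H X).Adj v a → H.Adj v.1 u ∧
      (∀ t, P s(v, a) s(v.1, t) = if t = u then 1 else 0) ∧ (u ∈ K s(v, a) ∨ u = a.1) ∧
      ∀ z, IsEven (torso H X) z → z s(v, a) = 0 →
        S.se (f s(v, a)) (lc P z) = S.se s(v.1, u) (lc P z) := by
    intro v a
    by_cases hva : (torso H X).Adj v a
    · obtain ⟨u, u1, u2, u3, u4⟩ := (hd s(v, a) hva).fst v (by simp)
      exact ⟨u, fun _ => ⟨u1, u2, u3.imp id fun h => Sym2.congr_right.1 h,
        fun z hz h0 => u4 _ (ev z hz) (offK z hz.1 _ hva h0)⟩⟩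
    · exact ⟨v, fun h => absurd h hva⟩
  choose u hu using fst
  have une : ∀ v a b, (torso H X).Adj v a → (torso H X).Adj v b → a ≠ b → u v a ≠ u v b := by
    intro v a b ha hb ab h1
    rcases (hu v a ha).2.2.1 with k1 | k1 <;> rcases (hu v b hb).2.2.1 with k2 | k2
    · exact ab (Sym2.congr_right.1 (dis _ ha _ hb _ k1 (h1 ▸ k2)))
    · exact KX _ ha _ k1 (by rw [h1, k2]; exact b.2)
    · exact KX _ hb _ k2 (by rw [← h1, k1]; exact a.2)
    · exact ab (Subtype.ext (by rw [← k1, h1, k2]))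
  have hat : ∀ v a c y, (torso H X).Adj v a → (torso H X).Adj v c → IsEven (torso H X) y →
      At v y a c → At v.1 (lc P y) (u v a) (u v c) := by
    intro v a c y ha hc hy h1 t
    obtain ⟨R, rfl, r1, r2, -⟩ := h1.rest hy ha hc
    rw [map_add, map_add, lc_sg, lc_sg, Finsupp.add_apply, Finsupp.add_apply, (hu v a ha).2.1,
      (hu v c hc).2.1, offV R r1 v r2 _ (by simp), add_zero]
  refine ⟨⟨fun v => (S.sv v.1).comp (lc P), fun e => (S.se (f e)).comp (lc P), ?_, ?_⟩⟩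
  · intro z hz v a ha ho
    simp only [LinearMap.comp_apply]
    rw [(hu v a ha).2.2.2 z hz (ho _ (by simp))]
    exact S.t1 _ (ev z hz) _ _ (hu v a ha).1 (offV z hz.1 v ho)
  · intro v a b c ha hb hc ab ac bc y z hy hz h1 h2
    simp only [LinearMap.comp_apply]
    rw [(hu v b hb).2.2.2 y hy (by rw [h1, if_neg ab.symm, if_neg bc, add_zero]),
      (hu v a ha).2.2.2 z hz (by rw [h2, if_neg ab, if_neg ac, add_zero]),
      (hu v c hc).2.2.2 (y + z) (hy.add hz) (by
        rw [Finsupp.add_apply, h1, h2, if_neg ac.symm, if_neg bc.symm, z2add]), map_add]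
    exact S.t2 _ _ _ _ (hu v a ha).1 (hu v b hb).1 (hu v c hc).1 (une v a b ha hb ab)
      (une v a c ha hc ac) (une v b c hb hc bc) _ _ (ev y hy) (ev z hz) (hat v a c y ha hc hy h1)
      (hat v b c z hb hc hz h2)

lemma exists_psi {G : SimpleGraph X} {D : ℕ}
    (hD : ∀ a b, G.Adj a b → ∃ p : H.Walk a.1 b.1, p.length ≤ D) :
    ∃ ψ : Ch X →ₗ[ZMod 2] Ch V,
      (∀ a b, G.Adj a b → ∃ p : H.Walk a.1 b.1, p.length ≤ D ∧ wv p = ψ (sg s(a, b))) ∧
      ∀ L, ∀ z ∈ Short G L, ψ z ∈ Short H (L * D) := by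
  have : ∀ e : Sym2 X, ∃ Q : Ch V, ∀ a b, G.Adj a b → e = s(a, b) →
      ∃ p : H.Walk a.1 b.1, p.length ≤ D ∧ wv p = Q := by
    intro e
    induction e using Sym2.ind with
    | _ a b =>
    by_cases h : G.Adj a b
    · obtain ⟨p, hp⟩ := hD a b h
      refine ⟨wv p, fun a' b' _ h1 => ?_⟩
      rcases Sym2.eq_iff.1 h1 with ⟨rfl, rfl⟩ | ⟨rfl, rfl⟩
      · exact ⟨p, hp, rfl⟩
      · exact ⟨p.reverse, by simpa using hp, wv_reverse p⟩
    · refine ⟨0, fun a' b' h0 h1 => absurd ?_ h⟩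
      rwa [← mem_edgeSet, h1]
  choose Q hQ using this
  have h1 : ∀ a b, G.Adj a b → ∃ p : H.Walk a.1 b.1, p.length ≤ D ∧ wv p = lc Q (sg s(a, b)) :=
    fun a b h => by rw [lc_sg]; exact hQ _ a b h rfl
  have h2 : ∀ {a b : X} (p : G.Walk a b), ∃ q : H.Walk a.1 b.1, q.length ≤ p.length * D ∧
      wv q = lc Q (wv p) := by
    intro a b p
    induction p with
    | nil => exact ⟨Walk.nil, by simp, by simp⟩
    | cons h p ih =>
      obtain ⟨q, q1, q2⟩ := ih
      obtain ⟨r, r1, r2⟩ := h1 _ _ h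
      refine ⟨r.append q, ?_, by rw [wv_append, wv_cons, map_add, q2, r2]⟩
      rw [Walk.length_append, Walk.length_cons, add_mul]
      omega
  refine ⟨lc Q, h1, fun L z hz => ?_⟩
  have : Short G L ≤ (Short H (L * D)).comap (lc Q) := by
    apply Submodule.span_le.2
    rintro y ⟨v, p, hp, rfl⟩
    obtain ⟨q, q1, q2⟩ := h2 p
    show lc Q (wv p) ∈ Short H (L * D)
    rw [← q2]
    exact wv_short q (q1.trans (Nat.mul_le_mul_right D hp))
  exact this hz

end Pool.Agent.H599Z.QT
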