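import Pool.Agent.H599Z.QT.Long

set_option autoImplicit false

namespace Pool.Agent.H599Z.QT

open SimpleGraph
open scoped Classical

variable {V : Type} {H : SimpleGraph V}

def Pc (H : SimpleGraph V) (L : ℕ) (col : V → Bool) : V → V → Prop :=
  Relation.ReflTransGen fun a b => col a = col b ∧ ∃ p : H.Walk a b, p.length ≤ L

lemma Pc.symm {L : ℕ} {col : V → Bool} {a b : V} (h : Pc H L col a b) : Pc H L col b a := by
  induction h with
  | refl => exact Relation.ReflTransGen.refl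
  | tail _ h ih =>
    obtain ⟨h1, p, hp⟩ := h
    exact Relation.ReflTransGen.head ⟨h1.symm, p.reverse, by simpa using hp⟩ ih

lemma walk_between {u v a b : V} (q : H.Walk u v) (ha : a ∈ q.support) (hb : b ∈ q.support) :
    ∃ p : H.Walk a b, p.length ≤ q.length := by
  induction q with
  | nil =>
    simp only [Walk.support_nil, List.mem_singleton] at ha hb
    subst ha hb
    exact ⟨Walk.nil, le_rfl⟩
  | @cons u u' v h q ih =>
    by_cases h1 : a = u
    · subst h1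
      exact ⟨_, Walk.length_takeUntil_le_length _ hb⟩
    by_cases h2 : b = u
    · subst h2
      exact ⟨((Walk.cons h q).takeUntil a ha).reverse, by
        rw [Walk.length_reverse]; exact Walk.length_takeUntil_le_length _ ha⟩
    simp only [Walk.support_cons, List.mem_cons, h1, h2, false_or] at ha hb
    obtain ⟨p, hp⟩ := ih ha hb
    exact ⟨p, by simp; omega⟩

lemma bl : ∀ a b c : Bool, a ≠ c → b ≠ c → a = b := by decide

lemma quot_acyclic {Q : Type} (π : V → Q) {L : ℕ} (hg : Gen H L) (col : V → Bool)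
    (hπ : ∀ a b, π a = π b ↔ Pc H L col a b) (N : SimpleGraph Q)
    (hN : ∀ x y, N.Adj x y ↔ x ≠ y ∧ ∃ a b, H.Adj a b ∧ π a = x ∧ π b = y) : N.IsAcyclic := by
  let φ : Ch V →ₗ[ZMod 2] Ch Q :=
    lc fun e => if (e.map π).IsDiag then 0 else sg (e.map π)
  have φ1 : ∀ a b, φ (sg s(a, b)) = if π a = π b then 0 else sg s(π a, π b) := fun a b => by
    simp [φ, lc_sg]
  have k1 : ∀ {a b : V} (q : H.Walk a b) x, bd x (φ (wv q)) =
      (if x = π a then 1 else 0) + (if x = π b then 1 else 0) := by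
    intro a b q x
    induction q with
    | nil => simp [z2add]
    | @cons a a' b h q ih =>
      rw [wv_cons, map_add, map_add, ih, φ1]
      by_cases h1 : π a = π a'
      · rw [if_pos h1, h1]; simp
      · rw [if_neg h1, bd_sg _ _ _ h1, add_assoc, ← add_assoc (if x = π a' then 1 else 0), z2add,
          zero_add]
  have k2 : ∀ {a b : V} (q : H.Walk a b) e, φ (wv q) e ≠ 0 → ∃ u ∈ q.support, ∃ v ∈ q.support,
      H.Adj u v ∧ π u ≠ π v ∧ e = s(π u, π v) := by
    intro a b q e he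
    induction q with
    | nil => simp at he
    | @cons a a' b h q ih =>
      rw [wv_cons, map_add, Finsupp.add_apply] at he
      by_cases h1 : φ (wv q) e = 0
      · rw [h1, add_zero, φ1] at he
        by_cases h2 : π a = π a'
        · simp [h2] at he
        · rw [if_neg h2, sg_apply] at he
          refine ⟨a, by simp, a', by simp, h, h2, ?_⟩
          by_contra h3
          exact he (if_neg fun h4 => h3 h4.symm)
      · obtain ⟨u, u1, v, v1, h2⟩ := ih h1
        exact ⟨u, by simp [u1], v, by simp [v1], h2⟩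
  have k3 : ∀ {a b : V} (q : H.Walk a b), q.length ≤ L → π a = π b → φ (wv q) = 0 := by
    intro a b q hq hab
    have ev : IsEven N (φ (wv q)) := ⟨fun e he => by
      obtain ⟨u, -, v, -, h1, h2, rfl⟩ := k2 q e he
      exact (hN _ _).2 ⟨h2, u, v, h1, rfl, rfl⟩, fun x => by rw [k1, hab, z2add]⟩
    have same : ∀ u ∈ q.support, ∀ v ∈ q.support, col u = col v → π u = π v := by
      intro u hu v hv h
      obtain ⟨p, hp⟩ := walk_between q hu hv
      exact (hπ _ _).2 (Relation.ReflTransGen.single ⟨h, p, hp.trans hq⟩)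
    ext e
    by_contra he
    obtain ⟨f, f1, f2, -⟩ := ev.other he e.out_fst_mem
    obtain ⟨u, u1, v, v1, -, h2, rfl⟩ := k2 q e he
    obtain ⟨u', u1', v', v1', -, h2', rfl⟩ := k2 q f f2
    have n1 := mt (same u u1 v v1) h2
    have n2 := mt (same u' u1' v' v1') h2'
    apply f1
    by_cases h : col u = col u'
    · rw [same u u1 u' u1' h, same v v1 v' v1' (bl _ _ _ (Ne.symm n1) (h ▸ Ne.symm n2))]
    · rw [same u u1 v' v1' (bl _ _ _ h (Ne.symm n2)), same v v1 u' u1' (bl _ _ _ (Ne.symm n1)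
        (Ne.symm h)), Sym2.eq_swap]
  have k4 : ∀ z, IsEven H z → φ z = 0 := by
    intro z hz
    have : Short H L ≤ LinearMap.ker φ := by
      apply Submodule.span_le.2
      rintro y ⟨v, p, hp, rfl⟩
      exact k3 p hp rfl
    exact this (hg z hz)
  have k5 : ∀ a b, π a = π b → ∃ q : H.Walk a b, φ (wv q) = 0 := by
    intro a b h
    have h1 := (hπ _ _).1 h
    clear h
    induction h1 with
    | refl => exact ⟨Walk.nil, by simp⟩
    | tail _ h ih =>
      obtain ⟨q, hq⟩ := ih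
      obtain ⟨h1, p, hp⟩ := h
      exact ⟨q.append p, by rw [wv_append, map_add, hq, zero_add,
        k3 p hp ((hπ _ _).2 (Relation.ReflTransGen.single ⟨h1, p, hp⟩))]⟩
  have k6 : ∀ {x y : Q} (p : N.Walk x y) a b, π a = x → π b = y →
      ∃ q : H.Walk a b, φ (wv q) = wv p := by
    intro x y p
    induction p with
    | nil => exact fun a b h1 h2 => k5 a b (h1.trans h2.symm)
    | cons h p ih =>
      intro a b h1 h2
      obtain ⟨ne, u, v, h3, h4, h5⟩ := (hN _ _).1 h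
      obtain ⟨q, hq⟩ := ih v b h5 h2
      obtain ⟨r, hr⟩ := k5 a u (h1.trans h4.symm)
      refine ⟨r.append (Walk.cons h3 q), ?_⟩
      rw [wv_append, wv_cons, wv_cons, map_add, map_add, hr, hq, zero_add, φ1, h4, h5, if_neg ne]
  intro x p hp
  obtain ⟨-, a, -, -, ha, -⟩ := (hN _ _).1 (p.adj_snd hp.not_nil)
  obtain ⟨q, hq⟩ := k6 p a a ha ha
  rw [k4 _ (isEven_wv q)] at hq
  obtain ⟨e, he⟩ := p.edges.exists_mem_of_ne_nil (by simp [hp.not_nil])
  have := wv_trail p hp.isTrail.edges_nodup he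
  rw [← hq] at this
  simp at this

theorem tw_of_gen {L N : ℕ} (hg : Gen H L) (col : V → Bool)
    (hN : ∀ v, {w | ∃ u, Pc H L col v u ∧ (u = w ∨ H.Adj u w)}.encard ≤ N) :
    TreewidthLE H N := by
  rcases isEmpty_or_nonempty V with hV | hV
  · exact ⟨Unit, ⊥, fun _ => ∅, IsTree.of_subsingleton, fun v => hV.elim v, fun v => hV.elim v,
      fun _ => by simp⟩
  let s : Setoid V := ⟨Pc H L col, fun _ => Relation.ReflTransGen.refl, Pc.symm,
    Relation.ReflTransGen.trans⟩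
  let π : V → Quotient s := Quotient.mk s
  let Nv : SimpleGraph (Quotient s) :=
    ⟨fun x y => x ≠ y ∧ ∃ a b, H.Adj a b ∧ π a = x ∧ π b = y,
      ⟨fun x y ⟨h1, a, b, h2, h3, h4⟩ => ⟨h1.symm, b, a, h2.symm, h4, h3⟩⟩,
      ⟨fun x h => h.1 rfl⟩⟩
  have ac := quot_acyclic π hg col (fun a b => Quotient.eq) Nv fun _ _ => Iff.rfl
  have : Nonempty (Quotient s) := hV.map π
  obtain ⟨T, h1, -, h2⟩ := (connected_top (V := Quotient s)).exists_isTree_le_of_le_of_isAcyclic
    le_top ac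
  refine ⟨Quotient s, T, fun x => {w | ∃ u, π u = x ∧ (u = w ∨ H.Adj u w)}, h2, fun v => ?_,
    fun u v h => ⟨π u, ⟨u, rfl, Or.inl rfl⟩, ⟨u, rfl, Or.inr h⟩⟩, fun x => ?_⟩
  · rw [connected_iff_exists_forall_reachable]
    refine ⟨⟨π v, v, rfl, Or.inl rfl⟩, ?_⟩
    rintro ⟨x, u, rfl, rfl | h⟩
    · rfl
    · by_cases h3 : π v = π u
      · exact (congrArg _ (Subtype.ext h3)).mp (Reachable.refl _)
      · exact Adj.reachable (h1 ⟨h3, v, u, h.symm, rfl, rfl⟩)
  · obtain ⟨v, rfl⟩ := Quotient.exists_rep x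
    refine le_trans (le_trans (Set.encard_le_encard ?_) (hN v)) le_self_add
    rintro w ⟨u, u1, u2⟩
    exact ⟨u, Quotient.eq.1 u1.symm, u2⟩

/-! lower bound -/

section
variable {ι : Type} {T : SimpleGraph ι}

def Sub (T : SimpleGraph ι) (S : Set ι) : Prop := ∀ x ∈ S, ∀ y ∈ S, RS T S x y

lemma Sub.inter (hT : T.IsAcyclic) {S R : Set ι} (h : Sub T S) (h' : Sub T R) :
    Sub T (S ∩ R) := by
  intro x hx y hy
  obtain ⟨p, p1, p2⟩ := (h x hx.1 y hy.1).path
  obtain ⟨q, q1, q2⟩ := (h' x hx.2 y hy.2).path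
  have : p = q := congrArg Subtype.val (hT.path_unique ⟨p, p1⟩ ⟨q, q1⟩)
  subst this
  exact ⟨p, fun w hw => ⟨p2 w hw, q2 w hw⟩⟩

lemma mid_mem (hT : T.IsAcyclic) {z a b : ι} {A B S : Set ι} (hd : Disjoint A B)
    (h1 : RS T (insert z A) z a) (h2 : RS T (insert z B) z b) (h3 : RS T S a b) : z ∈ S := by
  by_contra hz
  obtain ⟨a', a1, a2⟩ := h1.first fun h => hz (h ▸ h3.left)
  obtain ⟨b', b1, b2⟩ := h2.first fun h => hz (h ▸ h3.right)
  have ne : a' ≠ b' := fun h => Set.disjoint_left.1 hd (a2.left.1.resolve_left a2.left.2)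
    (h ▸ b2.left.1.resolve_left b2.left.2)
  obtain ⟨p, p1, p2⟩ := (((a2.mono (T := {z}ᶜ) fun w hw => hw.2).trans
    (h3.mono fun w hw h => hz (h ▸ hw))).trans (b2.symm.mono fun w hw => hw.2)).path
  have : p = Walk.cons a1.symm (Walk.cons b1 Walk.nil) := congrArg Subtype.val
    (hT.path_unique ⟨p, p1⟩ ⟨_, by simp [Walk.isPath_def, ne, a1.ne', b1.ne]⟩)
  exact p2 z (by simp [this]) rfl

lemma helly3 (hT : T.IsTree) {A B C : Set ι} (hA : Sub T A) (hB : Sub T B) (hC : Sub T C)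
    (h1 : (A ∩ B).Nonempty) (h2 : (A ∩ C).Nonempty) (h3 : (B ∩ C).Nonempty) :
    ∃ z, z ∈ A ∧ z ∈ B ∧ z ∈ C := by
  obtain ⟨a, a1, a2⟩ := h1
  obtain ⟨b, b1, b2⟩ := h2
  obtain ⟨c, c1, c2⟩ := h3
  obtain ⟨z, -, A', B', C', -, -, -, -, -, -, d1, d2, d3, r1, r2, r3⟩ :=
    tripod (S := Set.univ) ((hA a a1 b b1).mono (Set.subset_univ _))
      ((hB c c1 a a2).mono (Set.subset_univ _))
  exact ⟨z, mid_mem hT.isAcyclic d1 r1 r2 (hA a a1 b b1),
    mid_mem hT.isAcyclic d2 r1 r3 (hB a a2 c c1), mid_mem hT.isAcyclic d3 r2 r3 (hC b b2 c c2)⟩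

lemma helly (hT : T.IsTree) (n : ℕ) : ∀ S : ℕ → Set ι, (∀ i ≤ n, Sub T (S i)) →
    (∀ i ≤ n, ∀ j ≤ n, (S i ∩ S j).Nonempty) → ∃ t, ∀ i ≤ n, t ∈ S i := by
  induction n with
  | zero =>
    intro S _ h
    obtain ⟨t, ht, -⟩ := h 0 le_rfl 0 le_rfl
    exact ⟨t, fun i hi => by rwa [Nat.le_zero.1 hi]⟩
  | succ n ih =>
    intro S h1 h2
    obtain ⟨t, ht⟩ := ih (fun i => S i ∩ S (n + 1))
      (fun i hi => (h1 i (by omega)).inter hT.isAcyclic (h1 _ le_rfl)) (fun i hi j hj => by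
        obtain ⟨z, z1, z2, z3⟩ := helly3 hT (h1 i (by omega)) (h1 j (by omega)) (h1 _ le_rfl)
          (h2 i (by omega) j (by omega)) (h2 i (by omega) _ le_rfl) (h2 j (by omega) _ le_rfl)
        exact ⟨z, ⟨z1, z3⟩, z2, z3⟩)
    refine ⟨t, fun i hi => ?_⟩
    rcases hi.eq_or_lt with rfl | h
    · exact (ht 0 (by omega)).2
    · exact (ht i (by omega)).1

lemma sub_of_conn {S : Set ι} (h : (T.induce S).Connected) : Sub T S := by
  intro x hx y hy
  obtain ⟨p⟩ := h ⟨x, hx⟩ ⟨y, hy⟩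
  exact RS.map (S := Set.univ) (Embedding.induce S).toHom ⟨p, fun _ _ => trivial⟩ fun v _ => v.2

end

theorem not_tw (B : ℕ → Set V) (hc : ∀ i, ∀ x ∈ B i, ∀ y ∈ B i, RS H (B i) x y)
    (hd : ∀ i j, i < j → Disjoint (B i) (B j))
    (ha : ∀ i j, i < j → ∃ x ∈ B i, ∃ y ∈ B j, H.Adj x y) : UnboundedTreewidth H := by
  rintro k ⟨ι, T, bag, hT, h1, h2, h3⟩
  have pair : ∀ i j, i < j →
      ({t | ∃ v ∈ B i, v ∈ bag t} ∩ {t | ∃ v ∈ B j, v ∈ bag t}).Nonempty := by
    intro i j h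
    obtain ⟨x, x1, y, y1, h4⟩ := ha i j h
    obtain ⟨t, t1, t2⟩ := h2 x y h4
    exact ⟨t, ⟨x, x1, t1⟩, ⟨y, y1, t2⟩⟩
  obtain ⟨t, ht⟩ := helly hT (k + 1) (fun i => {t | ∃ v ∈ B i, v ∈ bag t}) (fun i _ => by
    rintro t ⟨v, v1, v2⟩ t' ⟨v', v1', v2'⟩
    have key : ∀ w ∈ B i, ∀ s s', w ∈ bag s → w ∈ bag s' →
        RS T {t | ∃ v ∈ B i, v ∈ bag t} s s' := fun w hw s s' k1 k2 =>
      (sub_of_conn (h1 w) s k1 s' k2).mono fun r hr => ⟨w, hw, hr⟩
    refine (hc i v v1 v' v1').ind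
      (fun w => ∀ s, w ∈ bag s → RS T {t | ∃ v ∈ B i, v ∈ bag t} t s)
      (fun s hs => key v v1 t s v2 hs) ?_ t' v2'
    intro a b _ hb hab ih s hs
    obtain ⟨r, r1, r2⟩ := h2 a b hab
    exact (ih r r1).trans (key b hb r s r2 hs)) (fun i _ j _ => by
      rcases lt_trichotomy i j with h | rfl | h
      · exact pair i j h
      · obtain ⟨t, ht, -⟩ := pair i (i + 1) (by omega)
        exact ⟨t, ht, ht⟩
      · rw [Set.inter_comm]; exact pair j i h)
  choose v hv hv' using fun i : Fin (k + 2) => ht i (by omega)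
  have inj : Function.Injective v := by
    intro i j h
    rcases lt_trichotomy i.1 j.1 with h4 | h4 | h4
    · exact absurd (h ▸ hv j) (Set.disjoint_left.1 (hd _ _ h4) (hv i))
    · exact Fin.ext h4
    · exact absurd (h ▸ hv i) (Set.disjoint_left.1 (hd _ _ h4) (hv j))
  have := (Set.encard_le_encard_of_injOn (s := Set.univ) (fun i _ => hv' i) inj.injOn).trans (h3 t)
  simp only [Set.encard_univ, ENat.card_eq_coe_fintype_card, Fintype.card_fin] at this
  norm_cast at this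
  omega

end Pool.Agent.H599Z.QT
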