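import Pool.Agent.H599Z.QT.Bridge

set_option autoImplicit false

namespace Pool.Agent.H599Z.QT

open SimpleGraph
open scoped Classical

variable {V : Type} {G : SimpleGraph V} {n : ℕ} {z : Ch V} {c : ℤ → V}

def NoA (G : SimpleGraph V) (z : Ch V) (c : ℤ → V) (e : Sym2 V) (p q : ℤ) : Prop :=
  ∀ j, p < j → j < q → ¬ Att G z c e j

def Seg (G : SimpleGraph V) (z : Ch V) (c : ℤ → V) (e : Sym2 V) (p q : ℤ) : Prop :=
  p < q ∧ Att G z c e p ∧ Att G z c e q ∧ NoA G z c e p q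

lemma Att.of_eq {e : Sym2 V} {i j : ℤ} (h : Att G z c e i) (hc : c j = c i) : Att G z c e j := by
  obtain ⟨e', h1, h2, h3⟩ := h
  exact ⟨e', h1, h2, hc ▸ h3⟩

lemma Att.shift (hP : Param G n z c) {e : Sym2 V} {i : ℤ} (h : Att G z c e i) (j k : ℤ)
    (hj : j = i + n * k) : Att G z c e j := h.of_eq (by rw [hj, hP.per])

lemma ed_of_off (hP : Param G n z c) {a b : V} (h : G.Adj a b) (ha : a ∈ OffC c) :
    Ed G z s(a, b) := ⟨h, hP.offz ha _ (by simp)⟩

lemma att_three (h3 : ThreeConn G) (hP : Param G n z c) {e : Sym2 V} {x : V} (hx : x ∈ e)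
    (hx0 : x ∈ OffC c) (i i' : ℤ) : ∃ j, Att G z c e j ∧ c j ≠ c i ∧ c j ≠ c i' := by
  have h := hP.three
  obtain ⟨t, t1, t2⟩ : ∃ t, c t ≠ c i ∧ c t ≠ c i' := by
    have n1 : c 0 ≠ c 1 := hP.ne (by omega) (by omega)
    have n2 : c 0 ≠ c 2 := hP.ne (by omega) (by omega)
    have n3 : c 1 ≠ c 2 := hP.ne (by omega) (by omega)
    by_contra hn
    push Not at hn
    by_cases a0 : c 0 = c i
    · exact n3 ((hn 1 fun h => n1 (a0.trans h.symm)).trans
        (hn 2 fun h => n2 (a0.trans h.symm)).symm)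
    by_cases a1 : c 1 = c i
    · exact n2 ((hn 0 a0).trans (hn 2 fun h => n3 (a1.trans h.symm)).symm)
    · exact n1 ((hn 0 a0).trans (hn 1 a1).symm)
  have := (h3 (c i) (c i') x (c t) (hx0 i) (hx0 i') t1 t2).ind
    (fun w => Ins G c e w ∨ ∃ j, Att G z c e j ∧ c j ≠ c i ∧ c j ≠ c i')
    (Or.inl ⟨x, hx, RS.refl hx0⟩) (by
      rintro a b - hb hab (h | h)
      · by_cases hb0 : b ∈ OffC c
        · exact Or.inl (h.trans (RS.adj hab h.off hb0))
        · simp only [OffC, Set.mem_ofPred_eq, not_forall, not_not] at hb0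
          obtain ⟨j, rfl⟩ := hb0
          simp only [Set.mem_compl_iff, Set.mem_insert_iff, Set.mem_singleton_iff, not_or] at hb
          exact Or.inr ⟨j, ⟨_, ed_of_off hP hab h.off, Or.inr ⟨a, by simp, h⟩, by simp⟩, hb⟩
      · exact Or.inr h)
  exact this.resolve_left fun h => h.off t rfl

lemma att_self {e : Sym2 V} (he : Ed G z e) {i : ℤ} (h : c i ∈ e) : Att G z c e i :=
  ⟨e, he, Or.inl rfl, h⟩

lemma att_ex (h3 : ThreeConn G) (hP : Param G n z c) {e : Sym2 V} (he : Ed G z e) :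
    ∃ i, Att G z c e i := by
  by_cases hx : ∃ x ∈ e, x ∈ OffC c
  · obtain ⟨x, hx, hx0⟩ := hx
    obtain ⟨j, hj, -⟩ := att_three h3 hP hx hx0 0 0
    exact ⟨j, hj⟩
  · push Not at hx
    have := hx e.out.1 (Sym2.out_fst_mem e)
    simp only [OffC, Set.mem_ofPred_eq, not_forall, not_not] at this
    obtain ⟨j, hj⟩ := this
    exact ⟨j, att_self he (hj ▸ Sym2.out_fst_mem e)⟩

lemma spread (h3 : ThreeConn G) (hP : Param G n z c) {e : Sym2 V} (he : Ed G z e) {a b : ℤ}
    (h : NoA G z c e a b) (hb : b ≤ a + n) : b + 2 ≤ a + n := by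
  by_contra hn
  have h0 := hP.three
  have key : ∀ j, Att G z c e j → c j = c b ∨ c j = c (b + 1) := by
    intro j hj
    obtain ⟨k, k1, k2⟩ := hP.norm b j
    have h1 := h (j + n * k - n)
    have h2 : Att G z c e (j + n * k - n) := hj.shift hP _ (k - 1) (by ring)
    have h4 : j + n * k = b ∨ j + n * k = b + 1 := by
      by_contra h5
      exact h1 (by omega) (by omega) h2
    rw [← hP.per j k]
    rcases h4 with h4 | h4 <;> simp [h4]
  by_cases hx : ∃ x ∈ e, x ∈ OffC c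
  · obtain ⟨x, hx, hx0⟩ := hx
    obtain ⟨j, hj, j1, j2⟩ := att_three h3 hP hx hx0 b (b + 1)
    exact (key j hj).elim j1 j2
  · push Not at hx
    induction e using Sym2.ind with
    | _ u v =>
      have hu := hx u (by simp)
      have hv := hx v (by simp)
      simp only [OffC, Set.mem_ofPred_eq, not_forall, not_not] at hu hv
      obtain ⟨i, rfl⟩ := hu
      obtain ⟨j, rfl⟩ := hv
      have hne : c i ≠ c j := (show G.Adj _ _ from he.1).ne
      have k1 := key i (att_self he (by simp))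
      have k2 := key j (att_self he (by simp))
      apply hP.nz b
      rw [← he.2]
      congr 1
      rcases k1 with k1 | k1 <;> rcases k2 with k2 | k2
      · exact absurd (k1.trans k2.symm) hne
      · rw [k1, k2]
      · rw [k1, k2, Sym2.eq_swap]
      · exact absurd (k1.trans k2.symm) hne

lemma least_ge (P : ℤ → Prop) (a : ℤ) (h : ∃ j, a ≤ j ∧ P j) :
    ∃ j, a ≤ j ∧ P j ∧ ∀ t, a ≤ t → t < j → ¬ P t := by
  obtain ⟨j, ⟨h1, h2⟩, h4⟩ := Int.exists_least_of_bdd (P := fun j => a ≤ j ∧ P j)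
    ⟨a, fun _ h => h.1⟩ h
  exact ⟨j, h1, h2, fun t t1 t2 t3 => by have := h4 t ⟨t1, t3⟩; omega⟩

lemma greatest_le (P : ℤ → Prop) (a : ℤ) (h : ∃ j, j ≤ a ∧ P j) :
    ∃ j, j ≤ a ∧ P j ∧ ∀ t, j < t → t ≤ a → ¬ P t := by
  obtain ⟨j, ⟨h1, h2⟩, h4⟩ := Int.exists_greatest_of_bdd (P := fun j => j ≤ a ∧ P j)
    ⟨a, fun _ h => h.1⟩ h
  exact ⟨j, h1, h2, fun t t1 t2 t3 => by have := h4 t ⟨t2, t3⟩; omega⟩

lemma sep_false (h3 : ThreeConn G) (hP : Param G n z c) {x y z0 z1 : ℤ} (a1 : x < z0)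
    (a2 : z0 < y) (a3 : y < z1) (a4 : z1 < x + n)
    (h : ∀ e, Ed G z e → ∀ i j, x < i → i < y → y < j → j < x + n → Att G z c e i →
      Att G z c e j → False) : False := by
  have h0 := hP.three
  have := (h3 (c x) (c y) (c z0) (c z1) (hP.ne a1 (by omega)).symm (hP.ne a2 (by omega))
    (hP.ne (by omega) a4).symm (hP.ne a3 (by omega)).symm).ind
    (fun w => (∃ i, x < i ∧ i < y ∧ w = c i) ∨
      ∃ e i, Ed G z e ∧ Ins G c e w ∧ x < i ∧ i < y ∧ Att G z c e i)
    (Or.inl ⟨z0, a1, a2, rfl⟩) (by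
      intro a b _ hb hab hP'
      simp only [Set.mem_compl_iff, Set.mem_insert_iff, Set.mem_singleton_iff, not_or] at hb
      have fin : ∀ e i, Ed G z e → b ∈ e → x < i → i < y → Att G z c e i →
          (∃ i, x < i ∧ i < y ∧ b = c i) ∨
            ∃ e i, Ed G z e ∧ Ins G c e b ∧ x < i ∧ i < y ∧ Att G z c e i := by
        intro e i he hbe i1 i2 hi
        by_cases hb0 : b ∈ OffC c
        · exact Or.inr ⟨e, i, he, ⟨b, hbe, RS.refl hb0⟩, i1, i2, hi⟩
        · simp only [OffC, Set.mem_ofPred_eq, not_forall, not_not] at hb0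
          obtain ⟨j, rfl⟩ := hb0
          obtain ⟨k, k1, k2⟩ := hP.norm x j
          have hj := hP.per j k
          left
          refine ⟨j + n * k, ?_, ?_, hj.symm⟩
          · exact lt_of_le_of_ne k1 fun h5 => hb.1 (by rw [← hj, ← h5])
          · by_contra h5
            have h6 : y ≠ j + n * k := fun h6 => hb.2 (by rw [← hj, ← h6])
            exact h e he i _ i1 i2 (by omega) k2 hi (att_self he (hj ▸ hbe))
      rcases hP' with ⟨i, i1, i2, rfl⟩ | ⟨e, i, he, hi, i1, i2, ha⟩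
      · by_cases hz : z s(c i, b) = 0
        · exact fin s(c i, b) i ⟨hab, hz⟩ (by simp) i1 i2 (att_self ⟨hab, hz⟩ (by simp))
        · left
          rcases hP.at hz (Sym2.mem_mk_left _ _) with h5 | h5
          · have h6 := Sym2.congr_right.1 h5
            exact ⟨i + 1, by omega, lt_of_le_of_ne (by omega) fun h7 => hb.2 (by rw [h6, h7]), h6⟩
          · rw [Sym2.eq_swap (a := c (i - 1))] at h5
            have h6 := Sym2.congr_right.1 h5
            exact ⟨i - 1, lt_of_le_of_ne (by omega) fun h7 => hb.1 (by rw [h6, h7]), by omega, h6⟩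
      · have he' := ed_of_off hP hab hi.off
        obtain ⟨e'', b1, b2, b3⟩ := ha
        have hc : Conn G c s(a, b) e := Conn.symm (Or.inr ⟨a, by simp, hi⟩)
        exact fin s(a, b) i he' (by simp) i1 i2 ⟨e'', b1, hc.trans he.1 b2, b3⟩)
  rcases this with ⟨i, i1, i2, h1⟩ | ⟨e, i, -, hi, -⟩
  · exact hP.ne (by omega) (by omega) h1.symm
  · exact hi.off z1 rfl

theorem whitney (h3 : ThreeConn G) (hP : Param G n z c) {χ χ' : Sym2 V → ZMod 2}
    (g : GoodCol G n z c χ) (g' : GoodCol G n z c χ') {e1 e2 : Sym2 V} (he1 : Ed G z e1)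
    (he2 : Ed G z e2) : χ e1 + χ' e1 = χ e2 + χ' e2 := by
  by_contra hne
  have h0 := hP.three
  set u : Sym2 V → ZMod 2 := fun e => χ e + χ' e with hu
  have flip : ∀ a b a' b' : ZMod 2, a ≠ a' → b ≠ b' → a + b = a' + b' := by decide
  have nc : ∀ e e', Ed G z e → Ed G z e' → u e ≠ u e' → ¬ Conn G c e e' := by
    intro e e' he he' h hc
    exact h (by simp only [hu]; rw [g.b1 e e' he he' hc, g'.b1 e e' he he' hc])
  have nskew : ∀ e e', Ed G z e → Ed G z e' → u e ≠ u e' → ∀ i j i' j' : ℤ, i < j → j < i' →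
      i' < j' → j' < i + n → Att G z c e i → Att G z c e i' → Att G z c e' j →
      Att G z c e' j' → False := by
    intro e e' he he' h i j i' j' a1 a2 a3 a4 b1 b2 b3 b4
    exact h (flip _ _ _ _ (g.b2 e e' he he' (nc e e' he he' h) i j i' j' a1 a2 a3 a4 b1 b2 b3 b4)
      (g'.b2 e e' he he' (nc e e' he he' h) i j i' j' a1 a2 a3 a4 b1 b2 b3 b4))
  have n3 : ∀ e e', Ed G z e → Ed G z e' → u e ≠ u e' → ∀ i j k : ℤ, i < j → j < k →
      k < i + n → Att G z c e i → Att G z c e j → Att G z c e k → Att G z c e' i →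
      Att G z c e' j → Att G z c e' k → False := by
    intro e e' he he' h i j k a1 a2 a3 b1 b2 b3 b4 b5 b6
    exact h (flip _ _ _ _ (g.b3 e e' he he' (nc e e' he he' h) i j k a1 a2 a3 b1 b2 b3 b4 b5 b6)
      (g'.b3 e e' he he' (nc e e' he he' h) i j k a1 a2 a3 b1 b2 b3 b4 b5 b6))
  have L1 : ∀ β ρ, Ed G z β → Ed G z ρ → u β ≠ u ρ → ∀ p q t, Seg G z c β p q → p < t → t < q →
      Att G z c ρ t → NoA G z c ρ q (p + n) := by
    intro β ρ hβ hρ h p q t hs t1 t2 ht j j1 j2 hj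
    exact nskew β ρ hβ hρ h p t q j t1 t2 j1 j2 hs.2.1 hs.2.2.1 ht hj
  have L2 : ∀ β ρ, Ed G z β → Ed G z ρ → u β ≠ u ρ → ∀ t, Att G z c ρ t →
      ∃ p q, Seg G z c β p q ∧ p ≤ t ∧ t ≤ q ∧ NoA G z c ρ q (p + n) := by
    intro β ρ hβ hρ h t ht
    by_cases hx : ∃ s, Att G z c ρ s ∧ ¬ Att G z c β s
    · obtain ⟨s, s1, s2⟩ := hx
      obtain ⟨i0, hi0⟩ := att_ex h3 hP hβ
      obtain ⟨k0, k1, k2⟩ := hP.norm s i0
      obtain ⟨q, q1, q2, q3⟩ := least_ge (Att G z c β) s ⟨_, k1, hi0.shift hP _ k0 rfl⟩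
      obtain ⟨p, p1, p2, p3⟩ := greatest_le (Att G z c β) s
        ⟨i0 + n * k0 - n, by omega, hi0.shift hP _ (k0 - 1) (by ring)⟩
      have hp : p < s := lt_of_le_of_ne p1 fun h5 => s2 (h5 ▸ p2)
      have hq : s < q := lt_of_le_of_ne q1 fun h5 => s2 (h5 ▸ q2)
      have hs : Seg G z c β p q := ⟨by omega, p2, q2, fun j j1 j2 => by
        by_cases h5 : j ≤ s
        · exact p3 j j1 h5
        · exact q3 j (by omega) j2⟩
      have hN := L1 β ρ hβ hρ h p q s hs hp hq s1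
      obtain ⟨k, k3, k4⟩ := hP.norm p t
      have k5 : t + n * k ≤ q := by
        by_contra h5
        exact hN _ (by omega) k4 (ht.shift hP _ k rfl)
      refine ⟨p - n * k, q - n * k, ⟨by omega, p2.shift hP _ (-k) (by ring),
        q2.shift hP _ (-k) (by ring), fun j j1 j2 hj => hs.2.2.2 (j + n * k) (by omega) (by omega)
          (hj.shift hP _ k rfl)⟩, by omega, by omega, fun j j1 j2 hj =>
        hN (j + n * k) (by omega) (by omega) (hj.shift hP _ k rfl)⟩
    · push Not at hx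
      obtain ⟨t1, a1, a2, a3⟩ := least_ge (Att G z c ρ) (t + 1)
        ⟨t + n, by omega, ht.shift hP _ 1 (by ring)⟩
      have a4 : NoA G z c ρ t t1 := fun j j1 j2 => a3 j (by omega) j2
      have a5 : t1 ≤ t + n := by
        by_contra h5
        exact a3 (t + n) (by omega) (by omega) (ht.shift hP _ 1 (by ring))
      have a6 := spread h3 hP hρ a4 a5
      have a7 : NoA G z c ρ t1 (t + n) := fun j j1 j2 hj =>
        n3 β ρ hβ hρ h t t1 j (by omega) j1 j2 (hx _ ht) (hx _ a2) (hx _ hj) ht a2 hj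
      by_cases h5 : NoA G z c β t t1
      · exact ⟨t, t1, ⟨by omega, hx _ ht, hx _ a2, h5⟩, le_rfl, by omega, a7⟩
      · simp only [NoA, not_forall, not_not] at h5
        obtain ⟨j, j1, j2, hj⟩ := h5
        refine ⟨t1 - n, t, ⟨by omega, (hx _ a2).shift hP _ (-1) (by ring), hx _ ht,
          fun i i1 i2 hi => nskew ρ β hρ hβ (Ne.symm h) t j t1 (i + n) j1 j2 (by omega) (by omega)
            ht a2 hj (hi.shift hP _ 1 (by ring))⟩, by omega, le_rfl, ?_⟩
        rwa [sub_add_cancel]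
  have hex : ∃ d : ℕ, ∃ β ρ p q, Ed G z β ∧ Ed G z ρ ∧ u β ≠ u ρ ∧ Seg G z c β p q ∧
      NoA G z c ρ q (p + n) ∧ q = p + d := by
    obtain ⟨t, ht⟩ := att_ex h3 hP he2
    obtain ⟨p, q, a1, -, -, a2⟩ := L2 e1 e2 he1 he2 hne t ht
    exact ⟨(q - p).toNat, e1, e2, p, q, he1, he2, hne, a1, a2, by have := a1.1; omega⟩
  obtain ⟨β, ρ, p, q, hβ, hρ, hd, hs, hN, hq⟩ := Nat.find_spec hex
  have hmin : ∀ β' ρ' p' q', Ed G z β' → Ed G z ρ' → u β' ≠ u ρ' → Seg G z c β' p' q' →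
      NoA G z c ρ' q' (p' + n) → q - p ≤ q' - p' := by
    intro β' ρ' p' q' a1 a2 a3 a4 a5
    have := Nat.find_min' hex (m := (q' - p').toNat)
      ⟨β', ρ', p', q', a1, a2, a3, a4, a5, by have := a4.1; omega⟩
    have := a4.1
    omega
  have col : ∀ e, u e ≠ u β ∨ u e ≠ u ρ := fun e => by
    by_contra h5
    push Not at h5
    exact hd (h5.1.symm.trans h5.2)
  have hpq := hs.1
  have hq2 : q + 2 ≤ p + n := spread h3 hP hβ hs.2.2.2 (by
    by_contra h5
    exact hs.2.2.2 (p + n) (by omega) (by omega) (hs.2.1.shift hP _ 1 (by ring)))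
  obtain ⟨i0, hi0⟩ := att_ex h3 hP hρ
  obtain ⟨k0, k1, k2⟩ := hP.norm p i0
  have k3 : i0 + n * k0 ≤ q := by
    by_contra h5
    exact hN _ (by omega) k2 (hi0.shift hP _ k0 rfl)
  obtain ⟨s, s1, s2, s3⟩ := least_ge (Att G z c ρ) p ⟨_, k1, hi0.shift hP _ k0 rfl⟩
  obtain ⟨t, t1, t2, t3⟩ := greatest_le (Att G z c ρ) q ⟨_, k3, hi0.shift hP _ k0 rfl⟩
  have hst0 : s ≤ t := by
    have a1 : s ≤ i0 + n * k0 := by
      by_contra h5
      exact s3 _ k1 (by omega) (hi0.shift hP _ k0 rfl)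
    have a2 : i0 + n * k0 ≤ t := by
      by_contra h5
      exact t3 _ (by omega) k3 (hi0.shift hP _ k0 rfl)
    omega
  have hst : s + n + 2 ≤ t + n := spread h3 hP hρ (a := t) (b := s + n) (fun j j1 j2 hj => by
    by_cases h5 : j ≤ q
    · exact t3 j j1 h5 hj
    by_cases h6 : j < p + n
    · exact hN j (by omega) h6 hj
    · exact s3 (j - n) (by omega) (by omega) (hj.shift hP _ (-1) (by ring))) (by omega)
  by_cases hA : ∃ e j, Ed G z e ∧ u e ≠ u ρ ∧ s < j ∧ j < t ∧ Att G z c e j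
  · obtain ⟨e, j, he, hue, j1, j2, hj⟩ := hA
    obtain ⟨p', q', a1, a2, a3, a4⟩ := L2 ρ e hρ he (Ne.symm hue) j hj
    have a5 : s ≤ p' := by
      by_contra h5
      exact a1.2.2.2 s (by omega) (by omega) s2
    have a6 : q' ≤ t := by
      by_contra h5
      exact a1.2.2.2 t (by omega) (by omega) t2
    have a7 := hmin ρ e p' q' hρ he (Ne.symm hue) a1 a4
    have a8 : p' = p := by omega
    have a9 : q' = q := by omega
    subst a8 a9
    refine sep_false h3 hP (x := p') (y := q') (z0 := j) (z1 := q' + 1) (by omega) (by omega)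
      (by omega) (by omega) fun f hf i k i1 i2 k1 k2 hi hk => ?_
    rcases col f with h5 | h5
    · exact L1 β f hβ hf (Ne.symm h5) p' q' i hs i1 i2 hi k k1 k2 hk
    · exact L1 ρ f hρ hf (Ne.symm h5) p' q' i a1 i1 i2 hi k k1 k2 hk
  · obtain ⟨x, x1, ⟨β1, x2, x3, x4⟩, x5⟩ := greatest_le
      (fun j => ∃ e, Ed G z e ∧ u e ≠ u ρ ∧ Att G z c e j) s ⟨p, s1, β, hβ, hd, hs.2.1⟩
    obtain ⟨y, y1, ⟨β2, y2, y3, y4⟩, y5⟩ := least_ge
      (fun j => ∃ e, Ed G z e ∧ u e ≠ u ρ ∧ Att G z c e j) t ⟨q, t1, β, hβ, hd, hs.2.2.1⟩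
    have x6 : p ≤ x := by
      by_contra h5
      exact x5 p (by omega) s1 ⟨β, hβ, hd, hs.2.1⟩
    have y6 : y ≤ q := by
      by_contra h5
      exact y5 q t1 (by omega) ⟨β, hβ, hd, hs.2.2.1⟩
    refine sep_false h3 hP (x := x) (y := y) (z0 := s + 1) (z1 := q + 1) (by omega) (by omega)
      (by omega) (by omega) fun f hf i k i1 i2 k1 k2 hi hk => ?_
    have hred : u f = u ρ := by
      by_contra h5
      by_cases h6 : i ≤ s
      · exact x5 i i1 h6 ⟨f, hf, h5, hi⟩
      by_cases h7 : t ≤ i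
      · exact y5 i h7 i2 ⟨f, hf, h5, hi⟩
      · exact hA ⟨f, i, hf, h5, by omega, by omega, hi⟩
    have hN' := L1 β f hβ hf (hred ▸ hd) p q i hs (by omega) (by omega) hi
    by_cases h5 : k ≤ q
    · obtain ⟨p', q', a1, a2, a3, a4⟩ := L2 f β2 hf y2 (hred ▸ Ne.symm y3) y y4
      have a5 : i ≤ p' := by
        by_contra h6
        exact a1.2.2.2 i (by omega) (by omega) hi
      have a6 : q' ≤ k := by
        by_contra h6
        exact a1.2.2.2 k (by omega) (by omega) hk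
      have := hmin f β2 p' q' hf y2 (hred ▸ Ne.symm y3) a1 a4
      omega
    · have h6 : p + n ≤ k := by
        by_contra h6
        exact hN' k (by omega) (by omega) hk
      obtain ⟨p', q', a1, a2, a3, a4⟩ := L2 f β1 hf x2 (hred ▸ Ne.symm x3) x x4
      have a5 : k - n ≤ p' := by
        by_contra h7
        exact a1.2.2.2 (k - n) (by omega) (by omega) (hk.shift hP _ (-1) (by ring))
      have a6 : q' ≤ i := by
        by_contra h7
        exact a1.2.2.2 i (by omega) (by omega) hi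
      have := hmin f β1 p' q' hf x2 (hred ▸ Ne.symm x3) a1 a4
      omega

/-! transport along automorphisms -/

lemma Param.map (g : G ≃g G) (h : Param G n z c) : Param G n (cm g z) (fun i => g (c i)) :=
  ⟨h.three, fun i j => by rw [← h.inj]; exact g.injective.eq_iff,
    fun i => g.map_adj_iff.2 (h.adj i), fun e => by
      rw [cm_iso, h.mem]
      constructor
      · rintro ⟨i, hi⟩
        exact ⟨i, by rw [← map_symm g e, hi]; rfl⟩
      · rintro ⟨i, rfl⟩
        exact ⟨i, by simp⟩⟩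

lemma ed_map (g : G ≃g G) (e : Sym2 V) : Ed G (cm g z) (Sym2.map g e) ↔ Ed G z e := by
  unfold Ed
  rw [edge_map_iso, cm_apply g.injective]

lemma conn_map (g : G ≃g G) {e e' : Sym2 V} (h : Conn G c e e') :
    Conn G (fun i => g (c i)) (Sym2.map g e) (Sym2.map g e') := by
  rcases h with rfl | ⟨y, hy, x, hx, h⟩
  · exact Or.inl rfl
  · exact Or.inr ⟨g y, (mem_map_iso g _ _).2 hy, g x, (mem_map_iso g _ _).2 hx,
      RS.map g.toHom h fun v hv i h1 => hv i (g.injective h1)⟩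

lemma conn_map_iff (g : G ≃g G) {e e' : Sym2 V} :
    Conn G (fun i => g (c i)) (Sym2.map g e) (Sym2.map g e') ↔ Conn G c e e' := by
  refine ⟨fun h => ?_, conn_map g⟩
  have := conn_map g.symm h
  simpa [symm_map] using this

lemma att_map (g : G ≃g G) {e : Sym2 V} {i : ℤ} (h : Att G z c e i) :
    Att G (cm g z) (fun i => g (c i)) (Sym2.map g e) i := by
  obtain ⟨e', h1, h2, h3⟩ := h
  exact ⟨_, (ed_map g e').2 h1, conn_map g h2, (mem_map_iso g _ _).2 h3⟩

lemma GoodCol.comap (g : G ≃g G) {χ : Sym2 V → ZMod 2}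
    (h : GoodCol G n (cm g z) (fun i => g (c i)) χ) :
    GoodCol G n z c (fun e => χ (Sym2.map g e)) :=
  ⟨fun e e' he he' hc => h.b1 _ _ ((ed_map g e).2 he) ((ed_map g e').2 he') (conn_map g hc),
    fun e e' he he' hc i j i' j' a1 a2 a3 a4 b1 b2 b3 b4 =>
      h.b2 _ _ ((ed_map g e).2 he) ((ed_map g e').2 he') (fun h => hc ((conn_map_iff g).1 h))
        i j i' j' a1 a2 a3 a4 (att_map g b1) (att_map g b2) (att_map g b3) (att_map g b4),
    fun e e' he he' hc i j k a1 a2 a3 b1 b2 b3 b4 b5 b6 =>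
      h.b3 _ _ ((ed_map g e).2 he) ((ed_map g e').2 he') (fun h => hc ((conn_map_iff g).1 h))
        i j k a1 a2 a3 (att_map g b1) (att_map g b2) (att_map g b3) (att_map g b4)
        (att_map g b5) (att_map g b6)⟩

/-- automorphisms respect the two sides of a cycle -/
theorem Dual.inv (D : Dual G) (h3 : ThreeConn G) (hz : Irr G n z) (g : G ≃g G)
    {a a' : D.F → ZMod 2} (ha : D.Pot a z) (ha' : D.Pot a' (cm g z)) {e e' : Sym2 V}
    (he : Ed G z e) (he' : Ed G z e') (h : a (D.l e) ≠ a (D.l e')) :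
    a' (D.l (Sym2.map g e)) ≠ a' (D.l (Sym2.map g e')) := by
  obtain ⟨c, hP⟩ := hz.param
  have := whitney h3 hP (D.good hP ha) ((D.good (hP.map g) ha').comap g) he he'
  intro h1
  rw [h1] at this
  exact h (add_right_cancel this)

end Pool.Agent.H599Z.QT
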